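import Pool.Agent.Work.MP_0f91f8_co.SV.Stmts

/-!
# MP_0f91f8_co, block SV, item Ct: the sign from a certificate
-/

set_option autoImplicit false

noncomputable section

namespace Pool.Agent.F0f91f8.SV

open Filter Topology ComplexConjugate MeasureTheory
open Pool.Agent.F0f91f8.HD Pool.Agent.F0f91f8.RC Pool.Agent.F0f91f8.KR Pool.Agent.F0f91f8.FC
open Pool.Agent.F0f91f8.PC
open Pool.Agent.F0f91f8.SC (BM InvF IsJ vv PF RA)
open Pool.Agent.F0f91f8.BH (PT Cert)
open scoped BigOperators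

namespace XCt

/-- the sign -/
def sg (x : ℝ) : ZMod 2 := if x < 0 then 1 else 0

theorem sg_sum (x y z : ℝ) (h : 0 < x * y * z) : sg x + sg y + sg z = 0 := by
  have h1 : (1 : ZMod 2) + 1 = 0 := by decide
  unfold sg
  by_cases hx : x < 0 <;> by_cases hy : y < 0 <;> by_cases hz : z < 0 <;>
    simp only [hx, hy, hz, if_true, if_false, add_zero, zero_add, h1]
  · exfalso
    have := mul_neg_of_pos_of_neg (mul_pos_of_neg_of_neg hx hy) hz
    linarith
  · exfalso
    push Not at hy hz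
    have h2 : x * y ≤ 0 := mul_nonpos_of_nonpos_of_nonneg hx.le hy
    have := mul_nonpos_of_nonpos_of_nonneg h2 hz
    linarith
  · exfalso
    push Not at hx hz
    have h2 : x * y ≤ 0 := mul_nonpos_of_nonneg_of_nonpos hx hy.le
    have := mul_nonpos_of_nonpos_of_nonneg h2 hz
    linarith
  · exfalso
    push Not at hx hy
    have h2 : 0 ≤ x * y := mul_nonneg hx hy
    have := mul_nonpos_of_nonneg_of_nonpos h2 hz.le
    linarith

end XCt

open XCt in
theorem pr_Ct : StCt := by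
  rintro K ⟨a, b, c, m, hm, hPT, hf⟩ X _ μ _ S V φ hV ⟨⟨-, hinv⟩, -⟩ hpos
  have h1 : ∀ᵐ t ∂μ, ∀ j, φ t = 1 → 0 < V (S.T (a j) t) * V (S.T (b j) t) * V (S.T (c j) t) :=
    ae_all_iff.2 fun j => hpos _ _ _ (hPT j)
  have h2 : ∀ᵐ t ∂μ, φ (S.T m t) = 1 → 0 ≤ V (S.T m t) := by
    filter_upwards [h1, hinv m hm] with t ht ht' hφ
    have hφ' : φ t = 1 := ht'.symm.trans hφ
    have h3 := hf (fun n => sg (V (S.T n t)))
    have h4 : ∑ j, (sg (V (S.T (a j) t)) + sg (V (S.T (b j) t)) + sg (V (S.T (c j) t))) = 0 :=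
      Finset.sum_eq_zero fun j _ => sg_sum _ _ _ (ht j hφ')
    have h5 : sg (V (S.T m t)) = 0 := h3.trans h4
    by_contra hneg
    push Not at hneg
    unfold sg at h5
    rw [if_pos hneg] at h5
    exact one_ne_zero h5
  have h3 : μ {t | ¬ (φ t = 1 → 0 ≤ V t)} = 0 := by
    rw [← (S.mp m hm).measure_preimage_equiv]
    exact h2
  exact h3

end Pool.Agent.F0f91f8.SV
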