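import Pool.Agent.Work.MP_0f91f8_co.SV.Stmts

/-!
# MP_0f91f8_co, block SV, item Ex: exact relations for the sign of the vote
-/

set_option autoImplicit false

noncomputable section

namespace Pool.Agent.F0f91f8.SV

open Filter Topology ComplexConjugate MeasureTheory
open Pool.Agent.F0f91f8.HD Pool.Agent.F0f91f8.RC Pool.Agent.F0f91f8.KR Pool.Agent.F0f91f8.FC
open Pool.Agent.F0f91f8.PC
open Pool.Agent.F0f91f8.SC (BM InvF IsJ vv PF RA)
open Pool.Agent.F0f91f8.BH (PT Cert)
open scoped BigOperators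

namespace XEx

theorem m_congr {m : (ℕ → ℕ → ℕ → ℝ) → ℝ} (hm : TM m) {φ ψ : ℕ → ℕ → ℕ → ℝ} (hφ : B3 φ)
    (hψ : B3 ψ) (h : ∀ x y z, PT x y z → φ x y z = ψ x y z) : m φ = m ψ :=
  le_antisymm (hm.mono φ ψ hφ hψ fun x y z hp => (h x y z hp).le)
    (hm.mono ψ φ hψ hφ fun x y z hp => (h x y z hp).ge)

theorem b3_const (c : ℝ) : B3 (fun _ _ _ => c) := ⟨|c|, fun _ _ _ => le_rfl⟩

theorem m_const {m : (ℕ → ℕ → ℕ → ℝ) → ℝ} (hm : TM m) (c : ℝ) : m (fun _ _ _ => c) = c := by
  have h := hm.smul c (fun _ _ _ => 1) (b3_const 1)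
  rw [hm.one, mul_one] at h
  simpa using h

theorem b3_add {φ ψ : ℕ → ℕ → ℕ → ℝ} (hφ : B3 φ) (hψ : B3 ψ) :
    B3 (fun x y z => φ x y z + ψ x y z) := by
  obtain ⟨C, hC⟩ := hφ
  obtain ⟨D, hD⟩ := hψ
  exact ⟨C + D, fun x y z => (abs_add_le _ _).trans (add_le_add (hC x y z) (hD x y z))⟩

theorem b3_smul {φ : ℕ → ℕ → ℕ → ℝ} (c : ℝ) (hφ : B3 φ) : B3 (fun x y z => c * φ x y z) := by
  obtain ⟨C, hC⟩ := hφ
  refine ⟨|c| * C, fun x y z => ?_⟩
  rw [abs_mul]
  exact mul_le_mul_of_nonneg_left (hC x y z) (abs_nonneg c)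

variable {X : Type} [MeasurableSpace X] {μ : Measure X} [IsProbabilityMeasure μ]

/-- bounded functions have bounded integrals -/
theorem b3_int (F : ℕ → ℕ → ℕ → X → ℝ) (C : ℝ) (h : ∀ x y z t, |F x y z t| ≤ C) :
    B3 (fun x y z => ∫ t, F x y z t ∂μ) := by
  refine ⟨C, fun x y z => ?_⟩
  have h2 := norm_integral_le_of_norm_le_const (μ := μ) (C := C) (f := F x y z)
    (Eventually.of_forall fun t => by rw [Real.norm_eq_abs]; exact h x y z t)
  simpa using h2

theorem bm_int {f : X → ℝ} (hf : BM f) : Integrable f μ := by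
  obtain ⟨h1, C, hC⟩ := hf
  exact Integrable.of_bound h1.aestronglyMeasurable C
    (Eventually.of_forall fun t => by rw [Real.norm_eq_abs]; exact hC t)

/-- the sign -/
def sg (V : X → ℝ) (t : X) : ℝ := if 0 ≤ V t then 1 else -1

omit [MeasurableSpace X] in
theorem sg_cases (V : X → ℝ) (t : X) : sg V t = 1 ∨ sg V t = -1 := by
  unfold sg
  split_ifs
  · exact Or.inl rfl
  · exact Or.inr rfl

omit [MeasurableSpace X] in
theorem sg_abs (V : X → ℝ) (t : X) : |sg V t| = 1 := by
  rcases sg_cases V t with h | h <;> rw [h] <;> simp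

omit [MeasurableSpace X] in
theorem sg_mul (V : X → ℝ) (t : X) : sg V t * V t = |V t| := by
  unfold sg
  split_ifs with h
  · rw [one_mul, abs_of_nonneg h]
  · rw [abs_of_neg (not_le.mp h)]
    ring

theorem sg_meas {V : X → ℝ} (hV : Measurable V) : Measurable (sg V) :=
  Measurable.ite (measurableSet_le measurable_const hV) measurable_const measurable_const

theorem int_comb {f g h k : X → ℝ} (hf : Integrable f μ) (hg : Integrable g μ)
    (hh : Integrable h μ) (hk : Integrable k μ) :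
    (-(1 / 2) * ∫ t, f t ∂μ) + (1 / 2) * (((∫ t, g t ∂μ) + ∫ t, h t ∂μ) + ∫ t, k t ∂μ) =
      ∫ t, (-(1 / 2) * f t + (1 / 2) * ((g t + h t) + k t)) ∂μ := by
  have h1 : Integrable (fun t => (g t + h t) + k t) μ := (hg.add hh).add hk
  have h2 : ∫ t, ((g t + h t) + k t) ∂μ = ((∫ t, g t ∂μ) + ∫ t, h t ∂μ) + ∫ t, k t ∂μ := by
    rw [← integral_add hg hh]
    exact integral_add (hg.add hh) hk
  rw [integral_add (hf.const_mul _) (h1.const_mul _), integral_const_mul, integral_const_mul, h2]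

theorem comm (S : Sys μ) {i j : ℕ} (hi : 0 < i) (hj : 0 < j) (t : X) :
    S.T i (S.T j t) = S.T j (S.T i t) := by
  rw [← S.mul i j hi hj, ← S.mul j i hj hi, mul_comm]

/-- the lower bound for one letter -/
theorem lowJ (S : Sys μ) {m : (ℕ → ℕ → ℕ → ℝ) → ℝ} (hm : TM m) {w V : X → ℝ}
    (hw1 : ∀ x, |w x| = 1) (hV : IsV S m w V) {φ : X → ℝ} (hφ : Inv01 S φ) {v0 : ℝ}
    (hv : ∀ᵐ t ∂μ, φ t = 1 → v0 ≤ |V t|) {G : X → ℝ} (hG : Measurable G)
    (hG01 : ∀ t, G t = 0 ∨ (G t = 1 ∧ φ t = 1)) {j : ℕ} (hj : 0 < j) :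
    v0 * ∫ t, G t ∂μ ≤ m (fun x y z => ∫ t, G (S.T x t) * (sg V (S.T j (S.T x t)) *
      (w (S.T j (S.T y t)) * w (S.T j (S.T z t)))) ∂μ) := by
  set Gj : X → ℝ := fun u => G ((S.T j).symm u) with hGj
  have hGj_meas : Measurable Gj := hG.comp (S.T j).symm.measurable
  have hG1 : ∀ t, |G t| ≤ 1 := by
    intro t
    rcases hG01 t with h | h
    · rw [h]; simp
    · rw [h.1]; simp
  have hGjs : BM (fun u => Gj u * sg V u) := by
    refine ⟨hGj_meas.mul (sg_meas hV.meas), 1, fun t => ?_⟩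
    rw [abs_mul, sg_abs, mul_one]
    exact hG1 _
  have h1 := hV.eq (fun u => Gj u * sg V u) hGjs
  have h2 : m (fun x y z => ∫ t, G (S.T x t) * (sg V (S.T j (S.T x t)) *
      (w (S.T j (S.T y t)) * w (S.T j (S.T z t)))) ∂μ) =
      m (fun x y z => ∫ t, (fun u => Gj u * sg V u) (S.T x t) *
        (w (S.T y t) * w (S.T z t)) ∂μ) := by
    refine m_congr hm ?_ ?_ ?_
    · refine b3_int (fun x y z t => G (S.T x t) * (sg V (S.T j (S.T x t)) *
        (w (S.T j (S.T y t)) * w (S.T j (S.T z t))))) 1 fun x y z t => ?_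
      rw [abs_mul, abs_mul, abs_mul, sg_abs, hw1, hw1, mul_one, mul_one, mul_one]
      exact hG1 _
    · refine b3_int (fun x y z t => (fun u => Gj u * sg V u) (S.T x t) *
        (w (S.T y t) * w (S.T z t))) 1 fun x y z t => ?_
      simp only
      rw [abs_mul, abs_mul, abs_mul, sg_abs, hw1, hw1, mul_one, mul_one, mul_one]
      exact hG1 _
    · intro x y z hp
      have h3 := (S.mp j hj).integral_comp' (f := S.T j)
        (fun t => (fun u => Gj u * sg V u) (S.T x t) * (w (S.T y t) * w (S.T z t)))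
      rw [← h3]
      congr 1
      funext t
      simp only [hGj]
      rw [comm S hp.1 hj t, comm S hp.2.1 hj t, comm S hp.2.2.1 hj t,
        MeasurableEquiv.symm_apply_apply]
      ring
  rw [h2, h1]
  have h4 : ∫ t, G t ∂μ = ∫ t, Gj t ∂μ := by
    have h5 := (S.mp j hj).integral_comp' (f := S.T j) Gj
    rw [← h5]
    simp only [hGj, MeasurableEquiv.symm_apply_apply]
  rw [h4, ← integral_const_mul]
  refine integral_mono_ae ?_ ?_ ?_
  · exact (bm_int ⟨hGj_meas, 1, fun t => hG1 _⟩).const_mul v0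
  · refine bm_int ⟨hGjs.1.mul hV.meas, 1, fun t => ?_⟩
    rw [abs_mul, abs_mul, sg_abs, mul_one]
    exact mul_le_one₀ (hG1 _) (abs_nonneg _) (hV.le t)
  · -- where `Gj = 1` also `φ = 1`
    have h6 : ∀ᵐ t ∂μ, φ (S.T j ((S.T j).symm t)) = φ ((S.T j).symm t) := by
      have h7 := hφ.1.2 j hj
      exact ((S.mp j hj).symm (S.T j)).quasiMeasurePreserving.ae h7
    filter_upwards [h6, hv] with t ht1 ht2
    rw [mul_assoc, sg_mul]
    rcases hG01 ((S.T j).symm t) with h | h
    · simp only [hGj, h]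
      simp
    · rw [MeasurableEquiv.apply_symm_apply, h.2] at ht1
      have := ht2 ht1
      simp only [hGj, h.1]
      linarith

end XEx

open XEx in
theorem pr_Ex (hJe : SC.StJe) (hJm : SC.StJm) (hJl : SC.StJl) : StEx := by
  classical
  intro X _ μ _ S m hm hPP w V hw hw1 hV φ hφ v0 p0 hv0 hv a b c ha hb hc q hq hqp hlt
  have hwa : ∀ x, |w x| = 1 := by
    intro x
    rcases hw1 x with h | h <;> rw [h] <;> simp
  set R : X → ℝ := fun u => w (S.T a u) * w (S.T b u) * w (S.T c u) with hR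
  have hR1 : ∀ u, R u = 1 ∨ R u = -1 := by
    intro u
    simp only [hR]
    rcases hw1 (S.T a u) with h1 | h1 <;> rcases hw1 (S.T b u) with h2 | h2 <;>
      rcases hw1 (S.T c u) with h3 | h3 <;> rw [h1, h2, h3] <;> norm_num
  have hRm : Measurable R := ((hw.comp (S.T a).measurable).mul (hw.comp (S.T b).measurable)).mul
    (hw.comp (S.T c).measurable)
  set r : X → ℝ := fun u => (1 - w (S.T a u) * w (S.T b u) * w (S.T c u)) / 2 with hr
  have hrm : Measurable r := (measurable_const.sub hRm).div_const 2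
  have hr1 : ∀ u, |r u| ≤ 1 := by
    intro u
    have : r u = (1 - R u) / 2 := rfl
    rw [this]
    rcases hR1 u with h | h <;> rw [h] <;> norm_num
  have hrB : BM r := ⟨hrm, 1, hr1⟩
  set N : Set X := {t | φ t = 1 ∧ sg V (S.T a t) * sg V (S.T b t) * sg V (S.T c t) = -1} with hN
  have hsm := sg_meas hV.meas
  have hNm : MeasurableSet N := by
    refine MeasurableSet.inter (hφ.1.1.1 (measurableSet_singleton 1)) ?_
    exact (((hsm.comp (S.T a).measurable).mul (hsm.comp (S.T b).measurable)).mul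
      (hsm.comp (S.T c).measurable)) (measurableSet_singleton (-1))
  set G : X → ℝ := N.indicator fun _ => (1 : ℝ) with hG
  have hGm : Measurable G := measurable_const.indicator hNm
  have hGN : ∀ t, t ∈ N → G t = 1 := fun t ht => by simp [hG, ht]
  have hGN' : ∀ t, t ∉ N → G t = 0 := fun t ht => by simp [hG, ht]
  have hG01 : ∀ t, G t = 0 ∨ (G t = 1 ∧ φ t = 1) := by
    intro t
    by_cases ht : t ∈ N
    · exact Or.inr ⟨hGN t ht, ht.1⟩
    · exact Or.inl (hGN' t ht)
  have hG0 : ∀ t, 0 ≤ G t := by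
    intro t
    rcases hG01 t with h | h
    · rw [h]
    · rw [h.1]; norm_num
  have hG1 : ∀ t, |G t| ≤ 1 := by
    intro t
    rcases hG01 t with h | h
    · rw [h]; simp
    · rw [h.1]; simp
  have hGB : BM G := ⟨hGm, 1, hG1⟩
  -- the function `I`
  set I : ℕ → ℕ → ℕ → ℝ := fun x y z =>
    ∫ t, G (S.T x t) * ((1 - R (S.T y t) * R (S.T z t)) / 2) ∂μ with hI
  have hRR : ∀ u v, |(1 - R u * R v) / 2| ≤ 1 := by
    intro u v
    rcases hR1 u with h | h <;> rcases hR1 v with h' | h' <;> rw [h, h'] <;> norm_num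
  have hIB : B3 I := by
    refine b3_int (fun x y z t => G (S.T x t) * ((1 - R (S.T y t) * R (S.T z t)) / 2)) 1
      fun x y z t => ?_
    rw [abs_mul]
    exact mul_le_one₀ (hG1 _) (abs_nonneg _) (hRR _ _)
  have hcomp : ∀ {f : X → ℝ}, Measurable f → ∀ n, Measurable fun t => f (S.T n t) :=
    fun hf n => hf.comp (S.T n).measurable
  -- upper bound
  obtain ⟨J, hJ, -⟩ := hJe X _ μ inferInstance S G hGB
  have hup : m I ≤ 2 * (p0 * ∫ t, G t ∂μ) := by
    have hB1 : B3 (fun x y z => ∫ t, G (S.T x t) * r (S.T y t) ∂μ) := by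
      refine b3_int (fun x y z t => G (S.T x t) * r (S.T y t)) 1 fun x y z t => ?_
      rw [abs_mul]
      exact mul_le_one₀ (hG1 _) (abs_nonneg _) (hr1 _)
    have hB2 : B3 (fun x y z => ∫ t, G (S.T x t) * r (S.T z t) ∂μ) := by
      refine b3_int (fun x y z t => G (S.T x t) * r (S.T z t)) 1 fun x y z t => ?_
      rw [abs_mul]
      exact mul_le_one₀ (hG1 _) (abs_nonneg _) (hr1 _)
    have h1 : m I ≤ m (fun x y z => (∫ t, G (S.T x t) * r (S.T y t) ∂μ) +
        ∫ t, G (S.T x t) * r (S.T z t) ∂μ) := by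
      refine hm.mono _ _ hIB (b3_add hB1 hB2) fun x y z _ => ?_
      have i1 : Integrable (fun t => G (S.T x t) * r (S.T y t)) μ := by
        refine bm_int ⟨(hcomp hGm x).mul (hcomp hrm y), 1, fun t => ?_⟩
        rw [abs_mul]
        exact mul_le_one₀ (hG1 _) (abs_nonneg _) (hr1 _)
      have i2 : Integrable (fun t => G (S.T x t) * r (S.T z t)) μ := by
        refine bm_int ⟨(hcomp hGm x).mul (hcomp hrm z), 1, fun t => ?_⟩
        rw [abs_mul]
        exact mul_le_one₀ (hG1 _) (abs_nonneg _) (hr1 _)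
      rw [← integral_add i1 i2]
      refine integral_mono ?_ (i1.add i2) fun t => ?_
      · refine bm_int ⟨(hcomp hGm x).mul (((measurable_const.sub
          ((hcomp hRm y).mul (hcomp hRm z)))).div_const 2), 1, fun t => ?_⟩
        rw [abs_mul]
        exact mul_le_one₀ (hG1 _) (abs_nonneg _) (hRR _ _)
      · simp only [Pi.add_apply]
        rw [← mul_add]
        refine mul_le_mul_of_nonneg_left ?_ (hG0 _)
        have e1 : r (S.T y t) = (1 - R (S.T y t)) / 2 := rfl
        have e2 : r (S.T z t) = (1 - R (S.T z t)) / 2 := rfl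
        rw [e1, e2]
        rcases hR1 (S.T y t) with h | h <;> rcases hR1 (S.T z t) with h' | h' <;>
          rw [h, h'] <;> norm_num
    rw [hm.add _ _ hB1 hB2, (hPP G r J q hGB hrB hJ hq).1, (hPP G r J q hGB hrB hJ hq).2.1] at h1
    -- the integral of `J q`
    have hJ0 : ∀ᵐ t ∂μ, 0 ≤ J t :=
      hJm X _ μ inferInstance S (fun _ => 0) G (fun _ => 0) J ⟨measurable_const, 0, by simp⟩ hGB
        ((hJl X _ μ inferInstance S).2.1 0) hJ (Eventually.of_forall hG0)
    have hφG : (fun t => φ t * G t) = G := by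
      funext t
      rcases hG01 t with h | h
      · rw [h, mul_zero]
      · rw [h.1, h.2, mul_one]
    have hJφ : ∀ᵐ t ∂μ, φ t = 0 → J t = 0 := by
      have h2 := (hJl X _ μ inferInstance S).2.2.1 φ G J hGB hφ.1 hJ
      rw [hφG] at h2
      have h3 := hJm X _ μ inferInstance S G G J (fun t => φ t * J t) hGB hGB hJ h2
        (Eventually.of_forall fun t => le_rfl)
      have h4 := hJm X _ μ inferInstance S G G (fun t => φ t * J t) J hGB hGB h2 hJ
        (Eventually.of_forall fun t => le_rfl)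
      filter_upwards [h3, h4] with t h5 h6 h7
      simp only [h7, zero_mul] at h5 h6
      exact le_antisymm h5 h6
    have h5 : ∫ t, J t * q t ∂μ ≤ p0 * ∫ t, G t ∂μ := by
      have h6 : ∫ t, G t ∂μ = ∫ t, J t ∂μ := by
        have h7 := hJ.int (fun _ => 1) ⟨⟨measurable_const, 1, by simp⟩,
          fun n _ => Eventually.of_forall fun t => rfl⟩
        simpa using h7
      rw [h6, ← integral_const_mul]
      refine integral_mono_ae ?_ ((bm_int hJ.inv.1).const_mul p0) ?_
      · obtain ⟨⟨hJ1, C, hC⟩, -⟩ := hJ.inv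
        obtain ⟨⟨hq1, D, hD⟩, -⟩ := hq.inv
        refine bm_int ⟨hJ1.mul hq1, C * D, fun t => ?_⟩
        rw [abs_mul]
        exact mul_le_mul (hC t) (hD t) (abs_nonneg _) ((abs_nonneg _).trans (hC t))
      · filter_upwards [hJ0, hJφ, hqp] with t h7 h8 h9
        rcases hφ.2 t with h | h
        · rw [h8 h]
          simp
        · rw [mul_comm]
          exact mul_le_mul_of_nonneg_right (h9 h) h7
    linarith
  -- lower bound
  set A : ℕ → ℕ → ℕ → ℕ → ℝ := fun j x y z => ∫ t, G (S.T x t) * (sg V (S.T j (S.T x t)) *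
    (w (S.T j (S.T y t)) * w (S.T j (S.T z t)))) ∂μ with hA
  have hAb : ∀ j x y z t, |G (S.T x t) * (sg V (S.T j (S.T x t)) *
      (w (S.T j (S.T y t)) * w (S.T j (S.T z t))))| ≤ 1 := by
    intro j x y z t
    rw [abs_mul, abs_mul, abs_mul, sg_abs, hwa, hwa, mul_one, mul_one, mul_one]
    exact hG1 _
  have hAB : ∀ j, B3 (A j) := fun j => b3_int (fun x y z t => G (S.T x t) *
    (sg V (S.T j (S.T x t)) * (w (S.T j (S.T y t)) * w (S.T j (S.T z t))))) 1 (hAb j)
  have hAi : ∀ j x y z, Integrable (fun t => G (S.T x t) * (sg V (S.T j (S.T x t)) *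
      (w (S.T j (S.T y t)) * w (S.T j (S.T z t))))) μ := by
    intro j x y z
    refine bm_int ⟨?_, 1, hAb j x y z⟩
    exact (hcomp hGm x).mul ((hcomp (hcomp hsm j) x).mul
      ((hcomp (hcomp hw j) y).mul (hcomp (hcomp hw j) z)))
  have hlow : (3 * v0 - 1) / 2 * ∫ t, G t ∂μ ≤ m I := by
    have h1 : m (fun x y z => (-(1 / 2) * ∫ t, G t ∂μ) +
        (1 / 2) * ((A a x y z + A b x y z) + A c x y z)) ≤ m I := by
      refine hm.mono _ _ (b3_add (b3_const _) (b3_smul _ (b3_add (b3_add (hAB a) (hAB b)) (hAB c))))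
        hIB fun x y z hp => ?_
      have e0 : ∫ t, G t ∂μ = ∫ t, G (S.T x t) ∂μ :=
        ((S.mp x hp.1).integral_comp' (f := S.T x) G).symm
      have i0 : Integrable (fun t => G (S.T x t)) μ := bm_int ⟨hcomp hGm x, 1, fun t => hG1 _⟩
      simp only [hA, hI]
      rw [e0, int_comb i0 (hAi a x y z) (hAi b x y z) (hAi c x y z)]
      refine integral_mono ?_ ?_ fun t => ?_
      · exact (i0.const_mul _).add ((((hAi a x y z).add (hAi b x y z)).add
          (hAi c x y z)).const_mul _)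
      · refine bm_int ⟨(hcomp hGm x).mul (((measurable_const.sub
          ((hcomp hRm y).mul (hcomp hRm z)))).div_const 2), 1, fun t => ?_⟩
        rw [abs_mul]
        exact mul_le_one₀ (hG1 _) (abs_nonneg _) (hRR _ _)
      · by_cases ht : S.T x t ∈ N
        · simp only [hGN _ ht]
          have h2 : sg V (S.T a (S.T x t)) * sg V (S.T b (S.T x t)) *
            sg V (S.T c (S.T x t)) = -1 := ht.2
          simp only [hR]
          rcases sg_cases V (S.T a (S.T x t)) with s1 | s1 <;>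
          rcases sg_cases V (S.T b (S.T x t)) with s2 | s2 <;>
          rcases sg_cases V (S.T c (S.T x t)) with s3 | s3 <;>
          rw [s1, s2, s3] at h2 ⊢ <;> norm_num at h2 <;>
          (rcases hw1 (S.T a (S.T y t)) with u1 | u1 <;>
          rcases hw1 (S.T b (S.T y t)) with u2 | u2 <;>
          rcases hw1 (S.T c (S.T y t)) with u3 | u3 <;>
          rcases hw1 (S.T a (S.T z t)) with v1 | v1 <;>
          rcases hw1 (S.T b (S.T z t)) with v2 | v2 <;>
          rcases hw1 (S.T c (S.T z t)) with v3 | v3 <;>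
          rw [u1, u2, u3, v1, v2, v3] <;> norm_num)
        · rw [hGN' _ ht]
          simp
    rw [hm.add _ _ (b3_const _) (b3_smul _ (b3_add (b3_add (hAB a) (hAB b)) (hAB c))),
      m_const hm, hm.smul _ _ (b3_add (b3_add (hAB a) (hAB b)) (hAB c)),
      hm.add _ _ (b3_add (hAB a) (hAB b)) (hAB c), hm.add _ _ (hAB a) (hAB b)] at h1
    have ka := lowJ S hm hwa hV hφ hv hGm hG01 ha
    have kb := lowJ S hm hwa hV hφ hv hGm hG01 hb
    have kc := lowJ S hm hwa hV hφ hv hGm hG01 hc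
    have ka' : v0 * ∫ t, G t ∂μ ≤ m (A a) := ka
    have kb' : v0 * ∫ t, G t ∂μ ≤ m (A b) := kb
    have kc' : v0 * ∫ t, G t ∂μ ≤ m (A c) := kc
    linarith
  -- the measure of `N` is zero
  have hint0 : ∫ t, G t ∂μ = 0 := by
    have h1 : 0 ≤ ∫ t, G t ∂μ := integral_nonneg hG0
    have h2 : (1 - (2 * p0 + 3 * (1 - v0) / 2)) * ∫ t, G t ∂μ ≤ 0 := by linarith
    have h3 : 0 < 1 - (2 * p0 + 3 * (1 - v0) / 2) := by linarith
    nlinarith
  have hae : ∀ᵐ t ∂μ, G t = 0 := by
    have := (integral_eq_zero_iff_of_nonneg hG0 (bm_int hGB)).mp hint0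
    exact this
  have hφj : ∀ j, 0 < j → ∀ᵐ t ∂μ, φ t = 1 → v0 ≤ |V (S.T j t)| := by
    intro j hj
    filter_upwards [(S.mp j hj).quasiMeasurePreserving.ae hv, hφ.1.2 j hj] with t h1 h2 h3
    exact h1 (by rw [h2, h3])
  filter_upwards [hae, hφj a ha, hφj b hb, hφj c hc] with t h0 h1 h2 h3 ht
  have k1 := h1 ht
  have k2 := h2 ht
  have k3 := h3 ht
  have hnN : t ∉ N := by
    intro h
    rw [hGN t h] at h0
    norm_num at h0
  have hs : sg V (S.T a t) * sg V (S.T b t) * sg V (S.T c t) = 1 := by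
    have h4 : sg V (S.T a t) * sg V (S.T b t) * sg V (S.T c t) ≠ -1 := fun h => hnN ⟨ht, h⟩
    rcases sg_cases V (S.T a t) with s1 | s1 <;> rcases sg_cases V (S.T b t) with s2 | s2 <;>
      rcases sg_cases V (S.T c t) with s3 | s3 <;> rw [s1, s2, s3] at h4 ⊢ <;> revert h4 <;>
      norm_num
  have h5 : V (S.T a t) * V (S.T b t) * V (S.T c t) =
      |V (S.T a t)| * |V (S.T b t)| * |V (S.T c t)| := by
    rw [← sg_mul V (S.T a t), ← sg_mul V (S.T b t), ← sg_mul V (S.T c t)]
    have : sg V (S.T a t) * V (S.T a t) * (sg V (S.T b t) * V (S.T b t)) *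
        (sg V (S.T c t) * V (S.T c t)) = (sg V (S.T a t) * sg V (S.T b t) * sg V (S.T c t)) *
        (V (S.T a t) * V (S.T b t) * V (S.T c t)) := by ring
    rw [this, hs, one_mul]
  rw [h5]
  have p1 : 0 < |V (S.T a t)| := hv0.trans_le k1
  have p2 : 0 < |V (S.T b t)| := hv0.trans_le k2
  have p3 : 0 < |V (S.T c t)| := hv0.trans_le k3
  positivity

end Pool.Agent.F0f91f8.SV
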