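import Pool.Agent.Work.MP_0f91f8_co.SV.Stmts

/-!
Item [0f91f8 SV Ez]: the error of the votes and the integral of the votes over the set.
-/

set_option autoImplicit false

noncomputable section

namespace Pool.Agent.F0f91f8.SV

open Filter Topology ComplexConjugate MeasureTheory
open Pool.Agent.F0f91f8.HD Pool.Agent.F0f91f8.RC Pool.Agent.F0f91f8.KR Pool.Agent.F0f91f8.FC
open Pool.Agent.F0f91f8.PC
open Pool.Agent.F0f91f8.SC (BM InvF IsJ vv PF RA)
open Pool.Agent.F0f91f8.BH (PT Cert)
open scoped BigOperators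

namespace XEz

section
variable {X : Type} [MeasurableSpace X] {μ : Measure X}

lemma bm_mul {f g : X → ℝ} (hf : BM f) (hg : BM g) : BM (fun t => f t * g t) := by
  obtain ⟨hf1, C, hC⟩ := hf
  obtain ⟨hg1, D, hD⟩ := hg
  refine ⟨hf1.mul hg1, C * D, fun t => ?_⟩
  rw [abs_mul]
  exact mul_le_mul (hC t) (hD t) (abs_nonneg _) ((abs_nonneg _).trans (hC t))

lemma bm_add {f g : X → ℝ} (hf : BM f) (hg : BM g) : BM (fun t => f t + g t) := by
  obtain ⟨hf1, C, hC⟩ := hf
  obtain ⟨hg1, D, hD⟩ := hg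
  refine ⟨hf1.add hg1, C + D, fun t => ?_⟩
  exact (abs_add_le _ _).trans (add_le_add (hC t) (hD t))

lemma bm_const (c : ℝ) : BM (fun _ : X => c) := ⟨measurable_const, |c|, fun _ => le_rfl⟩

lemma bm_int [IsProbabilityMeasure μ] {f : X → ℝ} (hf : BM f) : Integrable f μ := by
  obtain ⟨hf1, C, hC⟩ := hf
  exact Integrable.of_bound hf1.aestronglyMeasurable C
    (Eventually.of_forall fun t => by rw [Real.norm_eq_abs]; exact hC t)

lemma bm_comp (S : Sys μ) {f : X → ℝ} (hf : BM f) (n : ℕ) : BM (fun t => f (S.T n t)) :=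
  ⟨hf.1.comp (S.T n).measurable, hf.2.imp fun _ hC t => hC _⟩

/-- the indicator function -/
abbrev io (A : Set X) : X → ℝ := A.indicator fun _ => (1 : ℝ)

omit [MeasurableSpace X] in
lemma io_01 (A : Set X) (t : X) : io A t = 0 ∨ io A t = 1 := by
  by_cases h : t ∈ A
  · right; exact Set.indicator_of_mem h _
  · left; exact Set.indicator_of_notMem h _

omit [MeasurableSpace X] in
lemma io_one {A : Set X} {t : X} (h : t ∈ A) : io A t = 1 := Set.indicator_of_mem h _

omit [MeasurableSpace X] in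
lemma io_zero {A : Set X} {t : X} (h : t ∉ A) : io A t = 0 := Set.indicator_of_notMem h _

omit [MeasurableSpace X] in
lemma io_mem {A : Set X} {t : X} (h : io A t ≠ 0) : t ∈ A := by
  by_contra h'
  exact h (Set.indicator_of_notMem h' _)

lemma bm_io {A : Set X} (hA : MeasurableSet A) : BM (io A) := by
  refine ⟨measurable_const.indicator hA, 1, fun t => ?_⟩
  rcases io_01 A t with h | h <;> rw [h] <;> norm_num

lemma bm_vv {A : Set X} (hA : MeasurableSet A) : BM (vv A) := by
  have h : BM (fun t => (1 : ℝ) + (-2) * io A t) :=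
    bm_add (bm_const 1) (bm_mul (bm_const (-2)) (bm_io hA))
  have e : vv A = fun t => (1 : ℝ) + (-2) * io A t := by
    funext t
    unfold vv
    ring
  rw [e]
  exact h

/-- integrals of products of three bounded functions are bounded in `x, y, z` -/
lemma b3_int [IsProbabilityMeasure μ] (S : Sys μ) {f g h : X → ℝ} (hf : BM f) (hg : BM g)
    (hh : BM h) : B3 (fun x y z => ∫ t, f (S.T x t) * (g (S.T y t) * h (S.T z t)) ∂μ) := by
  obtain ⟨hf1, C, hC⟩ := hf
  obtain ⟨hg1, D, hD⟩ := hg
  obtain ⟨hh1, E, hE⟩ := hh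
  refine ⟨C * (D * E), fun x y z => ?_⟩
  have h1 := norm_integral_le_of_norm_le_const (μ := μ)
    (f := fun t => f (S.T x t) * (g (S.T y t) * h (S.T z t))) (C := C * (D * E))
    (Eventually.of_forall fun t => by
      rw [Real.norm_eq_abs, abs_mul, abs_mul]
      have c0 : 0 ≤ C := (abs_nonneg _).trans (hC t)
      have d0 : 0 ≤ D := (abs_nonneg _).trans (hD t)
      exact mul_le_mul (hC _) (mul_le_mul (hD _) (hE _) (abs_nonneg _) d0)
        (mul_nonneg (abs_nonneg _) (abs_nonneg _)) c0)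
  rw [Real.norm_eq_abs] at h1
  simpa using h1

lemma B3.add' {φ ψ : ℕ → ℕ → ℕ → ℝ} (h1 : B3 φ) (h2 : B3 ψ) :
    B3 (fun x y z => φ x y z + ψ x y z) := by
  obtain ⟨C, hC⟩ := h1
  obtain ⟨D, hD⟩ := h2
  exact ⟨C + D, fun x y z => (abs_add_le _ _).trans (add_le_add (hC x y z) (hD x y z))⟩

lemma B3.smul' {φ : ℕ → ℕ → ℕ → ℝ} (c : ℝ) (h1 : B3 φ) : B3 (fun x y z => c * φ x y z) := by
  obtain ⟨C, hC⟩ := h1
  refine ⟨|c| * C, fun x y z => ?_⟩
  rw [abs_mul]
  exact mul_le_mul_of_nonneg_left (hC x y z) (abs_nonneg _)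

lemma B3.const' (c : ℝ) : B3 (fun _ _ _ => c) := ⟨|c|, fun _ _ _ => le_rfl⟩

lemma m_congr {m : (ℕ → ℕ → ℕ → ℝ) → ℝ} (hm : TM m) {φ ψ : ℕ → ℕ → ℕ → ℝ} (h1 : B3 φ)
    (h2 : B3 ψ) (h : ∀ x y z, PT x y z → φ x y z = ψ x y z) : m φ = m ψ :=
  le_antisymm (hm.mono φ ψ h1 h2 fun x y z hp => (h x y z hp).le)
    (hm.mono ψ φ h2 h1 fun x y z hp => (h x y z hp).ge)

lemma m_const {m : (ℕ → ℕ → ℕ → ℝ) → ℝ} (hm : TM m) (c : ℝ) : m (fun _ _ _ => c) = c := by
  have h := hm.smul c (fun _ _ _ => 1) (B3.const' 1)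
  simpa [hm.one] using h

lemma inv_mul {S : Sys μ} {f g : X → ℝ} (hf : InvF S f) (hg : InvF S g) :
    InvF S (fun t => f t * g t) := by
  refine ⟨bm_mul hf.1 hg.1, fun n hn => ?_⟩
  filter_upwards [hf.2 n hn, hg.2 n hn] with t h1 h2
  have h1' : f (S.T n t) = f t := h1
  have h2' : g (S.T n t) = g t := h2
  show f (S.T n t) * g (S.T n t) = f t * g t
  rw [h1', h2']

lemma inv_add {S : Sys μ} {f g : X → ℝ} (hf : InvF S f) (hg : InvF S g) :
    InvF S (fun t => f t + g t) := by
  refine ⟨bm_add hf.1 hg.1, fun n hn => ?_⟩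
  filter_upwards [hf.2 n hn, hg.2 n hn] with t h1 h2
  have h1' : f (S.T n t) = f t := h1
  have h2' : g (S.T n t) = g t := h2
  show f (S.T n t) + g (S.T n t) = f t + g t
  rw [h1', h2']

lemma inv_const (S : Sys μ) (c : ℝ) : InvF S (fun _ => c) :=
  ⟨bm_const c, fun _ _ => Filter.EventuallyEq.rfl⟩

/-- an invariant function with nonpositive integrals over all invariant sets is nonpositive -/
lemma nonpos [IsProbabilityMeasure μ] (S : Sys μ) {H : X → ℝ} (hH : InvF S H)
    (h : ∀ φ : X → ℝ, Inv01 S φ → ∫ t, φ t * H t ∂μ ≤ 0) : ∀ᵐ t ∂μ, H t ≤ 0 := by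
  have hN : MeasurableSet {t | 0 < H t} := measurableSet_lt measurable_const hH.1.1
  have hφ : Inv01 S (io {t | 0 < H t}) := by
    refine ⟨⟨bm_io hN, fun n hn => ?_⟩, io_01 _⟩
    filter_upwards [hH.2 n hn] with t ht
    have ht' : H (S.T n t) = H t := ht
    show io {t | 0 < H t} (S.T n t) = io {t | 0 < H t} t
    by_cases h0 : 0 < H t
    · rw [io_one (show t ∈ {t | 0 < H t} from h0),
        io_one (show S.T n t ∈ {t | 0 < H t} from by
          show 0 < H (S.T n t); rw [ht']; exact h0)]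
    · rw [io_zero (show t ∉ {t | 0 < H t} from h0),
        io_zero (show S.T n t ∉ {t | 0 < H t} from by
          show ¬ 0 < H (S.T n t); rw [ht']; exact h0)]
  have h1 := h _ hφ
  have hnn : ∀ t, 0 ≤ io {t | 0 < H t} t * H t := by
    intro t
    by_cases h0 : 0 < H t
    · rw [io_one (show t ∈ {t | 0 < H t} from h0), one_mul]
      exact h0.le
    · rw [io_zero (show t ∉ {t | 0 < H t} from h0), zero_mul]
  have hint : Integrable (fun t => io {t | 0 < H t} t * H t) μ := bm_int (bm_mul (bm_io hN) hH.1)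
  have h2 : ∫ t, io {t | 0 < H t} t * H t ∂μ = 0 :=
    le_antisymm h1 (integral_nonneg hnn)
  rw [integral_eq_zero_iff_of_nonneg hnn hint] at h2
  filter_upwards [h2] with t ht
  by_contra hc
  push Not at hc
  have ht' : io {t | 0 < H t} t * H t = 0 := ht
  rw [io_one (show t ∈ {t | 0 < H t} from hc), one_mul] at ht'
  linarith

/-- the correlations of one triple -/
lemma pair [IsProbabilityMeasure μ] (S : Sys μ) {A : Set X} {φ : X → ℝ}
    (hφ : Inv01 S φ) {x y : ℕ} (hx : 0 < x) (hy : 0 < y) :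
    ∫ t, (φ (S.T x t) * io A (S.T x t)) * (φ (S.T y t) * io A (S.T y t)) ∂μ =
      ∫ t, φ t * (io A (S.T x t) * io A (S.T y t)) ∂μ := by
  apply integral_congr_ae
  filter_upwards [hφ.1.2 x hx, hφ.1.2 y hy] with t h1 h2
  have h1' : φ (S.T x t) = φ t := h1
  have h2' : φ (S.T y t) = φ t := h2
  rw [h1', h2']
  rcases hφ.2 t with h | h <;> rw [h] <;> ring

end

end XEz

open XEz in
theorem pr_Ez (hJl : SC.StJl) : StEz := by
  intro X mX μ hμ S m hm hPP A hA hPF V e D hV he hD
  obtain ⟨_, _, hJl3, hJl4⟩ := hJl X mX μ hμ S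
  have hio : BM (io A) := bm_io hA
  have hvv : BM (vv A) := bm_vv hA
  have hDB : BM D := hD.inv.1
  -- the correlations for an invariant set
  have corr : ∀ φ : X → ℝ, Inv01 S φ →
      m (fun x y _ => ∫ t, (φ (S.T x t) * io A (S.T x t)) * (φ (S.T y t) * io A (S.T y t)) ∂μ) =
        ∫ t, φ t * D t ^ 2 ∂μ ∧
      m (fun x _ z => ∫ t, (φ (S.T x t) * io A (S.T x t)) * (φ (S.T z t) * io A (S.T z t)) ∂μ) =
        ∫ t, φ t * D t ^ 2 ∂μ ∧
      ∫ t, φ t * D t ^ 2 ∂μ ≤
        m (fun _ y z => ∫ t, (φ (S.T y t) * io A (S.T y t)) *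
          (φ (S.T z t) * io A (S.T z t)) ∂μ) := by
    intro φ hφ
    have hf : BM (fun t => φ t * io A t) := bm_mul hφ.1.1 hio
    have hJ : IsJ S (fun t => φ t * io A t) (fun t => φ t * D t) := hJl3 φ (io A) D hio hφ.1 hD
    obtain ⟨p1, p2, p3⟩ := hPP _ _ _ _ hf hf hJ hJ
    have e1 : ∫ t, (φ t * D t) * (φ t * D t) ∂μ = ∫ t, φ t * D t ^ 2 ∂μ := by
      apply integral_congr_ae
      refine Eventually.of_forall fun t => ?_
      show (φ t * D t) * (φ t * D t) = φ t * D t ^ 2
      rcases hφ.2 t with h | h <;> rw [h] <;> ring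
    have e2 : ∫ t, (φ t * D t) ^ 2 ∂μ = ∫ t, φ t * D t ^ 2 ∂μ := by
      apply integral_congr_ae
      refine Eventually.of_forall fun t => ?_
      show (φ t * D t) ^ 2 = φ t * D t ^ 2
      rcases hφ.2 t with h | h <;> rw [h] <;> ring
    rw [e1] at p1 p2
    rw [e2] at p3
    exact ⟨p1, p2, p3⟩
  -- boundedness of the pair functions
  have b12 : ∀ f : X → ℝ, BM f → B3 (fun x y _ => ∫ t, f (S.T x t) * f (S.T y t) ∂μ) := by
    intro f hf
    have h := b3_int S hf hf (bm_const (X := X) 1)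
    simpa only [mul_one] using h
  have b13 : ∀ f : X → ℝ, BM f → B3 (fun x _ z => ∫ t, f (S.T x t) * f (S.T z t) ∂μ) := by
    intro f hf
    have h := b3_int S hf (bm_const (X := X) 1) hf
    simpa only [one_mul] using h
  have b23 : ∀ f : X → ℝ, BM f → B3 (fun _ y z => ∫ t, f (S.T y t) * f (S.T z t) ∂μ) := by
    intro f hf
    have h := b3_int S (bm_const (X := X) 1) hf hf
    simpa only [one_mul] using h
  have one : ∀ φ : X → ℝ, Inv01 S φ → ∀ x, 0 < x →
      ∫ t, φ t * io A (S.T x t) ∂μ = ∫ t, φ t * D t ∂μ := fun φ hφ x hx =>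
    (hJl4 (io A) D x hx hio hD).int φ hφ.1
  refine ⟨?_, ?_⟩
  · -- first clause
    have hH : InvF S (fun t => e t + ((-3) * D t + 6 * (D t * D t))) :=
      inv_add he.inv (inv_add (inv_mul (inv_const S (-3)) hD.inv)
        (inv_mul (inv_const S 6) (inv_mul hD.inv hD.inv)))
    have key : ∀ φ : X → ℝ, Inv01 S φ →
        ∫ t, φ t * (e t + ((-3) * D t + 6 * (D t * D t))) ∂μ ≤ 0 := by
      intro φ hφ
      obtain ⟨p1, p2, p3⟩ := corr φ hφ
      have hf : BM (fun t => φ t * io A t) := bm_mul hφ.1.1 hio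
      have hG : BM (fun t => φ t * vv A t) := bm_mul hφ.1.1 hvv
      have hVB : BM V := ⟨hV.meas, 1, hV.le⟩
      have v1 := hV.eq _ hG
      -- the triples
      have v2 : m (fun x y z => ∫ t, (φ (S.T x t) * vv A (S.T x t)) *
          (vv A (S.T y t) * vv A (S.T z t)) ∂μ) =
          m (fun x y z => ((∫ t, φ t ∂μ) + (-6) * ∫ t, φ t * D t ∂μ) +
            (4 * (∫ t, (φ (S.T x t) * io A (S.T x t)) * (φ (S.T y t) * io A (S.T y t)) ∂μ) +
            (4 * (∫ t, (φ (S.T x t) * io A (S.T x t)) * (φ (S.T z t) * io A (S.T z t)) ∂μ) +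
            4 * (∫ t, (φ (S.T y t) * io A (S.T y t)) * (φ (S.T z t) * io A (S.T z t)) ∂μ)))) := by
        apply m_congr hm (b3_int S hG hvv hvv)
        · exact B3.add' (B3.const' _) (B3.add' (B3.smul' 4 (b12 _ hf))
            (B3.add' (B3.smul' 4 (b13 _ hf)) (B3.smul' 4 (b23 _ hf))))
        · intro x y z hp
          obtain ⟨hx, hy, hz, hxyz⟩ := hp
          rw [pair S hφ hx hy, pair S hφ hx hz, pair S hφ hy hz]
          have o1 := one φ hφ x hx
          have o2 := one φ hφ y hy
          have o3 := one φ hφ z hz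
          have e0 : ((∫ t, φ t ∂μ) + (-6) * ∫ t, φ t * D t ∂μ) =
              (∫ t, φ t ∂μ) + ((-2) * (∫ t, φ t * io A (S.T x t) ∂μ) +
                ((-2) * (∫ t, φ t * io A (S.T y t) ∂μ) +
                (-2) * (∫ t, φ t * io A (S.T z t) ∂μ))) := by
            rw [o1, o2, o3]; ring
          rw [e0]
          have i0 : BM φ := hφ.1.1
          have i1 : BM (fun t => (-2) * (φ t * io A (S.T x t))) :=
            bm_mul (bm_const (-2)) (bm_mul i0 (bm_comp S hio x))
          have i2 : BM (fun t => (-2) * (φ t * io A (S.T y t))) :=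
            bm_mul (bm_const (-2)) (bm_mul i0 (bm_comp S hio y))
          have i3 : BM (fun t => (-2) * (φ t * io A (S.T z t))) :=
            bm_mul (bm_const (-2)) (bm_mul i0 (bm_comp S hio z))
          have j1 : BM (fun t => 4 * (φ t * (io A (S.T x t) * io A (S.T y t)))) :=
            bm_mul (bm_const 4) (bm_mul i0 (bm_mul (bm_comp S hio x) (bm_comp S hio y)))
          have j2 : BM (fun t => 4 * (φ t * (io A (S.T x t) * io A (S.T z t)))) :=
            bm_mul (bm_const 4) (bm_mul i0 (bm_mul (bm_comp S hio x) (bm_comp S hio z)))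
          have j3 : BM (fun t => 4 * (φ t * (io A (S.T y t) * io A (S.T z t)))) :=
            bm_mul (bm_const 4) (bm_mul i0 (bm_mul (bm_comp S hio y) (bm_comp S hio z)))
          rw [← integral_const_mul, ← integral_const_mul, ← integral_const_mul,
            ← integral_const_mul, ← integral_const_mul, ← integral_const_mul,
            ← integral_add (bm_int i2) (bm_int i3),
            ← integral_add (bm_int i1) (bm_int (bm_add i2 i3)),
            ← integral_add (bm_int i0) (bm_int (bm_add i1 (bm_add i2 i3))),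
            ← integral_add (bm_int j2) (bm_int j3),
            ← integral_add (bm_int j1) (bm_int (bm_add j2 j3)),
            ← integral_add (bm_int (bm_add i0 (bm_add i1 (bm_add i2 i3))))
              (bm_int (bm_add j1 (bm_add j2 j3)))]
          apply integral_congr_ae
          filter_upwards [hPF x y z hx hy hz hxyz, hφ.1.2 x hx] with t ht h1
          have h1' : φ (S.T x t) = φ t := h1
          rw [h1']
          have h3 : io A (S.T x t) * io A (S.T y t) * io A (S.T z t) = 0 := by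
            by_contra hne
            have a1 : io A (S.T x t) ≠ 0 := fun h => hne (by rw [h]; ring)
            have a2 : io A (S.T y t) ≠ 0 := fun h => hne (by rw [h]; ring)
            have a3 : io A (S.T z t) ≠ 0 := fun h => hne (by rw [h]; ring)
            exact ht ⟨io_mem a1, io_mem a2, io_mem a3⟩
          unfold vv
          linear_combination (-8) * φ t * h3
      rw [v1] at v2
      rw [hm.add _ _ (B3.const' _) (B3.add' (B3.smul' 4 (b12 _ hf))
            (B3.add' (B3.smul' 4 (b13 _ hf)) (B3.smul' 4 (b23 _ hf)))),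
        hm.add _ _ (B3.smul' 4 (b12 _ hf))
            (B3.add' (B3.smul' 4 (b13 _ hf)) (B3.smul' 4 (b23 _ hf))),
        hm.add _ _ (B3.smul' 4 (b13 _ hf)) (B3.smul' 4 (b23 _ hf)),
        hm.smul 4 _ (b12 _ hf), hm.smul 4 _ (b13 _ hf), hm.smul 4 _ (b23 _ hf), m_const hm,
        p1, p2] at v2
      -- the integral of e
      have e1 := he.int φ hφ.1
      have e2 : ∫ t, φ t * ((1 - vv A t * V t) / 2) ∂μ =
          (1 / 2) * (∫ t, φ t ∂μ) + (-1 / 2) * ∫ t, (φ t * vv A t) * V t ∂μ := by
        rw [← integral_const_mul, ← integral_const_mul,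
          ← integral_add (bm_int (bm_mul (bm_const _) hφ.1.1))
            (bm_int (bm_mul (bm_const _) (bm_mul hG hVB)))]
        apply integral_congr_ae
        refine Eventually.of_forall fun t => ?_
        show φ t * ((1 - vv A t * V t) / 2) = 1 / 2 * φ t + -1 / 2 * (φ t * vv A t * V t)
        ring
      have e3 : ∫ t, φ t * (e t + ((-3) * D t + 6 * (D t * D t))) ∂μ =
          (∫ t, φ t * e t ∂μ) + ((-3) * (∫ t, φ t * D t ∂μ) + 6 * ∫ t, φ t * D t ^ 2 ∂μ) := by
        have k1 : BM (fun t => φ t * e t) := bm_mul hφ.1.1 he.inv.1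
        have k2 : BM (fun t => (-3) * (φ t * D t)) := bm_mul (bm_const _) (bm_mul hφ.1.1 hDB)
        have k3' : BM (fun t => 6 * (φ t * (D t * D t))) :=
          bm_mul (bm_const _) (bm_mul hφ.1.1 (bm_mul hDB hDB))
        have k3 : BM (fun t => 6 * (φ t * D t ^ 2)) := by
          have : (fun t => 6 * (φ t * D t ^ 2)) = fun t => 6 * (φ t * (D t * D t)) := by
            funext t; ring
          rw [this]; exact k3'
        rw [← integral_const_mul, ← integral_const_mul, ← integral_add (bm_int k2) (bm_int k3),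
          ← integral_add (bm_int k1) (bm_int (bm_add k2 k3))]
        apply integral_congr_ae
        refine Eventually.of_forall fun t => ?_
        show φ t * (e t + ((-3) * D t + 6 * (D t * D t))) =
          φ t * e t + ((-3) * (φ t * D t) + 6 * (φ t * D t ^ 2))
        ring
      rw [e3, ← e1, e2]
      linarith
    have h := nonpos S hH key
    filter_upwards [h] with t ht
    have : e t + ((-3) * D t + 6 * (D t * D t)) ≤ 0 := ht
    nlinarith
  · -- second clause
    intro φ hφ
    obtain ⟨p1, p2, p3⟩ := corr φ hφ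
    have hf : BM (fun t => φ t * io A t) := bm_mul hφ.1.1 hio
    have v1 := hV.eq _ hf
    have v2 : m (fun x y z => ∫ t, (φ (S.T x t) * io A (S.T x t)) *
        (vv A (S.T y t) * vv A (S.T z t)) ∂μ) =
        m (fun x y z => (∫ t, φ t * D t ∂μ) +
          ((-2) * (∫ t, (φ (S.T x t) * io A (S.T x t)) * (φ (S.T y t) * io A (S.T y t)) ∂μ) +
          (-2) * (∫ t, (φ (S.T x t) * io A (S.T x t)) *
            (φ (S.T z t) * io A (S.T z t)) ∂μ))) := by
      apply m_congr hm (b3_int S hf hvv hvv)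
      · exact B3.add' (B3.const' _) (B3.add' (B3.smul' (-2) (b12 _ hf)) (B3.smul' (-2) (b13 _ hf)))
      · intro x y z hp
        obtain ⟨hx, hy, hz, hxyz⟩ := hp
        rw [pair S hφ hx hy, pair S hφ hx hz, ← one φ hφ x hx]
        have i0 : BM φ := hφ.1.1
        have i1 : BM (fun t => φ t * io A (S.T x t)) := bm_mul i0 (bm_comp S hio x)
        have j1 : BM (fun t => (-2) * (φ t * (io A (S.T x t) * io A (S.T y t)))) :=
          bm_mul (bm_const (-2)) (bm_mul i0 (bm_mul (bm_comp S hio x) (bm_comp S hio y)))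
        have j2 : BM (fun t => (-2) * (φ t * (io A (S.T x t) * io A (S.T z t)))) :=
          bm_mul (bm_const (-2)) (bm_mul i0 (bm_mul (bm_comp S hio x) (bm_comp S hio z)))
        rw [← integral_const_mul, ← integral_const_mul, ← integral_add (bm_int j1) (bm_int j2),
          ← integral_add (bm_int i1) (bm_int (bm_add j1 j2))]
        apply integral_congr_ae
        filter_upwards [hPF x y z hx hy hz hxyz, hφ.1.2 x hx] with t ht h1
        have h1' : φ (S.T x t) = φ t := h1
        rw [h1']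
        have h3 : io A (S.T x t) * io A (S.T y t) * io A (S.T z t) = 0 := by
          by_contra hne
          have a1 : io A (S.T x t) ≠ 0 := fun h => hne (by rw [h]; ring)
          have a2 : io A (S.T y t) ≠ 0 := fun h => hne (by rw [h]; ring)
          have a3 : io A (S.T z t) ≠ 0 := fun h => hne (by rw [h]; ring)
          exact ht ⟨io_mem a1, io_mem a2, io_mem a3⟩
        unfold vv
        linear_combination 4 * φ t * h3
    rw [v1, hm.add _ _ (B3.const' _) (B3.add' (B3.smul' (-2) (b12 _ hf))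
        (B3.smul' (-2) (b13 _ hf))),
      hm.add _ _ (B3.smul' (-2) (b12 _ hf)) (B3.smul' (-2) (b13 _ hf)),
      hm.smul (-2) _ (b12 _ hf), hm.smul (-2) _ (b13 _ hf), m_const hm, p1, p2] at v2
    have e1 : ∫ t, φ t * (io A t * V t) ∂μ = ∫ t, (φ t * io A t) * V t ∂μ := by
      apply integral_congr_ae
      refine Eventually.of_forall fun t => ?_
      show φ t * (io A t * V t) = (φ t * io A t) * V t
      ring
    have k2 : BM (fun t => φ t * D t) := bm_mul hφ.1.1 hDB
    have k3 : BM (fun t => (-4) * (φ t * D t ^ 2)) := by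
      have h : BM (fun t => (-4) * (φ t * (D t * D t))) :=
        bm_mul (bm_const _) (bm_mul hφ.1.1 (bm_mul hDB hDB))
      have e : (fun t => (-4) * (φ t * D t ^ 2)) = fun t => (-4) * (φ t * (D t * D t)) := by
        funext t; ring
      rw [e]; exact h
    have e2 : ∫ t, φ t * (D t - 4 * D t ^ 2) ∂μ =
        (∫ t, φ t * D t ∂μ) + (-4) * ∫ t, φ t * D t ^ 2 ∂μ := by
      rw [← integral_const_mul, ← integral_add (bm_int k2) (bm_int k3)]
      apply integral_congr_ae
      refine Eventually.of_forall fun t => ?_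
      show φ t * (D t - 4 * D t ^ 2) = φ t * D t + (-4) * (φ t * D t ^ 2)
      ring
    rw [e2]
    refine e1.trans ?_
    rw [v2]
    ring

end Pool.Agent.F0f91f8.SV
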