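import Pool.Agent.Work.MP_0f91f8_co.SV.Stmts
import Pool.Agent.Work.MP_0f91f8_co.SC.I_Jl

/-!
# MP_0f91f8_co, block SV, item Gr: the grid of nine points (helper79)
-/

set_option autoImplicit false

noncomputable section

namespace Pool.Agent.F0f91f8.SV

open Filter Topology ComplexConjugate MeasureTheory
open Pool.Agent.F0f91f8.HD Pool.Agent.F0f91f8.RC Pool.Agent.F0f91f8.KR Pool.Agent.F0f91f8.FC
open Pool.Agent.F0f91f8.PC
open Pool.Agent.F0f91f8.SC (BM InvF IsJ vv PF RA)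
open Pool.Agent.F0f91f8.BH (PT Cert)
open scoped BigOperators

namespace XGr

open Pool.Agent.F0f91f8.SC.IJl (bm_int bm_mul bm_lin bm_const)

/-! ## The mean -/

theorem m_congr {m : (ℕ → ℕ → ℕ → ℝ) → ℝ} (hm : TM m) {φ ψ : ℕ → ℕ → ℕ → ℝ} (hφ : B3 φ) (hψ : B3 ψ)
    (h : ∀ x y z, PT x y z → φ x y z = ψ x y z) : m φ = m ψ :=
  le_antisymm (hm.mono φ ψ hφ hψ fun x y z ht => (h x y z ht).le)
    (hm.mono ψ φ hψ hφ fun x y z ht => (h x y z ht).ge)

theorem b3_const (c : ℝ) : B3 fun _ _ _ => c := ⟨|c|, fun _ _ _ => le_rfl⟩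

theorem m_const {m : (ℕ → ℕ → ℕ → ℝ) → ℝ} (hm : TM m) (c : ℝ) : m (fun _ _ _ => c) = c := by
  have h := hm.smul c (fun _ _ _ => 1) (b3_const 1)
  rw [hm.one, mul_one] at h
  simpa using h

theorem b3_lin {φ ψ : ℕ → ℕ → ℕ → ℝ} (a b : ℝ) (hφ : B3 φ) (hψ : B3 ψ) :
    B3 fun x y z => a * φ x y z + b * ψ x y z := by
  obtain ⟨C, hC⟩ := hφ
  obtain ⟨D, hD⟩ := hψ
  refine ⟨|a| * C + |b| * D, fun x y z => ?_⟩
  refine (abs_add_le _ _).trans ?_
  rw [abs_mul, abs_mul]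
  exact add_le_add (mul_le_mul_of_nonneg_left (hC x y z) (abs_nonneg _))
    (mul_le_mul_of_nonneg_left (hD x y z) (abs_nonneg _))

theorem b3_smul {φ : ℕ → ℕ → ℕ → ℝ} (a : ℝ) (hφ : B3 φ) : B3 fun x y z => a * φ x y z := by
  have h := b3_lin a 0 hφ hφ
  simpa using h

theorem m_lin {m : (ℕ → ℕ → ℕ → ℝ) → ℝ} (hm : TM m) {φ ψ : ℕ → ℕ → ℕ → ℝ} (a b : ℝ) (hφ : B3 φ)
    (hψ : B3 ψ) : m (fun x y z => a * φ x y z + b * ψ x y z) = a * m φ + b * m ψ := by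
  rw [hm.add _ _ (b3_smul a hφ) (b3_smul b hψ), hm.smul a φ hφ, hm.smul b ψ hψ]

section
variable {X : Type} [MeasurableSpace X] {μ : Measure X}

theorem b3_int [IsProbabilityMeasure μ] (F : ℕ → ℕ → ℕ → X → ℝ) (C : ℝ)
    (h : ∀ x y z t, |F x y z t| ≤ C) : B3 fun x y z => ∫ t, F x y z t ∂μ := by
  refine ⟨C, fun x y z => ?_⟩
  have h1 := norm_integral_le_of_norm_le_const (μ := μ) (f := F x y z) (C := C)
    (Eventually.of_forall fun t => by rw [Real.norm_eq_abs]; exact h x y z t)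
  rw [Real.norm_eq_abs] at h1
  refine h1.trans (le_of_eq ?_)
  simp

/-! ## Functions -/

theorem bm_comp {f : X → ℝ} (hf : BM f) (e : X ≃ᵐ X) : BM fun t => f (e t) := by
  obtain ⟨h1, C, h2⟩ := hf
  exact ⟨h1.comp e.measurable, C, fun t => h2 _⟩

theorem bm_w {w : X → ℝ} (hw : Measurable w) (h : ∀ x, w x = 1 ∨ w x = -1) : BM w := by
  refine ⟨hw, 1, fun t => ?_⟩
  rcases h t with h1 | h1 <;> rw [h1] <;> norm_num

theorem abs_w {w : X → ℝ} (h : ∀ x, w x = 1 ∨ w x = -1) (t : X) : |w t| ≤ 1 := by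
  rcases h t with h1 | h1 <;> rw [h1] <;> norm_num

theorem ic (S : Sys μ) {n : ℕ} (hn : 0 < n) (φ : X → ℝ) : ∫ t, φ (S.T n t) ∂μ = ∫ t, φ t ∂μ :=
  (S.mp n hn).integral_comp' φ

theorem tc (S : Sys μ) {a b : ℕ} (ha : 0 < a) (hb : 0 < b) (t : X) :
    S.T a (S.T b t) = S.T b (S.T a t) := by
  rw [← S.mul a b ha hb, ← S.mul b a hb ha, mul_comm]

theorem ts (S : Sys μ) {a b : ℕ} (ha : 0 < a) (hb : 0 < b) (t : X) :
    (S.T a).symm (S.T b (S.T a t)) = S.T b t := by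
  rw [tc S hb ha]
  exact (S.T a).symm_apply_apply _

theorem int4 [IsProbabilityMeasure μ] {f1 f2 f3 f4 : X → ℝ} (h1 : BM f1) (h2 : BM f2)
    (h3 : BM f3) (h4 : BM f4) : (∫ t, f1 t ∂μ) + (∫ t, f2 t ∂μ) + (∫ t, f3 t ∂μ) +
    (∫ t, f4 t ∂μ) = ∫ t, (f1 t + f2 t + f3 t + f4 t) ∂μ := by
  have h12 : BM fun t => f1 t + f2 t := by
    have := bm_lin 1 1 h1 h2
    simpa using this
  have h123 : BM fun t => f1 t + f2 t + f3 t := by
    have := bm_lin 1 1 h12 h3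
    simpa using this
  have e1 : ∫ t, (f1 t + f2 t) ∂μ = (∫ t, f1 t ∂μ) + ∫ t, f2 t ∂μ :=
    integral_add (bm_int h1) (bm_int h2)
  have e2 : ∫ t, (f1 t + f2 t + f3 t) ∂μ = (∫ t, (f1 t + f2 t) ∂μ) + ∫ t, f3 t ∂μ :=
    integral_add (bm_int h12) (bm_int h3)
  have e3 : ∫ t, (f1 t + f2 t + f3 t + f4 t) ∂μ = (∫ t, (f1 t + f2 t + f3 t) ∂μ) +
      ∫ t, f4 t ∂μ := integral_add (bm_int h123) (bm_int h4)
  rw [e3, e2, e1]

theorem int2 [IsProbabilityMeasure μ] {f g : X → ℝ} (hf : BM f) (hg : BM g) :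
    (∫ t, f t ∂μ) - (∫ t, g t ∂μ) = ∫ t, (f t - g t) ∂μ :=
  (integral_sub (bm_int hf) (bm_int hg)).symm

/-- the function `r` of a triple -/
def rr (S : Sys μ) (w : X → ℝ) (x y z : ℕ) (t : X) : ℝ :=
  (1 - w (S.T x t) * (w (S.T y t) * w (S.T z t))) / 2

/-- the vote of a triple -/
def vt (S : Sys μ) (w : X → ℝ) (x y z : ℕ) (t : X) : ℝ :=
  w (S.T y ((S.T x).symm t)) * w (S.T z ((S.T x).symm t))

theorem bm_rr (S : Sys μ) {w : X → ℝ} (hw : BM w) (x y z : ℕ) : BM (rr S w x y z) := by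
  have h1 : BM fun t => w (S.T x t) * (w (S.T y t) * w (S.T z t)) :=
    bm_mul (bm_comp hw _) (bm_mul (bm_comp hw _) (bm_comp hw _))
  have h2 := bm_lin (1 / 2) (-1 / 2) (bm_const (X := X) 1) h1
  have h3 : rr S w x y z = fun t => 1 / 2 * (1 : ℝ) + -1 / 2 *
      (w (S.T x t) * (w (S.T y t) * w (S.T z t))) := by
    funext t
    unfold rr
    ring
  rw [h3]
  exact h2

theorem bm_vt (S : Sys μ) {w : X → ℝ} (hw : BM w) (x y z : ℕ) : BM (vt S w x y z) :=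
  bm_mul (bm_comp (bm_comp hw (S.T y)) (S.T x).symm) (bm_comp (bm_comp hw (S.T z)) (S.T x).symm)

theorem rr_range (S : Sys μ) {w : X → ℝ} (h : ∀ x, w x = 1 ∨ w x = -1) (x y z : ℕ) (t : X) :
    0 ≤ rr S w x y z t ∧ rr S w x y z t ≤ 1 := by
  unfold rr
  rcases h (S.T x t) with h1 | h1 <;> rcases h (S.T y t) with h2 | h2 <;>
    rcases h (S.T z t) with h3 | h3 <;> rw [h1, h2, h3] <;> norm_num

/-- signs -/
theorem four {a b c d : ℝ} (ha : a = 1 ∨ a = -1) (hb : b = 1 ∨ b = -1) (hc : c = 1 ∨ c = -1)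
    (hd : d = 1 ∨ d = -1) : 1 - a * b * c * d ≤ (1 - a) + (1 - b) + (1 - c) + (1 - d) := by
  rcases ha with h | h <;> rcases hb with h' | h' <;> rcases hc with h'' | h'' <;>
    rcases hd with h''' | h''' <;> rw [h, h', h'', h'''] <;> norm_num

theorem sq1 {a : ℝ} (ha : a = 1 ∨ a = -1) : a * a = 1 := by
  rcases ha with h | h <;> rw [h] <;> norm_num

theorem sg3 {a b c : ℝ} (ha : a = 1 ∨ a = -1) (hb : b = 1 ∨ b = -1) (hc : c = 1 ∨ c = -1) :
    a * (b * c) = 1 ∨ a * (b * c) = -1 := by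
  rcases ha with h | h <;> rcases hb with h' | h' <;> rcases hc with h'' | h'' <;>
    rw [h, h', h''] <;> norm_num

/-- the pointwise inequality of the grid -/
theorem grid (S : Sys μ) {w : X → ℝ} (h : ∀ x, w x = 1 ∨ w x = -1) {x y z x' y' z' : ℕ}
    (hx : 0 < x) (hy : 0 < y) (hz : 0 < z) (hx' : 0 < x') (hy' : 0 < y') (hz' : 0 < z') (s : X) :
    1 - w (S.T y (S.T x' s)) * w (S.T z (S.T x' s)) *
        (w (S.T y' (S.T x s)) * w (S.T z' (S.T x s))) ≤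
      2 * (rr S w x y z (S.T y' s) + rr S w x y z (S.T z' s) + rr S w x' y' z' (S.T y s) +
        rr S w x' y' z' (S.T z s)) := by
  have h1 := four (sg3 (h (S.T x (S.T y' s))) (h (S.T y (S.T y' s))) (h (S.T z (S.T y' s))))
    (sg3 (h (S.T x (S.T z' s))) (h (S.T y (S.T z' s))) (h (S.T z (S.T z' s))))
    (sg3 (h (S.T x' (S.T y s))) (h (S.T y' (S.T y s))) (h (S.T z' (S.T y s))))
    (sg3 (h (S.T x' (S.T z s))) (h (S.T y' (S.T z s))) (h (S.T z' (S.T z s))))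
  have e1 : w (S.T x (S.T y' s)) * (w (S.T y (S.T y' s)) * w (S.T z (S.T y' s))) *
      (w (S.T x (S.T z' s)) * (w (S.T y (S.T z' s)) * w (S.T z (S.T z' s)))) *
      (w (S.T x' (S.T y s)) * (w (S.T y' (S.T y s)) * w (S.T z' (S.T y s)))) *
      (w (S.T x' (S.T z s)) * (w (S.T y' (S.T z s)) * w (S.T z' (S.T z s)))) =
      w (S.T y (S.T x' s)) * w (S.T z (S.T x' s)) *
        (w (S.T y' (S.T x s)) * w (S.T z' (S.T x s))) := by
    rw [tc S hy' hy, tc S hz' hy, tc S hy' hz, tc S hz' hz, tc S hx' hy, tc S hx' hz,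
      tc S hx hy', tc S hx hz']
    have q1 := sq1 (h (S.T y (S.T y' s)))
    have q2 := sq1 (h (S.T z (S.T y' s)))
    have q3 := sq1 (h (S.T y (S.T z' s)))
    have q4 := sq1 (h (S.T z (S.T z' s)))
    calc _ = w (S.T y (S.T x' s)) * w (S.T z (S.T x' s)) *
        (w (S.T y' (S.T x s)) * w (S.T z' (S.T x s))) *
        ((w (S.T y (S.T y' s)) * w (S.T y (S.T y' s))) *
          (w (S.T z (S.T y' s)) * w (S.T z (S.T y' s))) *
          (w (S.T y (S.T z' s)) * w (S.T y (S.T z' s))) *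
          (w (S.T z (S.T z' s)) * w (S.T z (S.T z' s)))) := by ring
      _ = _ := by rw [q1, q2, q3, q4]; ring
  rw [e1] at h1
  unfold rr
  linarith

/-- the inequality of the grid, integrated -/
theorem gridI [IsProbabilityMeasure μ] (S : Sys μ) {w : X → ℝ} (hw : BM w)
    (h : ∀ x, w x = 1 ∨ w x = -1) {G : X → ℝ} (hG : BM G) (hG0 : ∀ t, 0 ≤ G t)
    {x y z x' y' z' : ℕ}
    (hx : 0 < x) (hy : 0 < y) (hz : 0 < z) (hx' : 0 < x') (hy' : 0 < y') (hz' : 0 < z') :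
    ∫ t, G t ∂μ - ∫ t, (fun u => G u * vt S w x y z u) (S.T x' t) *
        (w (S.T y' t) * w (S.T z' t)) ∂μ ≤
      2 * ((∫ t, (fun u => G (S.T x u)) (S.T x' t) * rr S w x y z (S.T y' t) ∂μ) +
        (∫ t, (fun u => G (S.T x u)) (S.T x' t) * rr S w x y z (S.T z' t) ∂μ) +
        (∫ t, G (S.T x (S.T x' t)) * rr S w x' y' z' (S.T y t) ∂μ) +
        ∫ t, G (S.T x (S.T x' t)) * rr S w x' y' z' (S.T z t) ∂μ) := by
  have e1 : ∫ t, G t ∂μ = ∫ t, G (S.T x (S.T x' t)) ∂μ := by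
    rw [ic S hx' (fun t => G (S.T x t)), ic S hx G]
  have e2 : ∫ t, (fun u => G u * vt S w x y z u) (S.T x' t) * (w (S.T y' t) * w (S.T z' t)) ∂μ =
      ∫ t, G (S.T x (S.T x' t)) * (w (S.T y (S.T x' t)) * w (S.T z (S.T x' t)) *
        (w (S.T y' (S.T x t)) * w (S.T z' (S.T x t)))) ∂μ := by
    rw [← ic S hx]
    refine integral_congr_ae (Eventually.of_forall fun t => ?_)
    show G (S.T x' (S.T x t)) * vt S w x y z (S.T x' (S.T x t)) *
      (w (S.T y' (S.T x t)) * w (S.T z' (S.T x t))) = _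
    unfold vt
    rw [ts S hx hx', tc S hx' hx]
    ring
  have i0 : BM fun t => G (S.T x (S.T x' t)) := bm_comp (bm_comp hG (S.T x)) (S.T x')
  have i1 : BM fun t => G (S.T x (S.T x' t)) * (w (S.T y (S.T x' t)) * w (S.T z (S.T x' t)) *
        (w (S.T y' (S.T x t)) * w (S.T z' (S.T x t)))) :=
    bm_mul i0 (bm_mul (bm_mul (bm_comp (bm_comp hw _) (S.T x')) (bm_comp (bm_comp hw _) (S.T x')))
      (bm_mul (bm_comp (bm_comp hw _) (S.T x)) (bm_comp (bm_comp hw _) (S.T x))))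
  have j1 : BM fun t => G (S.T x (S.T x' t)) * rr S w x y z (S.T y' t) :=
    bm_mul i0 (bm_comp (bm_rr S hw x y z) (S.T y'))
  have j2 : BM fun t => G (S.T x (S.T x' t)) * rr S w x y z (S.T z' t) :=
    bm_mul i0 (bm_comp (bm_rr S hw x y z) (S.T z'))
  have j3 : BM fun t => G (S.T x (S.T x' t)) * rr S w x' y' z' (S.T y t) :=
    bm_mul i0 (bm_comp (bm_rr S hw x' y' z') (S.T y))
  have j4 : BM fun t => G (S.T x (S.T x' t)) * rr S w x' y' z' (S.T z t) :=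
    bm_mul i0 (bm_comp (bm_rr S hw x' y' z') (S.T z))
  rw [e1, e2, int2 i0 i1]
  show _ ≤ 2 * ((∫ t, G (S.T x (S.T x' t)) * rr S w x y z (S.T y' t) ∂μ) +
        (∫ t, G (S.T x (S.T x' t)) * rr S w x y z (S.T z' t) ∂μ) +
        (∫ t, G (S.T x (S.T x' t)) * rr S w x' y' z' (S.T y t) ∂μ) +
        ∫ t, G (S.T x (S.T x' t)) * rr S w x' y' z' (S.T z t) ∂μ)
  rw [int4 j1 j2 j3 j4, ← integral_const_mul]
  have b1 : BM fun t => G (S.T x (S.T x' t)) - G (S.T x (S.T x' t)) *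
      (w (S.T y (S.T x' t)) * w (S.T z (S.T x' t)) *
        (w (S.T y' (S.T x t)) * w (S.T z' (S.T x t)))) := by
    have := bm_lin 1 (-1) i0 i1
    refine (congrArg BM ?_).mp this
    funext t
    ring
  have b2 : BM fun t => 2 * (G (S.T x (S.T x' t)) * rr S w x y z (S.T y' t) +
      G (S.T x (S.T x' t)) * rr S w x y z (S.T z' t) +
      G (S.T x (S.T x' t)) * rr S w x' y' z' (S.T y t) +
      G (S.T x (S.T x' t)) * rr S w x' y' z' (S.T z t)) := by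
    have := bm_lin 1 1 (bm_lin 2 2 j1 j2) (bm_lin 2 2 j3 j4)
    refine (congrArg BM ?_).mp this
    funext t
    ring
  refine integral_mono (bm_int b1) (bm_int b2) fun t => ?_
  show G (S.T x (S.T x' t)) - G (S.T x (S.T x' t)) *
      (w (S.T y (S.T x' t)) * w (S.T z (S.T x' t)) *
        (w (S.T y' (S.T x t)) * w (S.T z' (S.T x t)))) ≤
    2 * (G (S.T x (S.T x' t)) * rr S w x y z (S.T y' t) +
      G (S.T x (S.T x' t)) * rr S w x y z (S.T z' t) +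
      G (S.T x (S.T x' t)) * rr S w x' y' z' (S.T y t) +
      G (S.T x (S.T x' t)) * rr S w x' y' z' (S.T z t))
  have hg := mul_le_mul_of_nonneg_left (grid S h hx hy hz hx' hy' hz' t)
    (hG0 (S.T x (S.T x' t)))
  linarith

/-- the function `e₀` -/
def e0 (w V : X → ℝ) (t : X) : ℝ := (1 - w t * V t) / 2

/-- `∫ f e₀` -/
theorem int_e0 [IsProbabilityMeasure μ] {w V f : X → ℝ} (hw : BM w) (hV : BM V) (hf : BM f) :
    ∫ t, f t * e0 w V t ∂μ = (∫ t, f t ∂μ) / 2 - (∫ t, f t * w t * V t ∂μ) / 2 := by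
  rw [← integral_div, ← integral_div, ← integral_sub ((bm_int hf).div_const 2)
    ((bm_int (bm_mul (bm_mul hf hw) hV)).div_const 2)]
  refine integral_congr_ae (Eventually.of_forall fun t => ?_)
  show f t * ((1 - w t * V t) / 2) = f t / 2 - f t * w t * V t / 2
  ring

/-- `∫ f(T x) r` for the triple itself -/
theorem int_rr [IsProbabilityMeasure μ] (S : Sys μ) {w f : X → ℝ} (hw : BM w) (hf : BM f)
    {x : ℕ} (hx : 0 < x) (y z : ℕ) :
    ∫ t, f (S.T x t) * rr S w x y z t ∂μ = (∫ t, f t ∂μ) / 2 -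
      (∫ t, (fun u => f u * w u) (S.T x t) * (w (S.T y t) * w (S.T z t)) ∂μ) / 2 := by
  have i1 : BM fun t => (fun u => f u * w u) (S.T x t) * (w (S.T y t) * w (S.T z t)) :=
    bm_mul (bm_comp (bm_mul hf hw) (S.T x)) (bm_mul (bm_comp hw _) (bm_comp hw _))
  rw [← ic S hx f, ← integral_div, ← integral_div, ← integral_sub
    ((bm_int (bm_comp hf (S.T x))).div_const 2) ((bm_int i1).div_const 2)]
  refine integral_congr_ae (Eventually.of_forall fun t => ?_)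
  show f (S.T x t) * ((1 - w (S.T x t) * (w (S.T y t) * w (S.T z t))) / 2) =
    f (S.T x t) / 2 - f (S.T x t) * w (S.T x t) * (w (S.T y t) * w (S.T z t)) / 2
  ring

theorem b3_w [IsProbabilityMeasure μ] (S : Sys μ) {w G : X → ℝ} (hw : ∀ t, |w t| ≤ 1) (hG : BM G) :
    B3 fun x y z => ∫ t, G (S.T x t) * (w (S.T y t) * w (S.T z t)) ∂μ := by
  obtain ⟨-, C, hC⟩ := hG
  refine b3_int (fun x y z t => G (S.T x t) * (w (S.T y t) * w (S.T z t))) C fun x y z t => ?_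
  rw [abs_mul, abs_mul]
  have h1 : |w (S.T y t)| * |w (S.T z t)| ≤ 1 := mul_le_one₀ (hw _) (abs_nonneg _) (hw _)
  exact (mul_le_of_le_one_right (abs_nonneg _) h1).trans (hC _)

theorem b3_pp [IsProbabilityMeasure μ] (S : Sys μ) {f g : X → ℝ} (hf : BM f) (hg : BM g) :
    B3 (fun x y _ => ∫ t, f (S.T x t) * g (S.T y t) ∂μ) ∧
    B3 (fun x _ z => ∫ t, f (S.T x t) * g (S.T z t) ∂μ) := by
  obtain ⟨-, C, hC⟩ := hf
  obtain ⟨-, D, hD⟩ := hg
  have key : ∀ a b : X, |f a * g b| ≤ C * D := fun a b => by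
    rw [abs_mul]
    exact mul_le_mul (hC a) (hD b) (abs_nonneg _) ((abs_nonneg _).trans (hC a))
  exact ⟨b3_int (fun x y _ t => f (S.T x t) * g (S.T y t)) (C * D) fun _ _ _ _ => key _ _,
    b3_int (fun x _ z t => f (S.T x t) * g (S.T z t)) (C * D) fun _ _ _ _ => key _ _⟩

/-- the claim: `∫ G (1 - V²) ≤ 8 ∫ G e` -/
theorem claim (hJe : SC.StJe) (hJl : SC.StJl) [hμ : IsProbabilityMeasure μ] (S : Sys μ)
    (m : (ℕ → ℕ → ℕ → ℝ) → ℝ) (hm : TM m) (hPP : PP S m) (w V : X → ℝ) (hwm : Measurable w)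
    (hw1 : ∀ x, w x = 1 ∨ w x = -1) (hV : IsV S m w V) (e : X → ℝ)
    (he : IsJ S (fun t => (1 - w t * V t) / 2) e) (G : X → ℝ) (hG : BM G) (hG0 : ∀ t, 0 ≤ G t) :
    ∫ t, G t ∂μ - ∫ t, G t * V t * V t ∂μ ≤ 8 * ∫ t, e t * G t ∂μ := by
  have hw : BM w := bm_w hwm hw1
  have hwa : ∀ t, |w t| ≤ 1 := abs_w hw1
  have hVb : BM V := ⟨hV.meas, 1, hV.le⟩
  have he0 : BM (e0 w V) := by
    have h1 := bm_lin (1 / 2) (-1 / 2) (bm_const (X := X) 1) (bm_mul hw hVb)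
    have h2 : e0 w V = fun t => 1 / 2 * (1 : ℝ) + -1 / 2 * (w t * V t) := by
      funext t
      unfold e0
      ring
    rw [h2]
    exact h1
  have he' : IsJ S (e0 w V) e := he
  obtain ⟨JG, hJG, -⟩ := hJe X _ μ hμ S G hG
  obtain ⟨-, -, -, hJcomp⟩ := hJl X _ μ hμ S
  have hJGb : BM JG := hJG.inv.1
  -- the value of the four terms
  have hval : ∫ t, JG t * e t ∂μ = ∫ t, e t * G t ∂μ := by
    rw [hJG.int e he.inv]
    exact integral_congr_ae (Eventually.of_forall fun t => mul_comm _ _)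
  -- first and second term
  have hA : ∀ x y z, PT x y z →
      m (fun x' y' _ => ∫ t, (fun u => G (S.T x u)) (S.T x' t) * rr S w x y z (S.T y' t) ∂μ) =
        (∫ t, JG t ∂μ) / 2 -
          (∫ t, (fun u => JG u * w u) (S.T x t) * (w (S.T y t) * w (S.T z t)) ∂μ) / 2 ∧
      m (fun x' _ z' => ∫ t, (fun u => G (S.T x u)) (S.T x' t) * rr S w x y z (S.T z' t) ∂μ) =
        (∫ t, JG t ∂μ) / 2 -
          (∫ t, (fun u => JG u * w u) (S.T x t) * (w (S.T y t) * w (S.T z t)) ∂μ) / 2 := by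
    intro x y z ht
    obtain ⟨Jr, hJr, -⟩ := hJe X _ μ hμ S (rr S w x y z) (bm_rr S hw x y z)
    obtain ⟨p1, p2, -⟩ := hPP (fun u => G (S.T x u)) (rr S w x y z) JG Jr (bm_comp hG (S.T x))
      (bm_rr S hw x y z) (hJcomp G JG x ht.1 hG hJG) hJr
    have h1 : ∫ t, JG t * Jr t ∂μ = (∫ t, JG t ∂μ) / 2 -
          (∫ t, (fun u => JG u * w u) (S.T x t) * (w (S.T y t) * w (S.T z t)) ∂μ) / 2 := by
      rw [← hJr.int JG hJG.inv, ← int_rr S hw hJGb ht.1 y z]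
      refine integral_congr_ae ?_
      filter_upwards [hJG.inv.2 x ht.1] with t h1
      rw [← h1]
    rw [p1, p2]
    exact ⟨h1, h1⟩
  -- third and fourth term
  have hC : ∀ x y, 0 < x → 0 < y →
      m (fun x' y' z' => ∫ t, G (S.T x (S.T x' t)) * rr S w x' y' z' (S.T y t) ∂μ) =
        ∫ t, G (S.T x t) * e0 w V (S.T y t) ∂μ := by
    intro x y hx hy
    obtain ⟨G1, hG1d⟩ : ∃ G1 : X → ℝ, G1 = fun u => G (S.T x ((S.T y).symm u)) := ⟨_, rfl⟩
    have hG1 : BM G1 := by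
      rw [hG1d]
      exact bm_comp (bm_comp hG (S.T x)) (S.T y).symm
    have h1 : ∀ x' y' z', PT x' y' z' →
        ∫ t, G (S.T x (S.T x' t)) * rr S w x' y' z' (S.T y t) ∂μ =
        1 * ((∫ t, G1 t ∂μ) / 2) + -1 / 2 *
          ∫ t, (fun u => G1 u * w u) (S.T x' t) * (w (S.T y' t) * w (S.T z' t)) ∂μ := by
      intro x' y' z' ht'
      have h2 : ∫ t, G (S.T x (S.T x' t)) * rr S w x' y' z' (S.T y t) ∂μ =
          ∫ t, G1 (S.T x' t) * rr S w x' y' z' t ∂μ := by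
        rw [← ic S hy (fun t => G1 (S.T x' t) * rr S w x' y' z' t)]
        refine integral_congr_ae (Eventually.of_forall fun t => ?_)
        show G (S.T x (S.T x' t)) * rr S w x' y' z' (S.T y t) =
          G1 (S.T x' (S.T y t)) * rr S w x' y' z' (S.T y t)
        rw [hG1d]
        show G (S.T x (S.T x' t)) * rr S w x' y' z' (S.T y t) =
          G (S.T x ((S.T y).symm (S.T x' (S.T y t)))) * rr S w x' y' z' (S.T y t)
        rw [ts S hy ht'.1]
      rw [h2, int_rr S hw hG1 ht'.1 y' z']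
      ring
    have hB : B3 fun x' y' z' =>
        ∫ t, (fun u => G1 u * w u) (S.T x' t) * (w (S.T y' t) * w (S.T z' t)) ∂μ :=
      b3_w S hwa (bm_mul hG1 hw)
    have hB0 : B3 fun x' y' z' =>
        ∫ t, G (S.T x (S.T x' t)) * rr S w x' y' z' (S.T y t) ∂μ := by
      obtain ⟨-, C, hC⟩ := hG
      refine b3_int (fun x' y' z' t => G (S.T x (S.T x' t)) * rr S w x' y' z' (S.T y t)) C
        fun x' y' z' t => ?_
      rw [abs_mul]
      obtain ⟨r1, r2⟩ := rr_range S hw1 x' y' z' (S.T y t)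
      have h3 : |rr S w x' y' z' (S.T y t)| ≤ 1 := by rw [abs_of_nonneg r1]; exact r2
      exact (mul_le_of_le_one_right (abs_nonneg _) h3).trans (hC _)
    rw [m_congr hm hB0 (b3_lin 1 (-1 / 2) (b3_const ((∫ t, G1 t ∂μ) / 2)) hB) h1,
      m_lin hm 1 (-1 / 2) (b3_const _) hB, m_const hm, hV.eq _ (bm_mul hG1 hw)]
    have h4 : ∫ t, G (S.T x t) * e0 w V (S.T y t) ∂μ = ∫ t, G1 t * e0 w V t ∂μ := by
      rw [← ic S hy (fun t => G1 t * e0 w V t)]
      refine integral_congr_ae (Eventually.of_forall fun t => ?_)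
      show G (S.T x t) * e0 w V (S.T y t) = G1 (S.T y t) * e0 w V (S.T y t)
      rw [hG1d]
      show G (S.T x t) * e0 w V (S.T y t) =
        G (S.T x ((S.T y).symm (S.T y t))) * e0 w V (S.T y t)
      rw [(S.T y).symm_apply_apply]
    rw [h4, int_e0 hw hVb hG1]
    ring
  -- the inequality for one triple
  obtain ⟨H, hHd⟩ : ∃ H : ℕ → ℕ → ℕ → ℝ, H = fun x y z =>
    ∫ t, (fun u => JG u * w u) (S.T x t) * (w (S.T y t) * w (S.T z t)) ∂μ := ⟨_, rfl⟩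
  have hHB : B3 H := by
    rw [hHd]
    exact b3_w S hwa (bm_mul hJGb hw)
  have hone : ∀ x y z, PT x y z →
      ∫ t, G t ∂μ - ∫ t, (fun u => G u * V u) (S.T x t) * (w (S.T y t) * w (S.T z t)) ∂μ ≤
        2 * (((∫ t, JG t ∂μ) - H x y z) + (∫ t, G (S.T x t) * e0 w V (S.T y t) ∂μ) +
          ∫ t, G (S.T x t) * e0 w V (S.T z t) ∂μ) := by
    intro x y z ht
    have hvb : BM fun u => G u * vt S w x y z u := bm_mul hG (bm_vt S hw x y z)
    have h1 : ∫ t, (fun u => G u * V u) (S.T x t) * (w (S.T y t) * w (S.T z t)) ∂μ =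
        ∫ t, (G t * vt S w x y z t) * V t ∂μ := by
      rw [← ic S ht.1 (fun t => (G t * vt S w x y z t) * V t)]
      refine integral_congr_ae (Eventually.of_forall fun t => ?_)
      show G (S.T x t) * V (S.T x t) * (w (S.T y t) * w (S.T z t)) =
        G (S.T x t) * vt S w x y z (S.T x t) * V (S.T x t)
      unfold vt
      rw [(S.T x).symm_apply_apply]
      ring
    rw [h1, ← hV.eq _ hvb]
    obtain ⟨P0, hP0⟩ : ∃ P : ℕ → ℕ → ℕ → ℝ, P = fun x' y' z' =>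
      ∫ t, (fun u => G u * vt S w x y z u) (S.T x' t) * (w (S.T y' t) * w (S.T z' t)) ∂μ :=
      ⟨_, rfl⟩
    obtain ⟨P1, hP1⟩ : ∃ P : ℕ → ℕ → ℕ → ℝ, P = fun x' y' _ =>
      ∫ t, (fun u => G (S.T x u)) (S.T x' t) * rr S w x y z (S.T y' t) ∂μ := ⟨_, rfl⟩
    obtain ⟨P2, hP2⟩ : ∃ P : ℕ → ℕ → ℕ → ℝ, P = fun x' _ z' =>
      ∫ t, (fun u => G (S.T x u)) (S.T x' t) * rr S w x y z (S.T z' t) ∂μ := ⟨_, rfl⟩
    obtain ⟨P3, hP3⟩ : ∃ P : ℕ → ℕ → ℕ → ℝ, P = fun x' y' z' =>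
      ∫ t, G (S.T x (S.T x' t)) * rr S w x' y' z' (S.T y t) ∂μ := ⟨_, rfl⟩
    obtain ⟨P4, hP4⟩ : ∃ P : ℕ → ℕ → ℕ → ℝ, P = fun x' y' z' =>
      ∫ t, G (S.T x (S.T x' t)) * rr S w x' y' z' (S.T z t) ∂μ := ⟨_, rfl⟩
    have b0 : B3 P0 := by rw [hP0]; exact b3_w S hwa hvb
    have b1 : B3 P1 := by rw [hP1]; exact (b3_pp S (bm_comp hG (S.T x)) (bm_rr S hw x y z)).1
    have b2 : B3 P2 := by rw [hP2]; exact (b3_pp S (bm_comp hG (S.T x)) (bm_rr S hw x y z)).2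
    have b34 : ∀ y : ℕ, B3 fun x' y' z' =>
        ∫ t, G (S.T x (S.T x' t)) * rr S w x' y' z' (S.T y t) ∂μ := by
      intro y
      obtain ⟨-, C, hC⟩ := hG
      refine b3_int (fun x' y' z' t => G (S.T x (S.T x' t)) * rr S w x' y' z' (S.T y t)) C
        fun x' y' z' t => ?_
      rw [abs_mul]
      obtain ⟨r1, r2⟩ := rr_range S hw1 x' y' z' (S.T y t)
      have h3 : |rr S w x' y' z' (S.T y t)| ≤ 1 := by rw [abs_of_nonneg r1]; exact r2
      exact (mul_le_of_le_one_right (abs_nonneg _) h3).trans (hC _)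
    have b3 : B3 P3 := by rw [hP3]; exact b34 y
    have b4 : B3 P4 := by rw [hP4]; exact b34 z
    have hmono := hm.mono (fun x' y' z' => 1 * ∫ t, G t ∂μ + -1 * P0 x' y' z')
      (fun x' y' z' => 1 * (2 * P1 x' y' z' + 2 * P2 x' y' z') +
        1 * (2 * P3 x' y' z' + 2 * P4 x' y' z'))
      (b3_lin 1 (-1) (b3_const _) b0)
      (b3_lin 1 1 (b3_lin 2 2 b1 b2) (b3_lin 2 2 b3 b4)) (fun x' y' z' ht' => by
        have h5 := gridI S hw hw1 hG hG0 ht.1 ht.2.1 ht.2.2.1 ht'.1 ht'.2.1 ht'.2.2.1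
        rw [hP0, hP1, hP2, hP3, hP4]
        show 1 * ∫ t, G t ∂μ + -1 * (∫ t, (fun u => G u * vt S w x y z u) (S.T x' t) *
          (w (S.T y' t) * w (S.T z' t)) ∂μ) ≤ _
        linarith)
    rw [m_lin hm 1 (-1) (b3_const _) b0, m_const hm,
      m_lin hm 1 1 (b3_lin 2 2 b1 b2) (b3_lin 2 2 b3 b4), m_lin hm 2 2 b1 b2,
      m_lin hm 2 2 b3 b4] at hmono
    have v1 : m P1 = (∫ t, JG t ∂μ) / 2 - H x y z / 2 := by
      rw [hP1, hHd]
      exact (hA x y z ht).1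
    have v2 : m P2 = (∫ t, JG t ∂μ) / 2 - H x y z / 2 := by
      rw [hP2, hHd]
      exact (hA x y z ht).2
    have v3 : m P3 = ∫ t, G (S.T x t) * e0 w V (S.T y t) ∂μ := by
      rw [hP3]
      exact hC x y ht.1 ht.2.1
    have v4 : m P4 = ∫ t, G (S.T x t) * e0 w V (S.T z t) ∂μ := by
      rw [hP4]
      exact hC x z ht.1 ht.2.2.1
    rw [v1, v2, v3, v4] at hmono
    have v0 : m (fun x' y' z' => ∫ t, (fun u => G u * vt S w x y z u) (S.T x' t) *
        (w (S.T y' t) * w (S.T z' t)) ∂μ) = m P0 := by rw [hP0]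
    show ∫ t, G t ∂μ - m (fun x' y' z' => ∫ t, (fun u => G u * vt S w x y z u) (S.T x' t) *
        (w (S.T y' t) * w (S.T z' t)) ∂μ) ≤ _
    rw [v0]
    linarith
  -- the mean over all triples
  obtain ⟨Q0, hQ0⟩ : ∃ P : ℕ → ℕ → ℕ → ℝ, P = fun x y z =>
    ∫ t, (fun u => G u * V u) (S.T x t) * (w (S.T y t) * w (S.T z t)) ∂μ := ⟨_, rfl⟩
  obtain ⟨Q1, hQ1⟩ : ∃ P : ℕ → ℕ → ℕ → ℝ, P = fun x y _ =>
    ∫ t, G (S.T x t) * e0 w V (S.T y t) ∂μ := ⟨_, rfl⟩
  obtain ⟨Q2, hQ2⟩ : ∃ P : ℕ → ℕ → ℕ → ℝ, P = fun x _ z =>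
    ∫ t, G (S.T x t) * e0 w V (S.T z t) ∂μ := ⟨_, rfl⟩
  have c0 : B3 Q0 := by rw [hQ0]; exact b3_w S hwa (bm_mul hG hVb)
  have c1 : B3 Q1 := by rw [hQ1]; exact (b3_pp S hG he0).1
  have c2 : B3 Q2 := by rw [hQ2]; exact (b3_pp S hG he0).2
  have hmono := hm.mono (fun x y z => 1 * ∫ t, G t ∂μ + -1 * Q0 x y z)
    (fun x y z => 1 * (2 * (∫ t, JG t ∂μ) + -2 * H x y z) + 1 * (2 * Q1 x y z + 2 * Q2 x y z))
    (b3_lin 1 (-1) (b3_const _) c0)
    (b3_lin 1 1 (b3_lin 2 (-2) (b3_const _) hHB) (b3_lin 2 2 c1 c2)) (fun x y z ht => by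
      have h5 := hone x y z ht
      rw [hQ0, hQ1, hQ2]
      show 1 * ∫ t, G t ∂μ + -1 * (∫ t, (fun u => G u * V u) (S.T x t) *
          (w (S.T y t) * w (S.T z t)) ∂μ) ≤ _
      linarith)
  rw [m_lin hm 1 (-1) (b3_const _) c0, m_const hm,
    m_lin hm 1 1 (b3_lin 2 (-2) (b3_const _) hHB) (b3_lin 2 2 c1 c2),
    m_lin hm 2 (-2) (b3_const _) hHB, m_const hm, m_lin hm 2 2 c1 c2] at hmono
  have w0 : m Q0 = ∫ t, G t * V t * V t ∂μ := by
    rw [hQ0]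
    exact hV.eq _ (bm_mul hG hVb)
  have w1 : m H = ∫ t, JG t * w t * V t ∂μ := by
    rw [hHd]
    exact hV.eq _ (bm_mul hJGb hw)
  obtain ⟨p1, p2, -⟩ := hPP G (e0 w V) JG e hG he0 hJG he'
  have w2 : m Q1 = ∫ t, e t * G t ∂μ := by
    rw [hQ1, ← hval]
    exact p1
  have w3 : m Q2 = ∫ t, e t * G t ∂μ := by
    rw [hQ2, ← hval]
    exact p2
  have w4 : (∫ t, JG t ∂μ) / 2 - (∫ t, JG t * w t * V t ∂μ) / 2 = ∫ t, e t * G t ∂μ := by
    rw [← int_e0 hw hVb hJGb, he'.int JG hJG.inv, hval]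
  rw [w0, w1, w2, w3] at hmono
  linarith

end

end XGr

open XGr in
open Pool.Agent.F0f91f8.SC.IJl (bm_int bm_mul bm_lin bm_const) in
theorem pr_Gr (hJe : SC.StJe) (_hJm : SC.StJm) (hJl : SC.StJl) : StGr := by
  intro X _ μ hμ S m hm hPP w V hwm hw1 hV e he
  have hVb : BM V := ⟨hV.meas, 1, hV.le⟩
  have heb : BM e := he.inv.1
  obtain ⟨h, hh⟩ : ∃ h : X → ℝ, h = fun t => 1 - V t * V t - 8 * e t := ⟨_, rfl⟩
  have hhb : BM h := by
    have h1 := bm_lin 1 (-1) (bm_const (X := X) 1) (bm_mul hVb hVb)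
    have h2 := bm_lin 1 (-8) h1 heb
    have h3 : h = fun t => 1 * (1 * (1 : ℝ) + -1 * (V t * V t)) + -8 * e t := by
      rw [hh]
      funext t
      ring
    rw [h3]
    exact h2
  let G : X → ℝ := fun t => if 0 < h t then 1 else 0
  have hGm : Measurable G :=
    Measurable.ite (measurableSet_lt measurable_const hhb.1) measurable_const measurable_const
  have hG : BM G := ⟨hGm, 1, fun t => by
    show |if 0 < h t then (1 : ℝ) else 0| ≤ 1
    split_ifs <;> norm_num⟩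
  have hG0 : ∀ t, 0 ≤ G t := fun t => by
    show 0 ≤ if 0 < h t then (1 : ℝ) else 0
    split_ifs <;> norm_num
  have hcl := claim hJe hJl S m hm hPP w V hwm hw1 hV e he G hG hG0
  have hGh : BM fun t => G t * h t := bm_mul hG hhb
  have h1 : ∫ t, G t * h t ∂μ ≤ 0 := by
    have h2 : ∫ t, G t * h t ∂μ = ∫ t, G t ∂μ - ∫ t, G t * V t * V t ∂μ - 8 * ∫ t, e t * G t ∂μ := by
      have b1 : BM fun t => G t - G t * V t * V t := by
        have := bm_lin 1 (-1) hG (bm_mul (bm_mul hG hVb) hVb)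
        refine (congrArg BM ?_).mp this
        funext t
        ring
      have b2 : BM fun t => 8 * (e t * G t) := by
        have := bm_lin 8 0 (bm_mul heb hG) hG
        refine (congrArg BM ?_).mp this
        funext t
        ring
      rw [← integral_const_mul, int2 hG (bm_mul (bm_mul hG hVb) hVb), int2 b1 b2]
      refine integral_congr_ae (Eventually.of_forall fun t => ?_)
      show G t * h t = G t - G t * V t * V t - 8 * (e t * G t)
      rw [hh]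
      ring
    rw [h2]
    linarith
  have h3 : ∀ t, 0 ≤ G t * h t := fun t => by
    show 0 ≤ (if 0 < h t then (1 : ℝ) else 0) * h t
    split_ifs with h4
    · rw [one_mul]; exact h4.le
    · rw [zero_mul]
  have h4 : ∫ t, G t * h t ∂μ = 0 := le_antisymm h1 (integral_nonneg h3)
  have h5 := (integral_eq_zero_iff_of_nonneg h3 (bm_int hGh)).1 h4
  filter_upwards [h5] with t ht
  have h6 : (if 0 < h t then (1 : ℝ) else 0) * h t = 0 := ht
  have h7 : h t = 1 - V t * V t - 8 * e t := by rw [hh]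
  by_contra hc
  push Not at hc
  have h8 : 0 < h t := by rw [h7]; nlinarith
  rw [if_pos h8, one_mul] at h6
  linarith

end Pool.Agent.F0f91f8.SV
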