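import Pool.Agent.Work.MP_0f91f8_co.SV.Stmts

/-!
# MP_0f91f8_co, block SV, item Kn: the kernel lemma
-/

set_option autoImplicit false

noncomputable section

namespace Pool.Agent.F0f91f8.SV

open Filter Topology ComplexConjugate MeasureTheory
open Pool.Agent.F0f91f8.HD Pool.Agent.F0f91f8.RC Pool.Agent.F0f91f8.KR Pool.Agent.F0f91f8.FC
open Pool.Agent.F0f91f8.PC
open Pool.Agent.F0f91f8.SC (BM InvF IsJ vv PF RA)
open Pool.Agent.F0f91f8.BH (PT Cert)
open scoped BigOperators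

namespace XKn

variable {X : Type} [MeasurableSpace X]

theorem bm_const (c : ℝ) : BM (fun _ : X => c) := ⟨measurable_const, |c|, fun _ => le_rfl⟩

theorem bm_add {f g : X → ℝ} (hf : BM f) (hg : BM g) : BM (fun t => f t + g t) := by
  obtain ⟨hf1, C, hC⟩ := hf
  obtain ⟨hg1, D, hD⟩ := hg
  exact ⟨hf1.add hg1, C + D, fun t => (abs_add_le _ _).trans (add_le_add (hC t) (hD t))⟩

theorem bm_mul {f g : X → ℝ} (hf : BM f) (hg : BM g) : BM (fun t => f t * g t) := by
  obtain ⟨hf1, C, hC⟩ := hf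
  obtain ⟨hg1, D, hD⟩ := hg
  refine ⟨hf1.mul hg1, C * D, fun t => ?_⟩
  rw [abs_mul]
  exact mul_le_mul (hC t) (hD t) (abs_nonneg _) ((abs_nonneg _).trans (hC t))

theorem bm_sum {ι : Type} (s : Finset ι) (f : ι → X → ℝ) (h : ∀ i, BM (f i)) :
    BM (fun t => ∑ i ∈ s, f i t) := by
  classical
  induction s using Finset.induction with
  | empty =>
    simp only [Finset.sum_empty]
    exact bm_const 0
  | insert a s ha ih =>
    simp only [Finset.sum_insert ha]
    exact bm_add (h a) ih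

theorem bm_comp {μ : Measure X} (S : Sys μ) {f : X → ℝ} (hf : BM f) (n : ℕ) :
    BM (fun t => f (S.T n t)) := by
  obtain ⟨hf1, C, hC⟩ := hf
  exact ⟨hf1.comp (S.T n).measurable, C, fun t => hC _⟩

variable {μ : Measure X} [IsProbabilityMeasure μ]

theorem bm_int {f : X → ℝ} (hf : BM f) : Integrable f μ := by
  obtain ⟨hf1, C, hC⟩ := hf
  exact Integrable.of_bound hf1.aestronglyMeasurable C (ae_of_all _ fun t => by
    rw [Real.norm_eq_abs]; exact hC t)

theorem b3_int (F : ℕ → ℕ → ℕ → X → ℝ) (C : ℝ) (h : ∀ x y z t, |F x y z t| ≤ C) :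
    B3 (fun x y z => ∫ t, F x y z t ∂μ) := by
  refine ⟨C, fun x y z => ?_⟩
  have h1 := norm_integral_le_of_norm_le_const (μ := μ) (f := F x y z) (C := C)
    (ae_of_all _ fun t => by rw [Real.norm_eq_abs]; exact h x y z t)
  rw [Real.norm_eq_abs] at h1
  simpa using h1

/-- products at two points -/
theorem b3_pair (S : Sys μ) {f g : X → ℝ} (hf : BM f) (hg : BM g) (a b : ℕ → ℕ → ℕ → ℕ) :
    B3 (fun x y z => ∫ t, f (S.T (a x y z) t) * g (S.T (b x y z) t) ∂μ) := by
  obtain ⟨-, C, hC⟩ := hf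
  obtain ⟨-, D, hD⟩ := hg
  refine b3_int (fun x y z t => f (S.T (a x y z) t) * g (S.T (b x y z) t)) (C * D)
    fun x y z t => ?_
  rw [abs_mul]
  exact mul_le_mul (hC _) (hD _) (abs_nonneg _) ((abs_nonneg _).trans (hC (S.T (a x y z) t)))

theorem b3_smul (c : ℝ) {φ : ℕ → ℕ → ℕ → ℝ} (h : B3 φ) : B3 (fun x y z => c * φ x y z) := by
  obtain ⟨C, hC⟩ := h
  refine ⟨|c| * C, fun x y z => ?_⟩
  rw [abs_mul]
  exact mul_le_mul_of_nonneg_left (hC x y z) (abs_nonneg _)

theorem b3_add {φ ψ : ℕ → ℕ → ℕ → ℝ} (h : B3 φ) (h' : B3 ψ) :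
    B3 (fun x y z => φ x y z + ψ x y z) := by
  obtain ⟨C, hC⟩ := h
  obtain ⟨D, hD⟩ := h'
  exact ⟨C + D, fun x y z => (abs_add_le _ _).trans (add_le_add (hC x y z) (hD x y z))⟩

theorem m_zero {m : (ℕ → ℕ → ℕ → ℝ) → ℝ} (hm : TM m) : m (fun _ _ _ => 0) = 0 := by
  have h := hm.smul 0 (fun _ _ _ => 1) ⟨1, fun _ _ _ => by simp⟩
  simp only [zero_mul] at h
  exact h

theorem m_sum {m : (ℕ → ℕ → ℕ → ℝ) → ℝ} (hm : TM m) {ι : Type} (s : Finset ι)
    (φ : ι → ℕ → ℕ → ℕ → ℝ) (h : ∀ i, B3 (φ i)) :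
    m (fun x y z => ∑ i ∈ s, φ i x y z) = ∑ i ∈ s, m (φ i) ∧
      B3 (fun x y z => ∑ i ∈ s, φ i x y z) := by
  classical
  induction s using Finset.induction with
  | empty =>
    simp only [Finset.sum_empty]
    exact ⟨m_zero hm, 0, fun _ _ _ => by simp⟩
  | insert a s ha ih =>
    simp only [Finset.sum_insert ha]
    refine ⟨?_, b3_add (h a) ih.2⟩
    rw [← ih.1]
    exact hm.add (φ a) _ (h a) ih.2

/-- sums of functions and their `IsJ` functions -/
theorem isJ_sum (hJl : SC.StJl) (S : Sys μ) {ι : Type} (s : Finset ι) (a : ι → ℝ)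
    (F N : ι → X → ℝ) (hF : ∀ i, BM (F i)) (h : ∀ i, IsJ S (F i) (N i)) :
    IsJ S (fun t => ∑ i ∈ s, a i * F i t) (fun t => ∑ i ∈ s, a i * N i t) := by
  classical
  obtain ⟨h1, h2, -, -⟩ := hJl X _ μ inferInstance S
  induction s using Finset.induction with
  | empty =>
    simp only [Finset.sum_empty]
    exact h2 0
  | insert b s hb ih =>
    simp only [Finset.sum_insert hb]
    have h3 := h1 (F b) _ (N b) _ (a b) 1 (hF b)
      (bm_sum s (fun i t => a i * F i t) fun i => bm_mul (bm_const (a i)) (hF i)) (h b) ih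
    simp only [one_mul] at h3
    exact h3

/-- a function with nonpositive integrals over the invariant sets -/
theorem le_zero (S : Sys μ) (Q : X → ℝ) (hQ : InvF S Q)
    (h : ∀ φ : X → ℝ, Inv01 S φ → ∫ t, φ t * Q t ∂μ ≤ 0) : ∀ᵐ t ∂μ, Q t ≤ 0 := by
  classical
  have hN : MeasurableSet {t | 0 < Q t} := measurableSet_lt measurable_const hQ.1.1
  obtain ⟨φ, hφ⟩ : ∃ φ : X → ℝ, φ = {t | 0 < Q t}.indicator (fun _ => (1 : ℝ)) := ⟨_, rfl⟩
  have hv : ∀ t, φ t = if 0 < Q t then 1 else 0 := by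
    intro t
    rw [hφ]
    rfl
  have hφB : BM φ := by
    refine ⟨by rw [hφ]; exact measurable_const.indicator hN, 1, fun t => ?_⟩
    rw [hv]
    split_ifs <;> norm_num
  have h01 : Inv01 S φ := by
    refine ⟨⟨hφB, fun n hn => ?_⟩, fun t => ?_⟩
    · filter_upwards [hQ.2 n hn] with t ht
      have ht' : Q (S.T n t) = Q t := ht
      rw [hv, hv, ht']
    · rw [hv]
      split_ifs
      · exact Or.inr rfl
      · exact Or.inl rfl
  have h1 := h φ h01
  have hpos : ∀ t, 0 ≤ φ t * Q t := by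
    intro t
    rw [hv]
    split_ifs with h2
    · rw [one_mul]; exact h2.le
    · rw [zero_mul]
  have h3 : ∫ t, φ t * Q t ∂μ = 0 := le_antisymm h1 (integral_nonneg hpos)
  have h4 := (integral_eq_zero_iff_of_nonneg hpos (bm_int (bm_mul hφB hQ.1))).1 h3
  filter_upwards [h4] with t ht
  have h5 : φ t * Q t = 0 := ht
  rw [hv] at h5
  by_contra hc
  push Not at hc
  rw [if_pos hc, one_mul] at h5
  exact absurd h5 hc.ne'

end XKn

open XKn in
theorem pr_Kn (hJl : SC.StJl) : StKn := by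
  intro X _ μ _ S m hm hPP r k f ν M g c hf hν hc hT
  have hνB : ∀ i, BM (ν i) := fun i => (hν i).inv.1
  have hM2 : ∀ (u v : Fin r → X → ℝ), (∀ i, BM (u i)) → (∀ i, BM (v i)) →
      BM (fun t => ∑ i, ∑ j, M i j * (u i t * v j t)) := fun u v hu hv =>
    bm_sum _ _ fun i => bm_sum _ _ fun j => bm_mul (bm_const _) (bm_mul (hu i) (hv j))
  have hH : ∀ (u : Fin r → X → ℝ) (l : Fin k), (∀ i, BM (u i)) → BM (fun t => ∑ i, g l i * u i t) :=
    fun u l hu => bm_sum _ _ fun i => bm_mul (bm_const _) (hu i)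
  refine le_zero S (fun t => 2 * ∑ i, ∑ j, M i j * (ν i t * ν j t) +
    ∑ l, c l * (∑ i, g l i * ν i t) ^ 2) ⟨?_, fun n hn => ?_⟩ fun φ hφ => ?_
  · refine bm_add (bm_mul (bm_const 2) (hM2 ν ν hνB hνB)) (bm_sum _ _ fun l => ?_)
    refine bm_mul (bm_const _) ?_
    have h := bm_mul (hH ν l hνB) (hH ν l hνB)
    simp only [← sq] at h
    exact h
  · have hall : ∀ᵐ t ∂μ, ∀ i, ν i (S.T n t) = ν i t := by
      rw [ae_all_iff]
      exact fun i => (hν i).inv.2 n hn
    filter_upwards [hall] with t ht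
    simp only [ht]
  -- the main inequality
  have hφB := hφ.1.1
  have hsq : ∀ t, φ t * φ t = φ t := by
    intro t
    rcases hφ.2 t with h | h <;> rw [h] <;> norm_num
  have hφ0 : ∀ t, 0 ≤ φ t := by
    intro t
    rcases hφ.2 t with h | h <;> rw [h] <;> norm_num
  obtain ⟨F, hFd⟩ : ∃ F : Fin r → X → ℝ, F = fun i t => φ t * f i t := ⟨_, rfl⟩
  obtain ⟨N, hNd⟩ : ∃ N : Fin r → X → ℝ, N = fun i t => φ t * ν i t := ⟨_, rfl⟩
  have hF : ∀ i, BM (F i) := fun i => by rw [hFd]; exact bm_mul hφB (hf i)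
  have hN : ∀ i, BM (N i) := fun i => by rw [hNd]; exact bm_mul hφB (hνB i)
  have hJ : ∀ i, IsJ S (F i) (N i) := fun i => by
    rw [hFd, hNd]
    exact (hJl X _ μ inferInstance S).2.2.1 φ (f i) (ν i) (hf i) hφ.1 (hν i)
  have hJH : ∀ l, IsJ S (fun t => ∑ i, g l i * F i t) (fun t => ∑ i, g l i * N i t) :=
    fun l => isJ_sum hJl S _ (g l) F N hF hJ
  -- integrals at the points of a triple
  have key : ∀ x y z, PT x y z →
      ∑ i, ∑ j, M i j * ∫ t, F i (S.T x t) * F j (S.T y t) ∂μ +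
      ∑ i, ∑ j, M i j * ∫ t, F i (S.T x t) * F j (S.T z t) ∂μ +
      ∑ l, c l * ∫ t, (∑ i, g l i * F i (S.T y t)) * (∑ i, g l i * F i (S.T z t)) ∂μ ≤ 0 := by
    intro x y z hxyz
    have e1 : ∀ a b : ℕ, ∑ i, ∑ j, M i j * ∫ t, F i (S.T a t) * F j (S.T b t) ∂μ =
        ∫ t, ∑ i, ∑ j, M i j * (F i (S.T a t) * F j (S.T b t)) ∂μ := by
      intro a b
      have hb : ∀ i j, BM (fun t => M i j * (F i (S.T a t) * F j (S.T b t))) := fun i j =>
        bm_mul (bm_const _) (bm_mul (bm_comp S (hF i) a) (bm_comp S (hF j) b))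
      rw [integral_finsetSum _ fun i _ => bm_int (bm_sum _ _ (hb i))]
      refine Finset.sum_congr rfl fun i _ => ?_
      rw [integral_finsetSum _ fun j _ => bm_int (hb i j)]
      exact Finset.sum_congr rfl fun j _ => (integral_const_mul _ _).symm
    have hHb : ∀ l, BM (fun t => c l * ((∑ i, g l i * F i (S.T y t)) *
        ∑ i, g l i * F i (S.T z t))) := fun l =>
      bm_mul (bm_const _) (bm_mul (bm_comp S (hH F l hF) y) (bm_comp S (hH F l hF) z))
    have e2 : ∑ l, c l * ∫ t, (∑ i, g l i * F i (S.T y t)) * (∑ i, g l i * F i (S.T z t)) ∂μ =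
        ∫ t, ∑ l, c l * ((∑ i, g l i * F i (S.T y t)) * ∑ i, g l i * F i (S.T z t)) ∂μ := by
      rw [integral_finsetSum _ fun l _ => bm_int (hHb l)]
      exact Finset.sum_congr rfl fun l _ => (integral_const_mul _ _).symm
    have hMb : ∀ a b : ℕ, BM (fun t => ∑ i, ∑ j, M i j * (F i (S.T a t) * F j (S.T b t))) :=
      fun a b => hM2 (fun i t => F i (S.T a t)) (fun i t => F i (S.T b t))
        (fun i => bm_comp S (hF i) a) fun i => bm_comp S (hF i) b
    rw [e1, e1, e2, ← integral_add (bm_int (hMb x y)) (bm_int (hMb x z)),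
      ← integral_add (bm_int (bm_add (hMb x y) (hMb x z))) (bm_int (bm_sum _ _ hHb))]
    refine integral_nonpos_of_ae ?_
    have hxyz' := hxyz
    obtain ⟨hx, hy, hz, -⟩ := hxyz'
    filter_upwards [hT x y z hxyz, hφ.1.2 x hx, hφ.1.2 y hy, hφ.1.2 z hz] with t ht h1 h2 h3
    have h1' : φ (S.T x t) = φ t := h1
    have h2' : φ (S.T y t) = φ t := h2
    have h3' : φ (S.T z t) = φ t := h3
    show ∑ i, ∑ j, M i j * (F i (S.T x t) * F j (S.T y t)) +
      ∑ i, ∑ j, M i j * (F i (S.T x t) * F j (S.T z t)) +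
      ∑ l, c l * ((∑ i, g l i * F i (S.T y t)) * ∑ i, g l i * F i (S.T z t)) ≤ 0
    have e3 : ∑ i, ∑ j, M i j * (F i (S.T x t) * F j (S.T y t)) =
        φ t * ∑ i, ∑ j, M i j * (f i (S.T x t) * f j (S.T y t)) := by
      rw [Finset.mul_sum]
      refine Finset.sum_congr rfl fun i _ => ?_
      rw [Finset.mul_sum]
      refine Finset.sum_congr rfl fun j _ => ?_
      rw [hFd]
      show M i j * ((φ (S.T x t) * f i (S.T x t)) * (φ (S.T y t) * f j (S.T y t))) = _
      rw [h1', h2']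
      nth_rewrite 3 [← hsq t]
      ring
    have e4 : ∑ i, ∑ j, M i j * (F i (S.T x t) * F j (S.T z t)) =
        φ t * ∑ i, ∑ j, M i j * (f i (S.T x t) * f j (S.T z t)) := by
      rw [Finset.mul_sum]
      refine Finset.sum_congr rfl fun i _ => ?_
      rw [Finset.mul_sum]
      refine Finset.sum_congr rfl fun j _ => ?_
      rw [hFd]
      show M i j * ((φ (S.T x t) * f i (S.T x t)) * (φ (S.T z t) * f j (S.T z t))) = _
      rw [h1', h3']
      nth_rewrite 3 [← hsq t]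
      ring
    have e5 : ∀ l, ∀ a : ℕ, φ (S.T a t) = φ t →
        ∑ i, g l i * F i (S.T a t) = φ t * ∑ i, g l i * f i (S.T a t) := by
      intro l a ha
      rw [Finset.mul_sum]
      refine Finset.sum_congr rfl fun i _ => ?_
      rw [hFd]
      show g l i * (φ (S.T a t) * f i (S.T a t)) = _
      rw [ha]
      ring
    have e6 : ∑ l, c l * ((∑ i, g l i * F i (S.T y t)) * ∑ i, g l i * F i (S.T z t)) =
        φ t * ∑ l, c l * ((∑ i, g l i * f i (S.T y t)) * ∑ i, g l i * f i (S.T z t)) := by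
      rw [Finset.mul_sum]
      refine Finset.sum_congr rfl fun l _ => ?_
      rw [e5 l y h2', e5 l z h3']
      nth_rewrite 3 [← hsq t]
      ring
    rw [e3, e4, e6, ← mul_add, ← mul_add]
    exact mul_nonpos_of_nonneg_of_nonpos (hφ0 t) ht
  -- apply the mean
  have hA : ∀ i, B3 (fun x y z => ∑ j, M i j * ∫ t, F i (S.T x t) * F j (S.T y t) ∂μ) := fun i =>
    (m_sum hm Finset.univ (fun j x y z => M i j * ∫ t, F i (S.T x t) * F j (S.T y t) ∂μ)
      fun j => b3_smul _ (b3_pair S (hF i) (hF j) (fun x _ _ => x) fun _ y _ => y)).2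
  have hB : ∀ i, B3 (fun x y z => ∑ j, M i j * ∫ t, F i (S.T x t) * F j (S.T z t) ∂μ) := fun i =>
    (m_sum hm Finset.univ (fun j x y z => M i j * ∫ t, F i (S.T x t) * F j (S.T z t) ∂μ)
      fun j => b3_smul _ (b3_pair S (hF i) (hF j) (fun x _ _ => x) fun _ _ z => z)).2
  have hC : ∀ l, B3 (fun x y z => ∫ t, (∑ i, g l i * F i (S.T y t)) *
      (∑ i, g l i * F i (S.T z t)) ∂μ) := fun l =>
    b3_pair S (hH F l hF) (hH F l hF) (fun _ y _ => y) fun _ _ z => z
  have mA : m (fun x y z => ∑ i, ∑ j, M i j * ∫ t, F i (S.T x t) * F j (S.T y t) ∂μ) =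
      ∑ i, ∑ j, M i j * ∫ t, N i t * N j t ∂μ := by
    rw [(m_sum hm Finset.univ _ hA).1]
    refine Finset.sum_congr rfl fun i _ => ?_
    rw [(m_sum hm Finset.univ (fun j x y z => M i j * ∫ t, F i (S.T x t) * F j (S.T y t) ∂μ)
      fun j => b3_smul _ (b3_pair S (hF i) (hF j) (fun x _ _ => x) fun _ y _ => y)).1]
    refine Finset.sum_congr rfl fun j _ => ?_
    rw [hm.smul _ _ (b3_pair S (hF i) (hF j) (fun x _ _ => x) fun _ y _ => y),
      (hPP (F i) (F j) (N i) (N j) (hF i) (hF j) (hJ i) (hJ j)).1]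
  have mB : m (fun x y z => ∑ i, ∑ j, M i j * ∫ t, F i (S.T x t) * F j (S.T z t) ∂μ) =
      ∑ i, ∑ j, M i j * ∫ t, N i t * N j t ∂μ := by
    rw [(m_sum hm Finset.univ _ hB).1]
    refine Finset.sum_congr rfl fun i _ => ?_
    rw [(m_sum hm Finset.univ (fun j x y z => M i j * ∫ t, F i (S.T x t) * F j (S.T z t) ∂μ)
      fun j => b3_smul _ (b3_pair S (hF i) (hF j) (fun x _ _ => x) fun _ _ z => z)).1]
    refine Finset.sum_congr rfl fun j _ => ?_
    rw [hm.smul _ _ (b3_pair S (hF i) (hF j) (fun x _ _ => x) fun _ _ z => z),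
      (hPP (F i) (F j) (N i) (N j) (hF i) (hF j) (hJ i) (hJ j)).2.1]
  have mC : ∑ l, c l * ∫ t, (∑ i, g l i * N i t) ^ 2 ∂μ ≤
      m (fun x y z => ∑ l, c l * ∫ t, (∑ i, g l i * F i (S.T y t)) *
        (∑ i, g l i * F i (S.T z t)) ∂μ) := by
    rw [(m_sum hm Finset.univ (fun l x y z => c l * ∫ t, (∑ i, g l i * F i (S.T y t)) *
        (∑ i, g l i * F i (S.T z t)) ∂μ) fun l => b3_smul _ (hC l)).1]
    refine Finset.sum_le_sum fun l _ => ?_
    rw [hm.smul _ _ (hC l)]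
    exact mul_le_mul_of_nonneg_left (hPP _ _ _ _ (hH F l hF) (hH F l hF) (hJH l) (hJH l)).2.2
      (hc l)
  have bA := (m_sum hm Finset.univ _ hA).2
  have bB := (m_sum hm Finset.univ _ hB).2
  have bC := (m_sum hm Finset.univ (fun l x y z => c l * ∫ t, (∑ i, g l i * F i (S.T y t)) *
        (∑ i, g l i * F i (S.T z t)) ∂μ) fun l => b3_smul _ (hC l)).2
  have hmain := hm.mono _ (fun _ _ _ => 0) (b3_add (b3_add bA bB) bC)
    ⟨0, fun _ _ _ => by simp⟩ key
  rw [m_zero hm, hm.add _ _ (b3_add bA bB) bC, hm.add _ _ bA bB, mA, mB] at hmain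
  -- the integral of the left side
  have hfin : ∫ t, φ t * (2 * ∑ i, ∑ j, M i j * (ν i t * ν j t) +
      ∑ l, c l * (∑ i, g l i * ν i t) ^ 2) ∂μ =
      ∑ i, ∑ j, M i j * ∫ t, N i t * N j t ∂μ + ∑ i, ∑ j, M i j * ∫ t, N i t * N j t ∂μ +
      ∑ l, c l * ∫ t, (∑ i, g l i * N i t) ^ 2 ∂μ := by
    have hb : ∀ i j, BM (fun t => M i j * (N i t * N j t)) := fun i j =>
      bm_mul (bm_const _) (bm_mul (hN i) (hN j))
    have e1 : ∑ i, ∑ j, M i j * ∫ t, N i t * N j t ∂μ =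
        ∫ t, ∑ i, ∑ j, M i j * (N i t * N j t) ∂μ := by
      rw [integral_finsetSum _ fun i _ => bm_int (bm_sum _ _ (hb i))]
      refine Finset.sum_congr rfl fun i _ => ?_
      rw [integral_finsetSum _ fun j _ => bm_int (hb i j)]
      exact Finset.sum_congr rfl fun j _ => (integral_const_mul _ _).symm
    have hq : ∀ l, BM (fun t => c l * (∑ i, g l i * N i t) ^ 2) := fun l => by
      have h := bm_mul (bm_const (c l)) (bm_mul (hH N l hN) (hH N l hN))
      simp only [← sq] at h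
      exact h
    have e2 : ∑ l, c l * ∫ t, (∑ i, g l i * N i t) ^ 2 ∂μ =
        ∫ t, ∑ l, c l * (∑ i, g l i * N i t) ^ 2 ∂μ := by
      rw [integral_finsetSum _ fun l _ => bm_int (hq l)]
      exact Finset.sum_congr rfl fun l _ => (integral_const_mul _ _).symm
    rw [e1, e2, ← integral_add (bm_int (hM2 N N hN hN)) (bm_int (hM2 N N hN hN)),
      ← integral_add (bm_int (bm_add (hM2 N N hN hN) (hM2 N N hN hN)))
        (bm_int (bm_sum _ _ hq))]
    refine integral_congr_ae (ae_of_all _ fun t => ?_)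
    show φ t * (2 * ∑ i, ∑ j, M i j * (ν i t * ν j t) + ∑ l, c l * (∑ i, g l i * ν i t) ^ 2) =
      ∑ i, ∑ j, M i j * (N i t * N j t) + ∑ i, ∑ j, M i j * (N i t * N j t) +
      ∑ l, c l * (∑ i, g l i * N i t) ^ 2
    have e3 : ∑ i, ∑ j, M i j * (N i t * N j t) = φ t * ∑ i, ∑ j, M i j * (ν i t * ν j t) := by
      rw [Finset.mul_sum]
      refine Finset.sum_congr rfl fun i _ => ?_
      rw [Finset.mul_sum]
      refine Finset.sum_congr rfl fun j _ => ?_
      rw [hNd]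
      show M i j * ((φ t * ν i t) * (φ t * ν j t)) = _
      nth_rewrite 3 [← hsq t]
      ring
    have e4 : ∑ l, c l * (∑ i, g l i * N i t) ^ 2 =
        φ t * ∑ l, c l * (∑ i, g l i * ν i t) ^ 2 := by
      rw [Finset.mul_sum]
      refine Finset.sum_congr rfl fun l _ => ?_
      have e5 : ∑ i, g l i * N i t = φ t * ∑ i, g l i * ν i t := by
        rw [Finset.mul_sum]
        refine Finset.sum_congr rfl fun i _ => ?_
        rw [hNd]
        show g l i * (φ t * ν i t) = _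
        ring
      rw [e5]
      have e6 : c l * (φ t * ∑ i, g l i * ν i t) ^ 2 =
          (φ t * φ t) * (c l * (∑ i, g l i * ν i t) ^ 2) := by ring
      rw [e6, hsq]
    rw [e3, e4]
    ring
  rw [hfin]
  linarith

end Pool.Agent.F0f91f8.SV
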