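import Pool.Agent.Work.MP_0f91f8_co.SV.Stmts

/-!
# MP_0f91f8_co, block SV, item Mm: the theorem for means (copy of `SC/I_Mn.lean`)
-/

set_option autoImplicit false

noncomputable section

namespace Pool.Agent.F0f91f8.SV

open Filter Topology ComplexConjugate MeasureTheory
open Pool.Agent.F0f91f8.HD Pool.Agent.F0f91f8.RC Pool.Agent.F0f91f8.KR Pool.Agent.F0f91f8.FC
open Pool.Agent.F0f91f8.PC
open Pool.Agent.F0f91f8.SC (BM InvF IsJ vv PF RA)
open Pool.Agent.F0f91f8.BH (PT Cert)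
open scoped BigOperators

/-- item Mm: the theorem for means -/
theorem pr_Mm (hSy : SysS) (hUn : StVUn) (hX : SVX) : StMm := by
  intro m hm A hA
  by_contra hcon
  push Not at hcon
  obtain ⟨X, mX, μ, hμ, S, B, hB, h3, _⟩ := hSy m hm A
  have hPF : PF S B := by
    intro x y z hx hy hz hxyz
    have h1 : μ.real {t | S.T x t ∈ B ∧ S.T y t ∈ B ∧ S.T z t ∈ B} ≤ 0 := by
      rw [h3 x y z hx hy hz]
      exact hcon x y z hx hy hz hxyz
    have h2 : μ.real {t | S.T x t ∈ B ∧ S.T y t ∈ B ∧ S.T z t ∈ B} = 0 :=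
      le_antisymm h1 measureReal_nonneg
    rw [measureReal_eq_zero_iff] at h2
    rw [ae_iff]
    simp only [not_not]
    exact h2
  have h4 := hX X mX μ hμ S B hB hPF
  have h5 := h3 1 1 1 one_pos one_pos one_pos
  have hT : ∀ x, S.T 1 x = x := (hUn X mX μ S).2.2.2.1
  have e1 : {x | S.T 1 x ∈ B ∧ S.T 1 x ∈ B ∧ S.T 1 x ∈ B} = B := by
    ext x
    simp only [hT, and_self, Set.ofPred_mem_eq]
  have e2 : {n | 1 * n ∈ A ∧ 1 * n ∈ A ∧ 1 * n ∈ A} = A := by
    ext n
    simp only [one_mul, and_self, Set.ofPred_mem_eq]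
  rw [e1, e2] at h5
  linarith

end Pool.Agent.F0f91f8.SV
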