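import Pool.Agent.Work.MP_0f91f8_co.SV.Stmts

/-!
# MP_0f91f8_co, block SV, item Rs: the statement for positive integers
-/

set_option autoImplicit false

noncomputable section

namespace Pool.Agent.F0f91f8.SV

open Filter Topology ComplexConjugate MeasureTheory
open Pool.Agent.F0f91f8.HD Pool.Agent.F0f91f8.RC Pool.Agent.F0f91f8.KR Pool.Agent.F0f91f8.FC
open Pool.Agent.F0f91f8.PC
open Pool.Agent.F0f91f8.SC (BM InvF IsJ vv PF RA)
open Pool.Agent.F0f91f8.BH (PT Cert)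
open scoped BigOperators

namespace XRs

/-- the coercion -/
def cc : ℕ+ ↪ ℕ := ⟨fun n => (n : ℕ), PNat.coe_injective⟩

theorem mem_cc (S : Finset ℕ+) (n : ℕ+) : (n : ℕ) ∈ S.map cc ↔ n ∈ S := by
  rw [Finset.mem_map]
  constructor
  · rintro ⟨m, hm, h⟩
    have h' : m = n := PNat.coe_injective h
    exact h' ▸ hm
  · exact fun h => ⟨n, h, rfl⟩

theorem card_filt (S : Finset ℕ+) (P : ℕ → Prop) (Q : ℕ+ → Prop) [DecidablePred P]
    [DecidablePred Q] (h : ∀ n : ℕ+, P n ↔ Q n) :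
    ((S.map cc).filter P).card = (S.filter Q).card := by
  have h1 : (S.map cc).filter P = (S.filter Q).map cc := by
    ext x
    simp only [Finset.mem_filter, Finset.mem_map]
    constructor
    · rintro ⟨⟨n, hn, rfl⟩, hP⟩
      exact ⟨n, ⟨hn, (h n).1 hP⟩, rfl⟩
    · rintro ⟨n, ⟨hn, hQ⟩, rfl⟩
      exact ⟨⟨n, hn, rfl⟩, (h n).2 hQ⟩
  rw [h1, Finset.card_map]

end XRs

open XRs in
theorem pr_Rs (h : SVF) : StRs := by
  obtain ⟨k, δ, c, hδ, hc, H⟩ := h
  refine ⟨k, δ, c, hδ, hc, fun F hF hfol A hA hcard => ?_⟩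
  obtain ⟨x, y, z, hx, hy, hz, hxk, hyk, hzk, hxyz, hle⟩ := H (F.map cc)
    (Finset.map_nonempty.2 hF)
    (fun n hn => by
      obtain ⟨m, _, rfl⟩ := Finset.mem_map.1 hn
      exact m.pos)
    (fun p hp hpp => by
      have h1 := hfol ⟨p, hpp.pos⟩ hp hpp
      rw [Finset.card_map]
      refine h1.trans (le_of_eq ?_)
      congr 1
      exact (card_filt F _ _ fun n => mem_cc F (⟨p, hpp.pos⟩ * n)).symm)
    (A.map cc) (Finset.map_subset_map.2 hA) (by rw [Finset.card_map, Finset.card_map]; exact hcard)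
  lift x to ℕ+ using hx
  lift y to ℕ+ using hy
  lift z to ℕ+ using hz
  refine ⟨x, y, z, hxk, hyk, hzk, PNat.eq (by push_cast; exact hxyz), ?_⟩
  rw [Finset.card_map] at hle
  refine hle.trans (le_of_eq ?_)
  congr 1
  refine card_filt F _ _ fun n => ?_
  simp only [← PNat.mul_coe, mem_cc]

end Pool.Agent.F0f91f8.SV
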