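import Pool.Agent.Work.MP_0f91f8_co.SV.Stmts

/-!
# Block SV, item T3: every triple is rarely odd (helper48)
-/

set_option autoImplicit false

noncomputable section

namespace Pool.Agent.F0f91f8.SV

open Filter Topology ComplexConjugate MeasureTheory
open Pool.Agent.F0f91f8.HD Pool.Agent.F0f91f8.RC Pool.Agent.F0f91f8.KR Pool.Agent.F0f91f8.FC
open Pool.Agent.F0f91f8.PC
open Pool.Agent.F0f91f8.SC (BM InvF IsJ vv PF RA)
open Pool.Agent.F0f91f8.BH (PT Cert)
open scoped BigOperators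

namespace XT3

/-- the seven types as combinations of products of letters -/
def CM7 : Fin 7 → Fin 7 → ℝ := ![![1,-1,-1,-1,1,1,1], ![0,1,0,0,0,-1,-1], ![0,0,1,0,-1,0,-1],
  ![0,0,0,1,-1,-1,0], ![0,0,0,0,1,0,0], ![0,0,0,0,0,1,0], ![0,0,0,0,0,0,1]]

/-- products of letters -/
def E7 (a b c : ℝ) : Fin 7 → ℝ := ![1, a, b, c, b * c, a * c, a * b]

/-- the value of type `i` -/
def T7 (a b c : ℝ) (i : Fin 7) : ℝ := ∑ j, CM7 i j * E7 a b c j

theorem type_ex (a b c : ℝ) (ha : a = 0 ∨ a = 1) (hb : b = 0 ∨ b = 1) (hc : c = 0 ∨ c = 1)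
    (h : ¬(a = 1 ∧ b = 1 ∧ c = 1)) : ∃ i : Fin 7, (∀ j, T7 a b c j = if j = i then 1 else 0) ∧
      (gZ 1 i = 1 → a = 1) ∧ (gZ 2 i = 1 → b = 1) ∧ (gZ 3 i = 1 → c = 1) := by
  rcases ha with rfl | rfl <;> rcases hb with rfl | rfl <;> rcases hc with rfl | rfl
  · refine ⟨0, fun j => ?_, by decide, by decide, by decide⟩
    fin_cases j <;> simp [T7, CM7, E7, Fin.sum_univ_succ]
  · refine ⟨3, fun j => ?_, by decide, by decide, fun _ => rfl⟩
    fin_cases j <;> simp [T7, CM7, E7, Fin.sum_univ_succ]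
  · refine ⟨2, fun j => ?_, by decide, fun _ => rfl, by decide⟩
    fin_cases j <;> simp [T7, CM7, E7, Fin.sum_univ_succ]
  · refine ⟨4, fun j => ?_, by decide, fun _ => rfl, fun _ => rfl⟩
    fin_cases j <;> simp [T7, CM7, E7, Fin.sum_univ_succ]
  · refine ⟨1, fun j => ?_, fun _ => rfl, by decide, by decide⟩
    fin_cases j <;> simp [T7, CM7, E7, Fin.sum_univ_succ]
  · refine ⟨5, fun j => ?_, fun _ => rfl, by decide, fun _ => rfl⟩
    fin_cases j <;> simp [T7, CM7, E7, Fin.sum_univ_succ]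
  · refine ⟨6, fun j => ?_, fun _ => rfl, fun _ => rfl, by decide⟩
    fin_cases j <;> simp [T7, CM7, E7, Fin.sum_univ_succ]
  · exact absurd ⟨rfl, rfl, rfl⟩ h

theorem collapse (F G H : Fin 7 → ℝ) (i j k : Fin 7) (hF : ∀ l, F l = if l = i then 1 else 0)
    (hG : ∀ l, G l = if l = j then 1 else 0) (hH : ∀ l, H l = if l = k then 1 else 0) :
    ∑ p, ∑ q, (MZ p q : ℝ) * (F p * G q) + ∑ p, ∑ q, (MZ p q : ℝ) * (F p * H q) +
      ∑ l, (cZ l : ℝ) * ((∑ p, (gZ l p : ℝ) * G p) * ∑ p, (gZ l p : ℝ) * H p) =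
    ((MZ i j + MZ i k + ∑ l, cZ l * (gZ l j * gZ l k) : ℤ) : ℝ) := by
  push_cast
  simp only [hF, hG, hH]
  simp [Finset.sum_ite_eq']

theorem ind01 {X : Type} (A : Set X) (t : X) :
    A.indicator (fun _ => (1 : ℝ)) t = 0 ∨ A.indicator (fun _ => (1 : ℝ)) t = 1 := by
  by_cases h : t ∈ A
  · right; rw [Set.indicator_of_mem h]
  · left; rw [Set.indicator_of_notMem h]

theorem ind1 {X : Type} (A : Set X) (t : X) (h : A.indicator (fun _ => (1 : ℝ)) t = 1) : t ∈ A := by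
  by_contra h'
  rw [Set.indicator_of_notMem h'] at h
  norm_num at h

section
variable {X : Type} [MeasurableSpace X] {μ : Measure X}

theorem bm_mul {f g : X → ℝ} (hf : BM f) (hg : BM g) : BM fun t => f t * g t := by
  obtain ⟨h1, C, h2⟩ := hf
  obtain ⟨h3, D, h4⟩ := hg
  refine ⟨h1.mul h3, C * D, fun t => ?_⟩
  rw [abs_mul]
  exact mul_le_mul (h2 t) (h4 t) (abs_nonneg _) ((abs_nonneg _).trans (h2 t))

theorem bm_lin {f g : X → ℝ} (a b : ℝ) (hf : BM f) (hg : BM g) : BM fun t => a * f t + b * g t := by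
  obtain ⟨h1, C, h2⟩ := hf
  obtain ⟨h3, D, h4⟩ := hg
  refine ⟨(h1.const_mul a).add (h3.const_mul b), |a| * C + |b| * D, fun t => ?_⟩
  refine (abs_add_le _ _).trans ?_
  rw [abs_mul, abs_mul]
  exact add_le_add (mul_le_mul_of_nonneg_left (h2 t) (abs_nonneg _))
    (mul_le_mul_of_nonneg_left (h4 t) (abs_nonneg _))

theorem bm_const (c : ℝ) : BM fun _ : X => c := ⟨measurable_const, |c|, fun _ => le_rfl⟩

theorem bm_sum {n : ℕ} (e : Fin n → X → ℝ) (c : Fin n → ℝ) (he : ∀ i, BM (e i)) :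
    BM fun t => ∑ i, c i * e i t := by
  induction n with
  | zero => simpa using bm_const (X := X) 0
  | succ n ih =>
    have h1 := ih (fun i => e i.succ) (fun i => c i.succ) fun i => he _
    have h2 := bm_lin (c 0) 1 (he 0) h1
    simpa [Fin.sum_univ_succ] using h2

theorem isJ_sum [IsProbabilityMeasure μ] (hJl : SC.StJl) (S : Sys μ) {n : ℕ} (e J : Fin n → X → ℝ)
    (c : Fin n → ℝ) (he : ∀ i, BM (e i)) (hJ : ∀ i, IsJ S (e i) (J i)) :
    IsJ S (fun t => ∑ i, c i * e i t) fun t => ∑ i, c i * J i t := by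
  obtain ⟨hlin, hcon, -, -⟩ := hJl X _ μ inferInstance S
  induction n with
  | zero => simpa using hcon 0
  | succ n ih =>
    have h1 := ih (fun i => e i.succ) (fun i => J i.succ) (fun i => c i.succ) (fun i => he _)
      fun i => hJ _
    have h2 := hlin _ _ _ _ (c 0) 1 (he 0)
      (bm_sum (fun i => e i.succ) (fun i => c i.succ) fun i => he _) (hJ 0) h1
    simpa [Fin.sum_univ_succ] using h2

theorem bm_ind {A : Set X} (hA : MeasurableSet A) : BM (A.indicator fun _ => (1 : ℝ)) := by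
  refine ⟨measurable_const.indicator hA, 1, fun t => ?_⟩
  rcases ind01 A t with h | h <;> rw [h] <;> norm_num

theorem bm_comp (S : Sys μ) {f : X → ℝ} (hf : BM f) (n : ℕ) : BM fun t => f (S.T n t) := by
  obtain ⟨h1, C, h2⟩ := hf
  exact ⟨h1.comp (S.T n).measurable, C, fun t => h2 _⟩

end

end XT3

open XT3

/-- **T3.** -/
theorem pr_T3 (hKn : StKn) (hJe : SC.StJe) (hJm : SC.StJm) (hJl : SC.StJl) : StT3 := by
  intro X _ μ hμ S m hm hPP A hA hPF D hD a b c habc q hq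
  obtain ⟨ha, hb, hc, habc'⟩ := habc
  set χ : X → ℝ := A.indicator fun _ => (1 : ℝ) with hχ
  have bχ : BM χ := bm_ind hA
  obtain ⟨-, hcon, -, hshift⟩ := hJl X _ μ hμ S
  set ea : X → ℝ := fun t => χ (S.T a t) with hea
  set eb : X → ℝ := fun t => χ (S.T b t) with heb
  set ec : X → ℝ := fun t => χ (S.T c t) with hec
  have bea : BM ea := bm_comp S bχ a
  have beb : BM eb := bm_comp S bχ b
  have bec : BM ec := bm_comp S bχ c
  have Jea : IsJ S ea D := hshift χ D a ha bχ hD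
  have Jeb : IsJ S eb D := hshift χ D b hb bχ hD
  have Jec : IsJ S ec D := hshift χ D c hc bχ hD
  obtain ⟨k1, hk1, -⟩ := hJe X _ μ hμ S (fun t => eb t * ec t) (bm_mul beb bec)
  obtain ⟨k2, hk2, -⟩ := hJe X _ μ hμ S (fun t => ea t * ec t) (bm_mul bea bec)
  obtain ⟨k3, hk3, -⟩ := hJe X _ μ hμ S (fun t => ea t * eb t) (bm_mul bea beb)
  set e : Fin 7 → X → ℝ := fun j t => E7 (ea t) (eb t) (ec t) j with he
  set J : Fin 7 → X → ℝ := fun j t =>
    (![1, D t, D t, D t, k1 t, k2 t, k3 t] : Fin 7 → ℝ) j with hJ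
  have be : ∀ j, BM (e j) := by
    intro j
    fin_cases j
    · exact bm_const 1
    · exact bea
    · exact beb
    · exact bec
    · exact bm_mul beb bec
    · exact bm_mul bea bec
    · exact bm_mul bea beb
  have Je : ∀ j, IsJ S (e j) (J j) := by
    intro j
    fin_cases j
    · exact hcon 1
    · exact Jea
    · exact Jeb
    · exact Jec
    · exact hk1
    · exact hk2
    · exact hk3
  have key := hKn X _ μ hμ S m hm hPP 7 10 (fun i t => ∑ j, CM7 i j * e j t)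
    (fun i t => ∑ j, CM7 i j * J j t) (fun i j => (MZ i j : ℝ)) (fun l i => (gZ l i : ℝ))
    (fun l => (cZ l : ℝ)) (fun i => bm_sum e (CM7 i) be) (fun i => isJ_sum hJl S e J (CM7 i) be Je)
    (fun l => by fin_cases l <;> simp [cZ]) ?_
  · have hnu : ∀ t i, ∑ j, CM7 i j * J j t = nu (D t) (k1 t) (k2 t) (k3 t) i := by
      intro t i
      fin_cases i <;> simp [CM7, hJ, nu, Fin.sum_univ_succ] <;> ring
    have hq1 : IsJ S (fun t => ∑ j, (![0, 1, 1, 1, -2, -2, -2] : Fin 7 → ℝ) j * e j t)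
        fun t => ∑ j, (![0, 1, 1, 1, -2, -2, -2] : Fin 7 → ℝ) j * J j t := isJ_sum hJl S e J _ be Je
    have bq1 : BM (fun t => ∑ j, (![0, 1, 1, 1, -2, -2, -2] : Fin 7 → ℝ) j * e j t) :=
      bm_sum e _ be
    have hvv : ∀ t, vv A t = 1 - 2 * χ t := fun t => rfl
    have bvv : BM (vv A) := by
      have := bm_lin (X := X) 1 (-2) (bm_const 1) bχ
      refine ⟨?_, 1, fun t => ?_⟩
      · have h0 : vv A = fun t => 1 * 1 + -2 * χ t := by
          funext t; rw [hvv]; ring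
        rw [h0]; exact this.1
      · rw [hvv]
        rcases ind01 A t with h | h <;> rw [hχ, h] <;> norm_num
    have bq : BM (fun t => (1 - vv A (S.T a t) * vv A (S.T b t) * vv A (S.T c t)) / 2) := by
      have h1 := bm_mul (bm_mul (bm_comp S bvv a) (bm_comp S bvv b)) (bm_comp S bvv c)
      have h2 := bm_lin (X := X) (1 / 2) (-(1 / 2)) (bm_const 1) h1
      have h3 : (fun t => (1 - vv A (S.T a t) * vv A (S.T b t) * vv A (S.T c t)) / 2) =
          fun t => 1 / 2 * 1 + -(1 / 2) * (vv A (S.T a t) * vv A (S.T b t) * vv A (S.T c t)) := by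
        funext t; ring
      rw [h3]; exact h2
    have hae : ∀ᵐ t ∂μ, (1 - vv A (S.T a t) * vv A (S.T b t) * vv A (S.T c t)) / 2 =
        ∑ j, (![0, 1, 1, 1, -2, -2, -2] : Fin 7 → ℝ) j * e j t := by
      filter_upwards [hPF a b c ha hb hc habc'] with t ht
      rw [hvv, hvv, hvv]
      have h1 : ea t = 0 ∨ ea t = 1 := ind01 A _
      have h2 : eb t = 0 ∨ eb t = 1 := ind01 A _
      have h3 : ec t = 0 ∨ ec t = 1 := ind01 A _
      have h4 : ea t * eb t * ec t = 0 := by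
        rcases h1 with h1 | h1
        · rw [h1]; ring
        · rcases h2 with h2 | h2
          · rw [h2]; ring
          · rcases h3 with h3 | h3
            · rw [h3]; ring
            · exact absurd ⟨ind1 A _ h1, ind1 A _ h2, ind1 A _ h3⟩ ht
      have h5 : (1 - (1 - 2 * χ (S.T a t)) * (1 - 2 * χ (S.T b t)) * (1 - 2 * χ (S.T c t))) / 2 =
          ea t + eb t + ec t - 2 * (ea t * eb t + ea t * ec t + eb t * ec t) +
            4 * (ea t * eb t * ec t) := by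
        simp only [hea, heb, hec]; ring
      rw [h5, h4]
      simp [he, E7, Fin.sum_univ_succ]
      ring
    have m1 := hJm X _ μ hμ S _ _ _ _ bq bq1 hq hq1 (hae.mono fun t h => h.le)
    have m2 := hJm X _ μ hμ S _ _ _ _ bq1 bq hq1 hq (hae.mono fun t h => h.ge)
    have hq2 : IsJ S (fun t => ∑ j, (![2, -1, -1, -1, 0, 0, 0] : Fin 7 → ℝ) j * e j t)
        fun t => ∑ j, (![2, -1, -1, -1, 0, 0, 0] : Fin 7 → ℝ) j * J j t := isJ_sum hJl S e J _ be Je
    have bq2 : BM (fun t => ∑ j, (![2, -1, -1, -1, 0, 0, 0] : Fin 7 → ℝ) j * e j t) :=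
      bm_sum e _ be
    have m3 := hJm X _ μ hμ S _ _ _ _ bq bq2 hq hq2 (by
      filter_upwards [hPF a b c ha hb hc habc'] with t ht
      rw [hvv, hvv, hvv]
      have h1 : ea t = 0 ∨ ea t = 1 := ind01 A _
      have h2 : eb t = 0 ∨ eb t = 1 := ind01 A _
      have h3 : ec t = 0 ∨ ec t = 1 := ind01 A _
      have h4 : ¬(ea t = 1 ∧ eb t = 1 ∧ ec t = 1) := fun h =>
        ht ⟨ind1 A _ h.1, ind1 A _ h.2.1, ind1 A _ h.2.2⟩
      have h5 : ∑ j, (![2, -1, -1, -1, 0, 0, 0] : Fin 7 → ℝ) j * e j t =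
          2 - ea t - eb t - ec t := by
        simp [he, E7, Fin.sum_univ_succ]
        ring
      rw [h5]
      show (1 - (1 - 2 * ea t) * (1 - 2 * eb t) * (1 - 2 * ec t)) / 2 ≤ _
      rcases h1 with h1 | h1
      · rcases h2 with h2 | h2 <;> rcases h3 with h3 | h3 <;> (rw [h1, h2, h3]; norm_num)
      · rcases h2 with h2 | h2
        · rcases h3 with h3 | h3 <;> (rw [h1, h2, h3]; norm_num)
        · rcases h3 with h3 | h3
          · rw [h1, h2, h3]; norm_num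
          · exact absurd ⟨h1, h2, h3⟩ h4)
    filter_upwards [key, m1, m2, m3] with t t1 t2 t3 t4
    simp only [hnu] at t1
    rw [kern_val] at t1
    have e1 : q t = 3 * D t - 2 * (k1 t + k2 t + k3 t) := by
      have h1 : ∑ j, (![0, 1, 1, 1, -2, -2, -2] : Fin 7 → ℝ) j * J j t =
          3 * D t - 2 * (k1 t + k2 t + k3 t) := by
        simp [hJ, Fin.sum_univ_succ]
        ring
      rw [h1] at t2 t3
      exact le_antisymm t2 t3
    have e2 : ∑ j, (![2, -1, -1, -1, 0, 0, 0] : Fin 7 → ℝ) j * J j t = 2 - 3 * D t := by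
      simp [hJ, Fin.sum_univ_succ]
      ring
    rw [e2] at t4
    refine ⟨?_, t4⟩
    rw [e1]
    nlinarith [sq_nonneg (k1 t - k2 t), sq_nonneg (k1 t - k3 t), sq_nonneg (k2 t - k3 t)]
  · rintro x y z ⟨hx, hy, hz, hxyz⟩
    have hsc : ∀ n : ℕ, 0 < n → (n * x) ^ 2 + (n * y) ^ 2 = (n * z) ^ 2 := by
      intro n _
      nlinarith [hxyz]
    have hsc' : ∀ n : ℕ, 0 < n → (a * n) ^ 2 + (b * n) ^ 2 = (c * n) ^ 2 := by
      intro n _
      nlinarith [habc']
    filter_upwards [hPF _ _ _ (Nat.mul_pos ha hx) (Nat.mul_pos ha hy) (Nat.mul_pos ha hz) (hsc a ha),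
      hPF _ _ _ (Nat.mul_pos hb hx) (Nat.mul_pos hb hy) (Nat.mul_pos hb hz) (hsc b hb),
      hPF _ _ _ (Nat.mul_pos hc hx) (Nat.mul_pos hc hy) (Nat.mul_pos hc hz) (hsc c hc),
      hPF _ _ _ (Nat.mul_pos ha hx) (Nat.mul_pos hb hx) (Nat.mul_pos hc hx) (hsc' x hx),
      hPF _ _ _ (Nat.mul_pos ha hy) (Nat.mul_pos hb hy) (Nat.mul_pos hc hy) (hsc' y hy),
      hPF _ _ _ (Nat.mul_pos ha hz) (Nat.mul_pos hb hz) (Nat.mul_pos hc hz) (hsc' z hz)]
      with t h1 h2 h3 h4 h5 h6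
    rw [S.mul _ _ ha hx, S.mul _ _ ha hy, S.mul _ _ ha hz] at h1
    rw [S.mul _ _ hb hx, S.mul _ _ hb hy, S.mul _ _ hb hz] at h2
    rw [S.mul _ _ hc hx, S.mul _ _ hc hy, S.mul _ _ hc hz] at h3
    rw [S.mul _ _ ha hx, S.mul _ _ hb hx, S.mul _ _ hc hx] at h4
    rw [S.mul _ _ ha hy, S.mul _ _ hb hy, S.mul _ _ hc hy] at h5
    rw [S.mul _ _ ha hz, S.mul _ _ hb hz, S.mul _ _ hc hz] at h6
    obtain ⟨i, i0, i1, i2, i3⟩ := type_ex (ea (S.T x t)) (eb (S.T x t)) (ec (S.T x t))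
      (ind01 A _) (ind01 A _) (ind01 A _) fun h => h4 ⟨ind1 A _ h.1, ind1 A _ h.2.1, ind1 A _ h.2.2⟩
    obtain ⟨j, j0, j1, j2, j3⟩ := type_ex (ea (S.T y t)) (eb (S.T y t)) (ec (S.T y t))
      (ind01 A _) (ind01 A _) (ind01 A _) fun h => h5 ⟨ind1 A _ h.1, ind1 A _ h.2.1, ind1 A _ h.2.2⟩
    obtain ⟨k, k0, k1', k2', k3'⟩ := type_ex (ea (S.T z t)) (eb (S.T z t)) (ec (S.T z t))
      (ind01 A _) (ind01 A _) (ind01 A _) fun h => h6 ⟨ind1 A _ h.1, ind1 A _ h.2.1, ind1 A _ h.2.2⟩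
    have hcol := collapse (fun l => T7 (ea (S.T x t)) (eb (S.T x t)) (ec (S.T x t)) l)
      (fun l => T7 (ea (S.T y t)) (eb (S.T y t)) (ec (S.T y t)) l)
      (fun l => T7 (ea (S.T z t)) (eb (S.T z t)) (ec (S.T z t)) l) i j k i0 j0 k0
    refine le_of_eq_of_le hcol ?_
    exact_mod_cast fin_check i j k
      (fun h => h1 ⟨ind1 A _ (i1 h.1), ind1 A _ (j1 h.2.1), ind1 A _ (k1' h.2.2)⟩)
      (fun h => h2 ⟨ind1 A _ (i2 h.1), ind1 A _ (j2 h.2.1), ind1 A _ (k2' h.2.2)⟩)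
      (fun h => h3 ⟨ind1 A _ (i3 h.1), ind1 A _ (j3 h.2.1), ind1 A _ (k3' h.2.2)⟩)

end Pool.Agent.F0f91f8.SV
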