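import Pool.Agent.Work.MP_0f91f8_co.SV.Stmts

/-!
# MP_0f91f8_co, block SV, item Th: the theorem for systems (helper7)
-/

set_option autoImplicit false

noncomputable section

namespace Pool.Agent.F0f91f8.SV

open Filter Topology ComplexConjugate MeasureTheory
open Pool.Agent.F0f91f8.HD Pool.Agent.F0f91f8.RC Pool.Agent.F0f91f8.KR Pool.Agent.F0f91f8.FC
open Pool.Agent.F0f91f8.PC
open Pool.Agent.F0f91f8.SC (BM InvF IsJ vv PF RA)
open Pool.Agent.F0f91f8.BH (PT Cert)
open scoped BigOperators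

namespace XTh

variable {X : Type} [MeasurableSpace X] {μ : Measure X}

theorem bm_int [IsFiniteMeasure μ] {f : X → ℝ} (hf : BM f) : Integrable f μ := by
  obtain ⟨h1, C, h2⟩ := hf
  exact Integrable.of_bound h1.aestronglyMeasurable C
    (Eventually.of_forall fun t => by rw [Real.norm_eq_abs]; exact h2 t)

theorem bm_mul {f g : X → ℝ} (hf : BM f) (hg : BM g) : BM (fun t => f t * g t) := by
  obtain ⟨h1, C, h2⟩ := hf
  obtain ⟨h3, C', h4⟩ := hg
  refine ⟨h1.mul h3, C * C', fun t => ?_⟩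
  rw [abs_mul]
  exact mul_le_mul (h2 t) (h4 t) (abs_nonneg _) ((abs_nonneg _).trans (h2 t))

theorem bm_sub {f g : X → ℝ} (hf : BM f) (hg : BM g) : BM (fun t => f t - g t) := by
  obtain ⟨h1, C, h2⟩ := hf
  obtain ⟨h3, C', h4⟩ := hg
  refine ⟨h1.sub h3, C + C', fun t => ?_⟩
  exact (abs_sub _ _).trans (add_le_add (h2 t) (h4 t))

theorem bm_const (c : ℝ) : BM (fun _ : X => c) := ⟨measurable_const, |c|, fun _ => le_rfl⟩

theorem bm_half {f : X → ℝ} (hf : BM f) : BM (fun t => (1 - f t) / 2) := by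
  have h := bm_mul (bm_sub (bm_const (X := X) 1) hf) (bm_const (X := X) (1 / 2))
  have e : (fun t => (1 - f t) / 2) = fun t => (1 - f t) * (1 / 2) := by
    funext t; ring
  rw [e]; exact h

theorem bm_ind {A : Set X} (hA : MeasurableSet A) : BM (A.indicator fun _ => (1 : ℝ)) := by
  refine ⟨measurable_const.indicator hA, 1, fun t => ?_⟩
  by_cases h : t ∈ A
  · rw [Set.indicator_of_mem h]; norm_num
  · rw [Set.indicator_of_notMem h]; norm_num

theorem vv_sign (A : Set X) (t : X) : vv A t = 1 ∨ vv A t = -1 := by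
  unfold SC.vv
  by_cases h : t ∈ A
  · right; rw [Set.indicator_of_mem h]; norm_num
  · left; rw [Set.indicator_of_notMem h]; norm_num

theorem vv_abs (A : Set X) (t : X) : |vv A t| ≤ 1 := by
  rcases vv_sign A t with h | h <;> rw [h] <;> norm_num

theorem vv_meas {A : Set X} (hA : MeasurableSet A) : Measurable (vv A) := by
  unfold SC.vv
  exact measurable_const.sub ((measurable_const.indicator hA).const_mul 2)

theorem bm_vv {A : Set X} (hA : MeasurableSet A) : BM (vv A) := ⟨vv_meas hA, 1, vv_abs A⟩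

theorem bm_vvT (S : Sys μ) {A : Set X} (hA : MeasurableSet A) (n : ℕ) :
    BM (fun t => vv A (S.T n t)) :=
  ⟨(vv_meas hA).comp (S.T n).measurable, 1, fun t => vv_abs A _⟩

/-- the indicator function of a level set of an invariant function -/
theorem inv01 (S : Sys μ) {D : X → ℝ} (hD : InvF S D) (c : ℝ) :
    Inv01 S ({t | c ≤ D t}.indicator fun _ => (1 : ℝ)) := by
  have hm : MeasurableSet {t | c ≤ D t} := measurableSet_le measurable_const hD.1.1
  refine ⟨⟨bm_ind hm, fun n hn => ?_⟩, fun t => ?_⟩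
  · filter_upwards [hD.2 n hn] with t ht
    by_cases h : c ≤ D t
    · rw [Set.indicator_of_mem (show S.T n t ∈ {t | c ≤ D t} by
        show c ≤ D (S.T n t); rw [ht]; exact h), Set.indicator_of_mem (show t ∈ {t | c ≤ D t} from h)]
    · rw [Set.indicator_of_notMem (show S.T n t ∉ {t | c ≤ D t} by
        intro h2; have h3 : c ≤ D (S.T n t) := h2; rw [ht] at h3; exact h h3),
        Set.indicator_of_notMem (show t ∉ {t | c ≤ D t} from h)]
  · by_cases h : t ∈ {t | c ≤ D t}
    · right; rw [Set.indicator_of_mem h]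
    · left; rw [Set.indicator_of_notMem h]

end XTh

open XTh in
/-- **Th.** -/
theorem pr_Th (hC : Cert 15) (hMn : StMn) (hVo : StVo) (hGr : StGr) (hEz : StEz) (hEx : StEx)
    (hT3 : StT3) (hCt : StCt) (hJe : SC.StJe) : StTh := by
  intro X _ μ hμ S A hA hPF
  by_contra hcon
  push Not at hcon
  obtain ⟨D, hD, -⟩ := hJe X _ μ hμ S (A.indicator fun _ => (1 : ℝ)) (bm_ind hA)
  have hDB : BM D := hD.inv.1
  -- the mean of `D`
  have hint : ∫ t, D t ∂μ = μ.real A := by
    have h1 := hD.int (fun _ => (1 : ℝ)) ⟨bm_const 1, fun n _ => Filter.EventuallyEq.rfl⟩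
    simp only [one_mul] at h1
    rw [← h1, integral_indicator_const _ hA, smul_eq_mul, mul_one]
  set Z : Set X := {t | 17 / 36 ≤ D t} with hZ
  have hZm : MeasurableSet Z := measurableSet_le measurable_const hDB.1
  have hZpos : 0 < μ.real Z := by
    by_contra h0
    have h1 : μ.real Z = 0 := le_antisymm (not_lt.1 h0) measureReal_nonneg
    have h2 : μ Z = 0 := by
      rwa [measureReal_eq_zero_iff] at h1
    have h3 : ∀ᵐ t ∂μ, 0 < 17 / 36 - D t := by
      have h4 : ∀ᵐ t ∂μ, t ∉ Z := measure_eq_zero_iff_ae_notMem.1 h2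
      filter_upwards [h4] with t ht
      have h5 : ¬ 17 / 36 ≤ D t := ht
      linarith [not_le.1 h5]
    have h4 : Integrable (fun t => 17 / 36 - D t) μ := bm_int (bm_sub (bm_const _) hDB)
    have h5 : ∫ t, (17 / 36 - D t) ∂μ ≤ 0 := by
      rw [integral_sub (integrable_const _) (bm_int hDB), hint]
      simp
      linarith
    have h6 : ∫ t, (17 / 36 - D t) ∂μ = 0 :=
      le_antisymm h5 (integral_nonneg_of_ae (h3.mono fun t ht => ht.le))
    have h7 := (integral_eq_zero_iff_of_nonneg_ae (h3.mono fun t ht => ht.le) h4).1 h6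
    have h8 : ∀ᵐ t ∂μ, False := by
      filter_upwards [h3, h7] with t ht ht'
      have h9 : 17 / 36 - D t = 0 := ht'
      linarith
    have h9 : ∃ t : X, False := h8.exists
    exact h9.elim fun _ h => h
  set φ : X → ℝ := Z.indicator fun _ => (1 : ℝ) with hφ
  have hφ01 : Inv01 S φ := inv01 S hD.inv (17 / 36)
  have hφZ : ∀ t, φ t = 1 → 17 / 36 ≤ D t := by
    intro t ht
    by_contra h
    have h1 : t ∉ Z := h
    rw [hφ, Set.indicator_of_notMem h1] at ht
    norm_num at ht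
  obtain ⟨m, hTM, hPP⟩ := hMn X _ μ hμ S
  obtain ⟨V, hV⟩ := hVo X _ μ hμ S m hTM (vv A) (vv_meas hA) (vv_abs A)
  have hVB : BM V := ⟨hV.meas, 1, hV.le⟩
  obtain ⟨e, he, -⟩ := hJe X _ μ hμ S (fun t => (1 - vv A t * V t) / 2)
    (bm_half (bm_mul (bm_vv hA) hVB))
  have hgr := hGr X _ μ hμ S m hTM hPP (vv A) V (vv_meas hA) (vv_sign A) hV e he
  obtain ⟨hez, hez2⟩ := hEz X _ μ hμ S m hTM hPP A hA hPF V e D hV he hD
  -- the size of `V`
  have hv0 : ∀ᵐ t ∂μ, φ t = 1 → (0.6085 : ℝ) ≤ |V t| := by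
    filter_upwards [hgr, hez] with t h1 h2 h3
    have h4 := hφZ t h3
    have h5 : 0 ≤ (D t - 17 / 36) * (D t - 1 / 36) := mul_nonneg (by linarith) (by linarith)
    have h6 : (0.6085 : ℝ) ^ 2 ≤ V t ^ 2 := by
      norm_num
      nlinarith
    have h7 := sq_le_sq.1 h6
    rwa [abs_of_nonneg (by norm_num : (0 : ℝ) ≤ 0.6085)] at h7
  -- every triple
  have htri : ∀ a b c : ℕ, PT a b c → ∀ᵐ t ∂μ, φ t = 1 →
      0 < V (S.T a t) * V (S.T b t) * V (S.T c t) := by
    intro a b c habc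
    obtain ⟨q, hq, -⟩ := hJe X _ μ hμ S
      (fun t => (1 - vv A (S.T a t) * vv A (S.T b t) * vv A (S.T c t)) / 2)
      (bm_half (bm_mul (bm_mul (bm_vvT S hA a) (bm_vvT S hA b)) (bm_vvT S hA c)))
    have h3 := hT3 X _ μ hμ S m hTM hPP A hA hPF D hD a b c habc q hq
    have hp0 : ∀ᵐ t ∂μ, φ t = 1 → q t ≤ 1 / 5 := by
      filter_upwards [h3] with t h4 h5
      exact odd_le (D t) (q t) (hφZ t h5) h4.1 h4.2
    exact hEx X _ μ hμ S m hTM hPP (vv A) V (vv_meas hA) (vv_sign A) hV φ hφ01 0.6085 (1 / 5)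
      (by norm_num) hv0 a b c habc.1 habc.2.1 habc.2.2.1 q hq hp0 (by norm_num)
  have hVn := hCt 15 hC X _ μ hμ S V φ hV.meas hφ01 htri
  have h10 := hez2 φ hφ01
  have h11 : 0 ≤ ∫ t, φ t * (A.indicator (fun _ => (1 : ℝ)) t * V t) ∂μ := by
    refine integral_nonneg_of_ae ?_
    filter_upwards [hVn] with t ht
    show 0 ≤ φ t * (A.indicator (fun _ => (1 : ℝ)) t * V t)
    rcases hφ01.2 t with h | h
    · rw [h, zero_mul]
    · rw [h, one_mul]
      refine mul_nonneg ?_ (ht h)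
      exact Set.indicator_nonneg (fun _ _ => zero_le_one) t
  have h12 : ∫ t, φ t * (D t - 4 * D t ^ 2) ∂μ ≤ ∫ t, φ t * (-(1 / 3)) ∂μ := by
    have hφB : BM φ := hφ01.1.1
    have hsq : BM fun t => D t - 4 * D t ^ 2 := by
      have h := bm_sub hDB (bm_mul (bm_const (X := X) 4) (bm_mul hDB hDB))
      have e : (fun t => D t - 4 * D t ^ 2) = fun t => D t - 4 * (D t * D t) := by
        funext t; ring
      rw [e]; exact h
    refine integral_mono (bm_int (bm_mul hφB hsq)) (bm_int (bm_mul hφB (bm_const _))) ?_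
    intro t
    show φ t * (D t - 4 * D t ^ 2) ≤ φ t * (-(1 / 3))
    rcases hφ01.2 t with h | h
    · rw [h, zero_mul, zero_mul]
    · have h4 := hφZ t h
      rw [h, one_mul, one_mul]
      nlinarith
  have h13 : ∫ t, φ t * (-(1 / 3)) ∂μ = -(1 / 3) * μ.real Z := by
    rw [integral_mul_const, hφ, integral_indicator_const _ hZm, smul_eq_mul]
    ring
  rw [h13] at h12
  rw [h10] at h11
  linarith

end Pool.Agent.F0f91f8.SV
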