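import Pool.Agent.Work.MP_0f91f8_co.SV.Stmts

/-!
# MP_0f91f8_co, block SV, item Vo: the vote function exists
-/

set_option autoImplicit false

noncomputable section

namespace Pool.Agent.F0f91f8.SV

open Filter Topology ComplexConjugate MeasureTheory
open Pool.Agent.F0f91f8.HD Pool.Agent.F0f91f8.RC Pool.Agent.F0f91f8.KR Pool.Agent.F0f91f8.FC
open Pool.Agent.F0f91f8.PC
open Pool.Agent.F0f91f8.SC (BM InvF IsJ vv PF RA)
open Pool.Agent.F0f91f8.BH (PT Cert)
open scoped BigOperators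

namespace XVo

/-- congruence of the mean -/
theorem m_congr {m : (ℕ → ℕ → ℕ → ℝ) → ℝ} (hm : TM m) {φ ψ : ℕ → ℕ → ℕ → ℝ} (hφ : B3 φ)
    (hψ : B3 ψ) (h : ∀ x y z, PT x y z → φ x y z = ψ x y z) : m φ = m ψ :=
  le_antisymm (hm.mono φ ψ hφ hψ fun x y z hp => (h x y z hp).le)
    (hm.mono ψ φ hψ hφ fun x y z hp => (h x y z hp).ge)

theorem b3_const (c : ℝ) : B3 (fun _ _ _ => c) := ⟨|c|, fun _ _ _ => le_rfl⟩

theorem m_const {m : (ℕ → ℕ → ℕ → ℝ) → ℝ} (hm : TM m) (c : ℝ) : m (fun _ _ _ => c) = c := by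
  have h := hm.smul c (fun _ _ _ => 1) (b3_const 1)
  rw [hm.one, mul_one] at h
  simpa using h

theorem m_le {m : (ℕ → ℕ → ℕ → ℝ) → ℝ} (hm : TM m) {φ : ℕ → ℕ → ℕ → ℝ} (hφ : B3 φ) (c : ℝ)
    (h : ∀ x y z, PT x y z → φ x y z ≤ c) : m φ ≤ c := by
  have := hm.mono φ (fun _ _ _ => c) hφ (b3_const c) h
  rwa [m_const hm] at this

theorem le_m {m : (ℕ → ℕ → ℕ → ℝ) → ℝ} (hm : TM m) {φ : ℕ → ℕ → ℕ → ℝ} (hφ : B3 φ) (c : ℝ)
    (h : ∀ x y z, PT x y z → c ≤ φ x y z) : c ≤ m φ := by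
  have := hm.mono (fun _ _ _ => c) φ (b3_const c) hφ h
  rwa [m_const hm] at this

variable {X : Type} [MeasurableSpace X] {μ : Measure X} [IsProbabilityMeasure μ]

theorem abs_int_le (f : Lp ℝ 2 μ) : ∫ t, |f t| ∂μ ≤ ‖f‖ := by
  have h1 : eLpNorm f 1 μ ≤ eLpNorm f 2 μ :=
    eLpNorm_le_eLpNorm_of_exponent_le (by norm_num) (Lp.aestronglyMeasurable f)
  have h2 : ∫ t, |f t| ∂μ = (eLpNorm f 1 μ).toReal := by
    rw [eLpNorm_one_eq_lintegral_enorm]
    have := integral_norm_eq_lintegral_enorm (μ := μ) (f := f) (Lp.aestronglyMeasurable f)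
    simpa [Real.norm_eq_abs] using this
  rw [h2, Lp.norm_def]
  exact ENNReal.toReal_mono (Lp.eLpNorm_ne_top f) h1

theorem lp_int (f : Lp ℝ 2 μ) : Integrable f μ := (Lp.memLp f).integrable (by norm_num)

/-- the products of votes are bounded -/
theorem ww_le {w : X → ℝ} (hw1 : ∀ x, |w x| ≤ 1) (a b : X) : |w a * w b| ≤ 1 := by
  rw [abs_mul]
  exact mul_le_one₀ (hw1 a) (abs_nonneg _) (hw1 b)

theorem int_fw (S : Sys μ) {w : X → ℝ} (hw : Measurable w) (hw1 : ∀ x, |w x| ≤ 1)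
    {f : X → ℝ} (hf : Integrable f μ) {x : ℕ} (hx : 0 < x) (y z : ℕ) :
    Integrable (fun t => f (S.T x t) * (w (S.T y t) * w (S.T z t))) μ := by
  have h1 : Integrable (fun t => f (S.T x t)) μ := (S.mp x hx).integrable_comp_of_integrable hf
  refine h1.mul_bdd (c := 1) ?_ ?_
  · exact (((hw.comp (S.T y).measurable).mul (hw.comp (S.T z).measurable))).aestronglyMeasurable
  · exact Eventually.of_forall fun t => by
      rw [Real.norm_eq_abs]
      exact ww_le hw1 _ _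

theorem fw_le (S : Sys μ) {w : X → ℝ} (hw : Measurable w) (hw1 : ∀ x, |w x| ≤ 1)
    {f : X → ℝ} (hf : Integrable f μ) {x : ℕ} (hx : 0 < x) (y z : ℕ) :
    |∫ t, f (S.T x t) * (w (S.T y t) * w (S.T z t)) ∂μ| ≤ ∫ t, |f t| ∂μ := by
  refine (abs_integral_le_integral_abs).trans ?_
  have h2 : ∫ t, |f (S.T x t)| ∂μ = ∫ t, |f t| ∂μ :=
    (S.mp x hx).integral_comp' (f := S.T x) (fun t => |f t|)
  rw [← h2]
  refine integral_mono (int_fw S hw hw1 hf hx y z).abs
    ((S.mp x hx).integrable_comp_of_integrable hf.abs) fun t => ?_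
  simp only
  rw [abs_mul]
  exact mul_le_of_le_one_right (abs_nonneg _) (ww_le hw1 _ _)

open Classical in
/-- the functions of the triple -/
def ph (S : Sys μ) (w : X → ℝ) (f : X → ℝ) (x y z : ℕ) : ℝ :=
  if 0 < x ∧ 0 < y ∧ 0 < z then ∫ t, f (S.T x t) * (w (S.T y t) * w (S.T z t)) ∂μ else 0

theorem ph_le (S : Sys μ) {w : X → ℝ} (hw : Measurable w) (hw1 : ∀ x, |w x| ≤ 1)
    (f : Lp ℝ 2 μ) (x y z : ℕ) : |ph S w f x y z| ≤ ‖f‖ := by
  unfold ph
  split_ifs with h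
  · exact (fw_le S hw hw1 (lp_int f) h.1 y z).trans (abs_int_le f)
  · simp

theorem ph_b3 (S : Sys μ) {w : X → ℝ} (hw : Measurable w) (hw1 : ∀ x, |w x| ≤ 1)
    (f : Lp ℝ 2 μ) : B3 (ph S w f) := ⟨‖f‖, ph_le S hw hw1 f⟩

theorem ph_congr (S : Sys μ) {w : X → ℝ} {f g : X → ℝ} (h : f =ᵐ[μ] g) (x y z : ℕ) :
    ph S w f x y z = ph S w g x y z := by
  unfold ph
  split_ifs with h0
  · apply integral_congr_ae
    filter_upwards [(S.mp x h0.1).quasiMeasurePreserving.ae_eq_comp h] with t ht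
    simp only [Function.comp] at ht
    rw [ht]
  · rfl

/-- the functional -/
def ell (S : Sys μ) {m : (ℕ → ℕ → ℕ → ℝ) → ℝ} (hm : TM m) {w : X → ℝ} (hw : Measurable w)
    (hw1 : ∀ x, |w x| ≤ 1) : Lp ℝ 2 μ →L[ℝ] ℝ :=
  LinearMap.mkContinuous
    { toFun := fun f => m (ph S w f)
      map_add' := fun f g => by
        rw [← hm.add _ _ (ph_b3 S hw hw1 f) (ph_b3 S hw hw1 g)]
        congr 1
        funext x y z
        rw [ph_congr S (Lp.coeFn_add f g)]
        unfold ph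
        split_ifs with h0
        · rw [← integral_add (int_fw S hw hw1 (lp_int f) h0.1 y z)
            (int_fw S hw hw1 (lp_int g) h0.1 y z)]
          congr 1
          funext t
          simp only [Pi.add_apply]
          ring
        · simp
      map_smul' := fun c f => by
        rw [RingHom.id_apply, smul_eq_mul, ← hm.smul c _ (ph_b3 S hw hw1 f)]
        congr 1
        funext x y z
        rw [ph_congr S (Lp.coeFn_smul c f)]
        unfold ph
        split_ifs with h0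
        · rw [← integral_const_mul]
          congr 1
          funext t
          simp only [Pi.smul_apply, smul_eq_mul]
          ring
        · simp }
    1 (fun f => by
      rw [one_mul, Real.norm_eq_abs, abs_le]
      refine ⟨le_m hm (ph_b3 S hw hw1 f) _ fun x y z _ => ?_,
        m_le hm (ph_b3 S hw hw1 f) _ fun x y z _ => ?_⟩
      · exact (abs_le.mp (ph_le S hw hw1 f x y z)).1
      · exact (abs_le.mp (ph_le S hw hw1 f x y z)).2)

theorem ell_apply (S : Sys μ) {m : (ℕ → ℕ → ℕ → ℝ) → ℝ} (hm : TM m) {w : X → ℝ}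
    (hw : Measurable w) (hw1 : ∀ x, |w x| ≤ 1) (f : Lp ℝ 2 μ) :
    ell S hm hw hw1 f = m (ph S w f) := rfl

theorem bm_memLp {G : X → ℝ} (hG : BM G) : MemLp G 2 μ := by
  obtain ⟨h1, C, hC⟩ := hG
  exact MemLp.of_bound h1.aestronglyMeasurable C
    (Eventually.of_forall fun t => by rw [Real.norm_eq_abs]; exact hC t)

theorem b3_G (S : Sys μ) {w : X → ℝ} (hw1 : ∀ x, |w x| ≤ 1) {G : X → ℝ} (hG : BM G) :
    B3 (fun x y z => ∫ t, G (S.T x t) * (w (S.T y t) * w (S.T z t)) ∂μ) := by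
  obtain ⟨h1, C, hC⟩ := hG
  refine ⟨C, fun x y z => ?_⟩
  have h2 := norm_integral_le_of_norm_le_const (μ := μ) (C := C)
    (f := fun t => G (S.T x t) * (w (S.T y t) * w (S.T z t))) (Eventually.of_forall fun t => by
      rw [Real.norm_eq_abs, abs_mul]
      refine (mul_le_mul (hC _) (ww_le hw1 _ _) (abs_nonneg _)
        ((abs_nonneg _).trans (hC (S.T x t)))).trans_eq (mul_one C))
  simpa using h2

/-- the identity for the Riesz vector -/
theorem riesz_eq (S : Sys μ) {m : (ℕ → ℕ → ℕ → ℝ) → ℝ} (hm : TM m) {w : X → ℝ}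
    (hw : Measurable w) (hw1 : ∀ x, |w x| ≤ 1) {G : X → ℝ} (hG : BM G) :
    m (fun x y z => ∫ t, G (S.T x t) * (w (S.T y t) * w (S.T z t)) ∂μ) =
      ∫ t, G t * ((InnerProductSpace.toDual ℝ (Lp ℝ 2 μ)).symm (ell S hm hw hw1) : Lp ℝ 2 μ) t ∂μ := by
  set V := (InnerProductSpace.toDual ℝ (Lp ℝ 2 μ)).symm (ell S hm hw hw1) with hV
  have h1 : ell S hm hw hw1 ((bm_memLp hG).toLp G) = inner ℝ V ((bm_memLp hG).toLp G) := by
    rw [hV, InnerProductSpace.toDual_symm_apply]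
  rw [ell_apply, L2.inner_def] at h1
  have h2 : m (ph S w ((bm_memLp (μ := μ) hG).toLp G)) =
      m (fun x y z => ∫ t, G (S.T x t) * (w (S.T y t) * w (S.T z t)) ∂μ) := by
    refine m_congr hm (ph_b3 S hw hw1 _) (b3_G S hw1 hG) fun x y z hp => ?_
    rw [ph_congr S (MemLp.coeFn_toLp (bm_memLp hG))]
    unfold ph
    rw [if_pos ⟨hp.1, hp.2.1, hp.2.2.1⟩]
  rw [← h2, h1]
  apply integral_congr_ae
  filter_upwards [MemLp.coeFn_toLp (bm_memLp (μ := μ) hG)] with t ht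
  rw [ht]
  simp

theorem ind_bm {s : Set X} (hs : MeasurableSet s) : BM (s.indicator fun _ => (1 : ℝ)) := by
  refine ⟨measurable_const.indicator hs, 1, fun t => ?_⟩
  by_cases h : t ∈ s
  · simp [h]
  · simp [h]

theorem ind_int (S : Sys μ) {w : X → ℝ} (hw : Measurable w) (hw1 : ∀ x, |w x| ≤ 1) {s : Set X}
    (hs : MeasurableSet s) {x : ℕ} (hx : 0 < x) (y z : ℕ) :
    |∫ t, (s.indicator fun _ => (1 : ℝ)) (S.T x t) * (w (S.T y t) * w (S.T z t)) ∂μ| ≤
      μ.real s := by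
  have h1 : Integrable (s.indicator fun _ => (1 : ℝ)) μ := (integrable_const 1).indicator hs
  refine (fw_le S hw hw1 h1 hx y z).trans ?_
  have h2 : (fun t => |(s.indicator fun _ => (1 : ℝ)) t|) = s.indicator fun _ => (1 : ℝ) := by
    funext t
    by_cases h : t ∈ s
    · simp [h]
    · simp [h]
  rw [h2, integral_indicator_const _ hs]
  simp

end XVo

open XVo in
theorem pr_Vo : StVo := by
  intro X _ μ _ S m hm w hw hw1
  set V₀ : Lp ℝ 2 μ := (InnerProductSpace.toDual ℝ (Lp ℝ 2 μ)).symm (ell S hm hw hw1) with hV₀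
  have hmeas : Measurable (V₀ : X → ℝ) := (Lp.stronglyMeasurable V₀).measurable
  have hint : Integrable V₀ μ := lp_int V₀
  have hset : ∀ s : Set X, MeasurableSet s → |∫ t in s, V₀ t ∂μ| ≤ μ.real s := by
    intro s hs
    have h1 := riesz_eq S hm hw hw1 (ind_bm hs)
    rw [← hV₀] at h1
    have h2 : ∫ t, (s.indicator fun _ => (1 : ℝ)) t * V₀ t ∂μ = ∫ t in s, V₀ t ∂μ := by
      rw [← integral_indicator hs]
      congr 1
      funext t
      by_cases h : t ∈ s
      · simp [h]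
      · simp [h]
    rw [← h2, ← h1, abs_le]
    refine ⟨le_m hm (b3_G S hw1 (ind_bm hs)) _ fun x y z hp => ?_,
      m_le hm (b3_G S hw1 (ind_bm hs)) _ fun x y z hp => ?_⟩
    · exact (abs_le.mp (ind_int S hw hw1 hs hp.1 y z)).1
    · exact (abs_le.mp (ind_int S hw hw1 hs hp.1 y z)).2
  have hle : (V₀ : X → ℝ) ≤ᵐ[μ] fun _ => (1 : ℝ) := by
    refine ae_le_of_forall_setIntegral_le hint (integrable_const 1) fun s hs _ => ?_
    refine (abs_le.mp (hset s hs)).2.trans_eq ?_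
    simp
  have hge : (fun _ => (-1 : ℝ)) ≤ᵐ[μ] (V₀ : X → ℝ) := by
    refine ae_le_of_forall_setIntegral_le (integrable_const _) hint fun s hs _ => ?_
    refine le_trans (le_of_eq ?_) (abs_le.mp (hset s hs)).1
    simp
  refine ⟨fun t => max (-1) (min 1 (V₀ t)), ?_, ?_, ?_⟩
  · exact measurable_const.max (measurable_const.min hmeas)
  · intro t
    rw [abs_le]
    exact ⟨le_max_left _ _, max_le (by norm_num) (min_le_left _ _)⟩
  · intro G hG
    rw [riesz_eq S hm hw hw1 hG, ← hV₀]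
    apply integral_congr_ae
    filter_upwards [hle, hge] with t h1 h2
    rw [min_eq_right h1, max_eq_right h2]

end Pool.Agent.F0f91f8.SV
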