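import Pool.Agent.Work.MP_0f91f8_co.SC.All
import Pool.Agent.Work.MP_0f91f8_co.BH.I_Ce
import Pool.Agent.Work.MP_0f91f8_co.K.I_Nst
import Pool.Agent.Work.MP_0f91f8_co.SV.I_Cf
import Pool.Agent.Work.MP_0f91f8_co.SV.I_Ct
import Pool.Agent.Work.MP_0f91f8_co.SV.I_Ex
import Pool.Agent.Work.MP_0f91f8_co.SV.I_Ez
import Pool.Agent.Work.MP_0f91f8_co.SV.I_Gr
import Pool.Agent.Work.MP_0f91f8_co.SV.I_Kn
import Pool.Agent.Work.MP_0f91f8_co.SV.I_Mm
import Pool.Agent.Work.MP_0f91f8_co.SV.I_Mn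
import Pool.Agent.Work.MP_0f91f8_co.SV.I_Rs
import Pool.Agent.Work.MP_0f91f8_co.SV.I_T3
import Pool.Agent.Work.MP_0f91f8_co.SV.I_Th
import Pool.Agent.Work.MP_0f91f8_co.SV.I_Vo

/-!
# Block SV (self correction by votes): composition, no hypotheses (helper48)
-/

set_option autoImplicit false

namespace Pool.Agent.F0f91f8.SV

open Pool.Agent.F0f91f8.PC

/-- means on the triples exist -/
theorem all_Mn : StMn := pr_Mn SC.all_Ra SC.all_Lx SC.all_Ly KR.pr_Nst

/-- the grid of nine points -/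
theorem all_Gr : StGr := pr_Gr SC.all_Je SC.pr_Jm SC.pr_Jl

/-- exact relations for the sign of the mean vote -/
theorem all_Ex : StEx := pr_Ex SC.all_Je SC.pr_Jm SC.pr_Jl

/-- every triple is rarely odd -/
theorem all_T3 : StT3 := pr_T3 (pr_Kn SC.pr_Jl) SC.all_Je SC.pr_Jm SC.pr_Jl

/-- ergodic form -/
theorem all_SVX : SVX :=
  pr_Th BH.pr_Ce all_Mn pr_Vo all_Gr (pr_Ez SC.pr_Jl) all_Ex all_T3 pr_Ct SC.all_Je

/-- for means -/
theorem all_SVM : SVM := pr_Mm all_SysS all_VUn all_SVX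

/-- the finite form -/
theorem all_SVF : SVF := pr_Cf all_SVM

/-- the finite form for positive integers -/
theorem all_ResSV : ResSV := pr_Rs all_SVF

end Pool.Agent.F0f91f8.SV
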