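import Pool.Agent.Work.MP_0f91f8_co.SC.Stmts
import Pool.Agent.Work.MP_0f91f8_co.K.StmtsW
import Pool.Agent.Work.MP_0f91f8_co.BH.Defs

/-!
# MP_0f91f8_co, block SV (self correction by votes): definitions and the finite kernel

THEOREM SV.  Every set of positive integers of multiplicative upper Banach density `≥ 17/36 = 0.4722..` contains `x, y, z` with
`x² + y² = z²`.  The block is built on block SC (helper75): `BM`, `InvF`, `IsJ`, `vv`, `PF`, `RA`, `StRa`, `StJe`, `StJm`,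
`StJl`, `StLx`, `StLy` (all proved).

`S : Sys μ` is a system of `PC/Defs.lean`: measure preserving maps `S.T n` (`n > 0`) with `S.T (m n) = S.T m ∘ S.T n`, so the
maps commute; each `S.T n` is a measurable equivalence.  A TRIPLE is `PT x y z` (positive integers, `x² + y² = z²`).
-/

set_option autoImplicit false

noncomputable section

namespace Pool.Agent.F0f91f8.SV

open Filter Topology ComplexConjugate MeasureTheory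
open Pool.Agent.F0f91f8.HD Pool.Agent.F0f91f8.RC Pool.Agent.F0f91f8.KR Pool.Agent.F0f91f8.FC
open Pool.Agent.F0f91f8.PC
open Pool.Agent.F0f91f8.SC (BM InvF IsJ vv PF RA)
open Pool.Agent.F0f91f8.BH (PT Cert)
open scoped BigOperators

/-- bounded functions of `x, y, z` -/
def B3 (φ : ℕ → ℕ → ℕ → ℝ) : Prop := ∃ C : ℝ, ∀ x y z, |φ x y z| ≤ C

/-- a mean on the set of all triples -/
structure TM (m : (ℕ → ℕ → ℕ → ℝ) → ℝ) : Prop where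
  add : ∀ φ ψ, B3 φ → B3 ψ → m (fun x y z => φ x y z + ψ x y z) = m φ + m ψ
  smul : ∀ (c : ℝ) φ, B3 φ → m (fun x y z => c * φ x y z) = c * m φ
  mono : ∀ φ ψ, B3 φ → B3 ψ → (∀ x y z, PT x y z → φ x y z ≤ ψ x y z) → m φ ≤ m ψ
  one : m (fun _ _ _ => 1) = 1

section
variable {X : Type} [MeasurableSpace X] {μ : Measure X}

/-- EXACT PAIRS: `x, y` and `x, z` are asymptotically independent over the invariant sets, `y, z` positively correlated -/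
def PP (S : Sys μ) (m : (ℕ → ℕ → ℕ → ℝ) → ℝ) : Prop := ∀ f g J G : X → ℝ, BM f → BM g →
  IsJ S f J → IsJ S g G →
  m (fun x y _ => ∫ t, f (S.T x t) * g (S.T y t) ∂μ) = ∫ t, J t * G t ∂μ ∧
  m (fun x _ z => ∫ t, f (S.T x t) * g (S.T z t) ∂μ) = ∫ t, J t * G t ∂μ ∧
  ∫ t, J t ^ 2 ∂μ ≤ m (fun _ y z => ∫ t, f (S.T y t) * f (S.T z t) ∂μ)

/-- `V` is the mean vote: the weak limit of `t ↦ w (T y (T x)⁻¹ t) w (T z (T x)⁻¹ t)` -/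
structure IsV (S : Sys μ) (m : (ℕ → ℕ → ℕ → ℝ) → ℝ) (w V : X → ℝ) : Prop where
  meas : Measurable V
  le : ∀ x, |V x| ≤ 1
  eq : ∀ G : X → ℝ, BM G →
    m (fun x y z => ∫ t, G (S.T x t) * (w (S.T y t) * w (S.T z t)) ∂μ) = ∫ t, G t * V t ∂μ

/-- the indicator function of an invariant set -/
def Inv01 (S : Sys μ) (φ : X → ℝ) : Prop := InvF S φ ∧ ∀ t, φ t = 0 ∨ φ t = 1

end

/-! ## The finite kernel

Types `0`: none of `a, b, c`; `1, 2, 3`: only `a`, only `b`, only `c`; `4, 5, 6`: `b, c`; `a, c`; `a, b`. -/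

/-- the kernel for the pairs `x, y` and `x, z` -/
def MZ : Fin 7 → Fin 7 → ℤ := ![![-2,-4,-4,-4,-9,-9,-9], ![-5,5,-11,-11,-9,5,5], ![-5,-11,5,-11,5,-9,5],
  ![-5,-11,-11,5,5,5,-9], ![-2,-4,0,0,2,-2,-2], ![-2,0,-4,0,-2,2,-2], ![-2,0,0,-4,-2,-2,2]]

/-- the functions for the pair `y, z`; `gZ 1`, `gZ 2`, `gZ 3` are the indicator functions of `a`, `b`, `c` -/
def gZ : Fin 10 → Fin 7 → ℤ := ![![1,0,0,0,0,0,0], ![0,1,0,0,0,1,1], ![0,0,1,0,1,0,1], ![0,0,0,1,1,1,0],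
  ![0,0,0,0,1,-1,0], ![0,0,0,0,1,0,-1], ![0,0,0,0,0,1,-1], ![0,1,0,0,1,0,0], ![0,0,1,0,0,1,0],
  ![0,0,0,1,0,0,1]]

/-- their weights -/
def cZ : Fin 10 → ℤ := ![4,6,6,6,2,2,2,2,2,2]

/-- THE FINITE CHECK: three types without a letter in all of them -/
theorem fin_check : ∀ i j k : Fin 7, ¬(gZ 1 i = 1 ∧ gZ 1 j = 1 ∧ gZ 1 k = 1) →
    ¬(gZ 2 i = 1 ∧ gZ 2 j = 1 ∧ gZ 2 k = 1) → ¬(gZ 3 i = 1 ∧ gZ 3 j = 1 ∧ gZ 3 k = 1) →
    MZ i j + MZ i k + ∑ l, cZ l * (gZ l j * gZ l k) ≤ 0 := by decide +kernel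

/-- the measures of the seven types, `k1 = κ(b,c)`, `k2 = κ(a,c)`, `k3 = κ(a,b)` -/
def nu (d k1 k2 k3 : ℝ) : Fin 7 → ℝ :=
  ![1 - 3 * d + (k1 + k2 + k3), d - k2 - k3, d - k1 - k3, d - k1 - k2, k1, k2, k3]

/-- THE VALUE OF THE KERNEL -/
theorem kern_val (d k1 k2 k3 : ℝ) :
    2 * ∑ i, ∑ j, (MZ i j : ℝ) * (nu d k1 k2 k3 i * nu d k1 k2 k3 j) +
      ∑ l, (cZ l : ℝ) * (∑ i, (gZ l i : ℝ) * nu d k1 k2 k3 i) ^ 2 =
    84 * d ^ 2 - 54 * d + 14 * (k1 + k2 + k3) + 30 * d * (k1 + k2 + k3) - 28 * (k1 + k2 + k3) ^ 2 +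
      6 * ((k1 - k2) ^ 2 + (k1 - k3) ^ 2 + (k2 - k3) ^ 2) := by
  simp [MZ, gZ, cZ, nu, Fin.sum_univ_succ]
  ring

/-- THE ARITHMETIC of an odd triple -/
theorem odd_le (D q : ℝ) (hD : 17 / 36 ≤ D)
    (h : 33 * D * (2 * D - 1) + (27 * D - 7) * q - 7 * q ^ 2 ≤ 0) (hq : q ≤ 2 - 3 * D) :
    q ≤ 1 / 5 := by
  by_contra hc
  push Not at hc
  have hb : 0 < 2 - 3 * D - 1 / 5 := by linarith
  have h1 : 0 < 33 * D * (2 * D - 1) + (27 * D - 7) * (1 / 5) - 7 * (1 / 5) ^ 2 := by nlinarith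
  have h2 : 0 < 33 * D * (2 * D - 1) + (27 * D - 7) * (2 - 3 * D) - 7 * (2 - 3 * D) ^ 2 := by
    nlinarith
  have h3 : (2 - 3 * D - 1 / 5) * (33 * D * (2 * D - 1) + (27 * D - 7) * q - 7 * q ^ 2) =
      (2 - 3 * D - q) * (33 * D * (2 * D - 1) + (27 * D - 7) * (1 / 5) - 7 * (1 / 5) ^ 2) +
      (q - 1 / 5) * (33 * D * (2 * D - 1) + (27 * D - 7) * (2 - 3 * D) - 7 * (2 - 3 * D) ^ 2) +
      7 * (2 - 3 * D - 1 / 5) * (q - 1 / 5) * (2 - 3 * D - q) := by ring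
  have h4 : 0 ≤ (2 - 3 * D - q) *
      (33 * D * (2 * D - 1) + (27 * D - 7) * (1 / 5) - 7 * (1 / 5) ^ 2) :=
    mul_nonneg (by linarith) h1.le
  have h5 : 0 < (q - 1 / 5) *
      (33 * D * (2 * D - 1) + (27 * D - 7) * (2 - 3 * D) - 7 * (2 - 3 * D) ^ 2) :=
    mul_pos (by linarith) h2
  have h6 : 0 ≤ 7 * (2 - 3 * D - 1 / 5) * (q - 1 / 5) * (2 - 3 * D - q) :=
    mul_nonneg (mul_nonneg (by linarith) (by linarith)) (by linarith)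
  have h7 : (2 - 3 * D - 1 / 5) * (33 * D * (2 * D - 1) + (27 * D - 7) * q - 7 * q ^ 2) ≤ 0 :=
    mul_nonpos_of_nonneg_of_nonpos hb.le h
  linarith

/-! ## The theorem -/

/-- for systems -/
def SVX : Prop := ∀ (X : Type) (_ : MeasurableSpace X) (μ : Measure X) (_ : IsProbabilityMeasure μ)
  (S : Sys μ) (A : Set X), MeasurableSet A → PF S A → μ.real A < 17 / 36

/-- for means -/
def SVM : Prop := ∀ m : (ℕ → ℝ) → ℝ, IsMean m → ∀ A : Set ℕ, 17 / 36 ≤ m (ind A) →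
  ∃ x y z : ℕ, 0 < x ∧ 0 < y ∧ 0 < z ∧ x ^ 2 + y ^ 2 = z ^ 2 ∧
    0 < m (ind {n | x * n ∈ A ∧ y * n ∈ A ∧ z * n ∈ A})

open Classical in
/-- the finite form -/
def SVF : Prop := ∃ (k : ℕ) (δ c : ℝ), 0 < δ ∧ 0 < c ∧ ∀ F : Finset ℕ, F.Nonempty → (∀ n ∈ F, 0 < n) →
  (∀ p ≤ k, p.Prime → (1 - δ) * (F.card : ℝ) ≤ ((F.filter fun n => p * n ∈ F).card : ℝ)) →
  ∀ A : Finset ℕ, A ⊆ F → 17 * F.card ≤ 36 * A.card →
  ∃ x y z : ℕ, 0 < x ∧ 0 < y ∧ 0 < z ∧ x ≤ k ∧ y ≤ k ∧ z ≤ k ∧ x ^ 2 + y ^ 2 = z ^ 2 ∧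
    c * (F.card : ℝ) ≤ ((F.filter fun n => x * n ∈ A ∧ y * n ∈ A ∧ z * n ∈ A).card : ℝ)

/-- the statement of the hand-in -/
def ResSV : Prop := ∃ (k : ℕ) (δ c : ℝ), 0 < δ ∧ 0 < c ∧ ∀ F : Finset ℕ+, F.Nonempty →
  (∀ p : ℕ+, (p : ℕ) ≤ k → (p : ℕ).Prime →
    (1 - δ) * (F.card : ℝ) ≤ ((F.filter fun n => p * n ∈ F).card : ℝ)) →
  ∀ A : Finset ℕ+, A ⊆ F → 17 * F.card ≤ 36 * A.card →
  ∃ x y z : ℕ+, (x : ℕ) ≤ k ∧ (y : ℕ) ≤ k ∧ (z : ℕ) ≤ k ∧ x ^ 2 + y ^ 2 = z ^ 2 ∧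
    c * (F.card : ℝ) ≤ ((F.filter fun n => x * n ∈ A ∧ y * n ∈ A ∧ z * n ∈ A).card : ℝ)

end Pool.Agent.F0f91f8.SV
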