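import Pool.Agent.Work.MP_0f91f8_co.SV.Stmts

/-!
# MP_0f91f8_co, block SV, item Mn: the mean on the triples
-/

set_option autoImplicit false

noncomputable section

namespace Pool.Agent.F0f91f8.SV

open Filter Topology ComplexConjugate MeasureTheory
open Pool.Agent.F0f91f8.HD Pool.Agent.F0f91f8.RC Pool.Agent.F0f91f8.KR Pool.Agent.F0f91f8.FC
open Pool.Agent.F0f91f8.PC
open Pool.Agent.F0f91f8.SC (BM InvF IsJ vv PF RA)
open Pool.Agent.F0f91f8.BH (PT Cert)
open scoped BigOperators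

namespace XMn

/-- nothing false holds in the sense of nested limits -/
theorem nest_false : ¬ Nest fun _ _ _ => False := by
  intro h
  obtain ⟨w, hw⟩ := Filter.Eventually.exists h
  obtain ⟨K, hK⟩ := Filter.Eventually.exists hw
  obtain ⟨M, hM⟩ := Filter.Eventually.exists hK
  exact hM

theorem nest_true : Nest fun _ _ _ => True :=
  Filter.Eventually.of_forall fun _ => Filter.Eventually.of_forall fun _ =>
    Filter.Eventually.of_forall fun _ => trivial

/-- an ultrafilter finer than the nested limits -/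
theorem exU (hNs : StNst) : ∃ U : Ultrafilter (ℕ × ℕ × ℕ), ∀ P : ℕ → ℕ → ℕ → Prop, Nest P →
    ∀ᶠ p in (U : Filter (ℕ × ℕ × ℕ)), P p.1 p.2.1 p.2.2 := by
  let N : Filter (ℕ × ℕ × ℕ) :=
    { sets := {s | Nest fun w K M => (w, K, M) ∈ s}
      univ_sets := nest_true
      sets_of_superset := fun {s t} hs hst =>
        hNs.1 _ _ (fun w K M _ _ _ h => hst h) hs
      inter_sets := fun {s t} hs ht => hNs.2.1 _ _ hs ht }
  have hN : N.NeBot := by
    rw [Filter.neBot_iff]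
    intro h
    have h1 : (∅ : Set (ℕ × ℕ × ℕ)) ∈ N := by rw [h]; exact Filter.mem_bot
    exact nest_false h1
  refine ⟨Ultrafilter.of N, fun P hP => ?_⟩
  have h1 : {p : ℕ × ℕ × ℕ | P p.1 p.2.1 p.2.2} ∈ N := hP
  exact Ultrafilter.of_le N h1

end XMn

open XMn in
/-- item Mn: the mean -/
theorem pr_Mn (hRa : SC.StRa) (hLx : SC.StLx) (hLy : SC.StLy) (hNs : StNst) : StMn := by
  intro X _ μ _ S
  obtain ⟨U, hU⟩ := exU hNs
  have hpos : ∀ᶠ p in (U : Filter (ℕ × ℕ × ℕ)), 0 < p.2.1 ∧ 0 < p.2.2 :=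
    hU (fun _ K M => 0 < K ∧ 0 < M) (hNs.1 _ _ (fun _ _ _ _ hK hM _ => ⟨hK, hM⟩) nest_true)
  let R : (ℕ → ℕ → ℕ → ℝ) → ℕ × ℕ × ℕ → ℝ := fun φ p => RA p.1 p.2.1 p.2.2 φ
  let m : (ℕ → ℕ → ℕ → ℝ) → ℝ := fun φ => limUnder (U : Filter (ℕ × ℕ × ℕ)) (R φ)
  have hval : ∀ φ (c : ℝ), Tendsto (R φ) (U : Filter (ℕ × ℕ × ℕ)) (𝓝 c) → m φ = c :=
    fun φ c h => h.limUnder_eq
  have hlim : ∀ φ, B3 φ → Tendsto (R φ) (U : Filter (ℕ × ℕ × ℕ)) (𝓝 (m φ)) := by
    intro φ ⟨C, hC⟩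
    have hmem : ∀ᶠ p in (U : Filter (ℕ × ℕ × ℕ)), R φ p ∈ Set.Icc (-C) C := by
      filter_upwards [hpos] with p hp
      obtain ⟨_, _, h3, h4⟩ := hRa p.1 p.2.1 p.2.2 hp.1 hp.2
      constructor
      · have h5 := h4 (fun _ _ _ => -C) φ (fun x y z _ _ _ _ => (abs_le.mp (hC x y z)).1)
        rw [h3] at h5
        exact h5
      · have h5 := h4 φ (fun _ _ _ => C) (fun x y z _ _ _ _ => (abs_le.mp (hC x y z)).2)
        rw [h3] at h5
        exact h5
    obtain ⟨x, _, h⟩ := isCompact_Icc.ultrafilter_le_nhds (s := Set.Icc (-C) C) (U.map (R φ)) (by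
      rw [le_principal_iff, Ultrafilter.coe_map, mem_map]
      exact hmem)
    have h1 : Tendsto (R φ) (U : Filter (ℕ × ℕ × ℕ)) (𝓝 x) := h
    rw [hval φ x h1]
    exact h1
  refine ⟨m, ⟨?_, ?_, ?_, ?_⟩, ?_⟩
  · intro φ ψ hφ hψ
    refine hval _ _ (((hlim φ hφ).add (hlim ψ hψ)).congr' ?_)
    filter_upwards [hpos] with p hp
    exact ((hRa p.1 p.2.1 p.2.2 hp.1 hp.2).1 φ ψ).symm
  · intro c φ hφ
    refine hval _ _ (((hlim φ hφ).const_mul c).congr' ?_)
    filter_upwards [hpos] with p hp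
    exact ((hRa p.1 p.2.1 p.2.2 hp.1 hp.2).2.1 c φ).symm
  · intro φ ψ hφ hψ h
    refine le_of_tendsto_of_tendsto (hlim φ hφ) (hlim ψ hψ) ?_
    filter_upwards [hpos] with p hp
    exact (hRa p.1 p.2.1 p.2.2 hp.1 hp.2).2.2.2 φ ψ
      (fun x y z hx hy hz he => h x y z ⟨hx, hy, hz, he⟩)
  · refine hval _ _ (tendsto_const_nhds.congr' ?_)
    filter_upwards [hpos] with p hp
    exact ((hRa p.1 p.2.1 p.2.2 hp.1 hp.2).2.2.1 1).symm
  · intro f g J G hf hg hJ hG
    have habs : ∀ (φ : ℕ → ℕ → ℕ → ℝ) (c : ℝ),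
        (∀ ε : ℝ, 0 < ε → ∀ᶠ p in (U : Filter (ℕ × ℕ × ℕ)), |R φ p - c| ≤ ε) → m φ = c := by
      intro φ c h
      refine hval φ c (Metric.tendsto_nhds.mpr fun ε hε => ?_)
      filter_upwards [h (ε / 2) (half_pos hε)] with p hp
      rw [Real.dist_eq]
      exact lt_of_le_of_lt hp (half_lt_self hε)
    refine ⟨?_, ?_, ?_⟩
    · refine habs _ _ fun ε hε => ?_
      exact (hU _ (hLx X _ μ inferInstance S f g J G hf hg hJ hG ε hε)).mono fun p hp => hp.1
    · refine habs _ _ fun ε hε => ?_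
      exact (hU _ (hLx X _ μ inferInstance S f g J G hf hg hJ hG ε hε)).mono fun p hp => hp.2
    · have hB : B3 fun _ y z => ∫ t, f (S.T y t) * f (S.T z t) ∂μ := by
        obtain ⟨_, C, hC⟩ := hf
        refine ⟨C * C, fun _ y z => ?_⟩
        have h1 : ∀ t, ‖f (S.T y t) * f (S.T z t)‖ ≤ C * C := by
          intro t
          rw [norm_mul, Real.norm_eq_abs, Real.norm_eq_abs]
          exact mul_le_mul (hC _) (hC _) (abs_nonneg _) ((abs_nonneg _).trans (hC (S.T y t)))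
        have h2 := norm_integral_le_of_norm_le_const (μ := μ) (Filter.Eventually.of_forall h1)
        rw [probReal_univ, mul_one, Real.norm_eq_abs] at h2
        exact h2
      refine le_of_forall_pos_le_add fun ε hε => ?_
      have h3 := ge_of_tendsto (hlim _ hB) (hU _ (hLy X _ μ inferInstance S f J hf hJ ε hε))
      linarith

end Pool.Agent.F0f91f8.SV
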