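import Pool.Agent.Work.MP_0f91f8_co.SV.Defs

/-!
# MP_0f91f8_co, block SV (self correction by votes): the items

An item `NAME` is a theorem `pr_NAME : StNAME` (hypotheses: the statements named in the docstring, in that order) in the file
`SV/I_NAME.lean`, namespace `Pool.Agent.F0f91f8.SV`, auxiliary lemmas in the namespace `Pool.Agent.F0f91f8.SV.XNAME`; import this
file.  Nobody waits for another item: other items are hypotheses.

GENERAL REMARKS.  `S.T n` (`n > 0`) preserves `μ` and is a measurable equivalence, so `∫ φ (S.T n t) dμ = ∫ φ dμ` for ALL `φ`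
(`(S.mp n hn).integral_comp'`), also for its inverse.  `S.T (a b) t = S.T a (S.T b t) = S.T b (S.T a t)` (`S.mul`, `mul_comm`).  All functions are
bounded and measurable (`BM`) and `μ` is a probability measure, so everything is integrable, and the functions of `x, y, z` to which `m` is applied
are bounded (`B3`), also for `x = 0` etc. (the integral of a function bounded by `C` is at most `C`).  From `TM`: two `B3` functions which agree on all triples `PT x y z` have the same `m`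
(`mono` twice); `m` of a constant `c` is `c`; `m` of finite sums.  ABOUT `IsJ` (conditional expectations with respect to the invariant sets): existence `SC.StJe`, monotonicity and uniqueness `SC.StJm`, rules `SC.StJl` (linear, constants,
`φ f` for invariant `φ`, `f ∘ S.T n`); the definition `IsJ.int`: `∫ φ f = ∫ φ J` for invariant `φ`; `J` itself is invariant, so `∫ J_g f = ∫ J_g J_f`.  If `H` is an invariant function (`InvF`) and `∫ φ H ≤ 0` for all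
`φ` with `Inv01 S φ`, then `H ≤ 0` almost everywhere (`φ` = the indicator function of `{H > 0}`).
-/

set_option autoImplicit false

noncomputable section

namespace Pool.Agent.F0f91f8.SV

open Filter Topology ComplexConjugate MeasureTheory
open Pool.Agent.F0f91f8.HD Pool.Agent.F0f91f8.RC Pool.Agent.F0f91f8.KR Pool.Agent.F0f91f8.FC
open Pool.Agent.F0f91f8.PC
open Pool.Agent.F0f91f8.SC (BM InvF IsJ vv PF RA)
open Pool.Agent.F0f91f8.BH (PT Cert)
open scoped BigOperators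

/-! ## 1. The mean on the triples -/

/-- **Mn** (EASY-MEDIUM).  The mean.  `(hRa : SC.StRa) (hLx : SC.StLx) (hLy : SC.StLy) (hNs : StNst)`.
The sets `s ⊆ ℕ × ℕ × ℕ` with `Nest fun w K M => (w, K, M) ∈ s` form a proper filter (`StNst` of `K/StmtsW.lean`, or directly three times `Filter.Eventually`); let `U` be an ultrafilter finer than it, so everything that holds in
the sense of `Nest` holds `∀ᶠ p in U`.  `m φ` is the limit along `U` of `RA w K M φ` if it exists, and `0` otherwise; it exists for `B3` functions: `|RA w K M φ| ≤ C` for `K, M > 0` by `StRa` (monotone, constants), compactness of `[-C, C]`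
(see `EF/Ulm.lean`, `ulim`).  `add`, `smul`, `mono`, `one` from `StRa` and uniqueness of limits.  `PP`: `StLx`, `StLy` say that for every `ε > 0` the inequality with `ε` holds `∀ᶠ p in U`; so the limits are as stated. -/
def StMn : Prop := ∀ (X : Type) (_ : MeasurableSpace X) (μ : Measure X) (_ : IsProbabilityMeasure μ)
  (S : Sys μ), ∃ m : (ℕ → ℕ → ℕ → ℝ) → ℝ, TM m ∧ PP S m

/-! ## 2. Votes -/

/-- **Vo** (MEDIUM).  The vote function exists (Riesz).  For `f` in `Lp ℝ 2 μ` let `ℓ f = m (φ_f)`, `φ_f x y z = ∫ f(T x) w(T y) w(T z) dμ` if `x, y, z > 0`, and `0` otherwise.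
It depends only on the class of `f` (`T x` preserves `μ`), `|φ_f| ≤ ∫ |f| ≤ ‖f‖` (Cauchy-Schwarz, probability measure), so `φ_f` is `B3`, `ℓ` is linear and `|ℓ f| ≤ ‖f‖` (`mono` with constants).
Riesz (`InnerProductSpace.toDual`): `V₀` in `Lp ℝ 2 μ` with `ℓ f = ∫ f V₀`.  For `G` in `BM` the class of `G` has `ℓ G = m (fun x y z => ∫ G(T x) (w(T y) w(T z)))` (the functions agree on triples).
`V₀ ≤ 1` almost everywhere: `E = {V₀ > 1}`, `∫_E V₀ = ℓ 1_E ≤ m (μ E) = μ E`, so `∫_E (V₀ - 1) ≤ 0` and `μ E = 0`; likewise `V₀ ≥ -1`.  `V` is a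
measurable version of `V₀`, cut off: `max (-1) (min 1 V₀)`. -/
def StVo : Prop := ∀ (X : Type) (_ : MeasurableSpace X) (μ : Measure X) (_ : IsProbabilityMeasure μ)
  (S : Sys μ) (m : (ℕ → ℕ → ℕ → ℝ) → ℝ), TM m → ∀ w : X → ℝ, Measurable w → (∀ x, |w x| ≤ 1) →
  ∃ V : X → ℝ, IsV S m w V

/-- **Gr** (MEDIUM).  The grid of nine points.  `(hJe : SC.StJe) (hJm : SC.StJm) (hJl : SC.StJl)`.  CLAIM: `∫ G (1 - V²) ≤ 8 ∫ G e` for all `G ≥ 0` in `BM`; the statement follows with `G` the indicator function of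
`{1 - V² > 8 e}`.  Write `w_n = w (T n s)`, `e₀ = (1 - w V)/2`, and `J_G` for the `IsJ` function of `G`.
(1) `IsV.eq` with the test function `G V`, and `T x` preserves `μ`: `∫ G V² = m_{xyz} ∫ (G V)(T x t) w(T y t) w(T z t) dt = m_{xyz} ∫ V (G v) du` where
`v(u) = w(T y (T x)⁻¹ u) w(T z (T x)⁻¹ u)`.  `IsV.eq` with the test function `G v` (`x, y, z` fixed; it is in `BM`): `= m_{xyz} m_{x'y'z'} ∫ (G v)(T x' t) w(T y' t) w(T z' t) dt`. Substitute `t = T x s`: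
`∫ G V² = m_{xyz} m_{x'y'z'} ∫ G(T (x x') s) w_{y x'} w_{z x'} w_{x y'} w_{x z'} ds`.
(2) Let `r(s) = (1 - w_x w_y w_z)/2`, `r'(s) = (1 - w_{x'} w_{y'} w_{z'})/2`, both with values in `{0, 1}`.  The product of the four relations
`w_{x'y} w_{y'y} w_{z'y}`, `w_{x'z} w_{y'z} w_{z'z}`, `w_{x y'} w_{y y'} w_{z y'}`, `w_{x z'} w_{y z'} w_{z z'}` is `w_{y x'} w_{z x'} w_{x y'} w_{x z'}`, so
`1 - w_{y x'} w_{z x'} w_{x y'} w_{x z'} ≤ 2 (r'(T y s) + r'(T z s) + r(T y' s) + r(T z' s))`.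
(3) So `∫ G (1 - V²) = m m ∫ G(T (x x')) (1 - ..) ≤ 2 (a + b + c + d)`, with
`a = m_{xyz} m_{x'y'z'} ∫ (G ∘ T x)(T x' s) r(T y' s) ds = m_{xyz} ∫ J_G J_r = m_{xyz} ∫ J_G r` by the first clause of `PP` (`J_G` is also the function of `G ∘ T x`; `x, y, z` fixed). Since `J_G(s) = J_G(T x s)` almost everywhere,
`∫ J_G r = (∫ J_G - ∫ (J_G w)(T x s) w_y w_z ds)/2`, and `m` of it is `(∫ J_G - ∫ J_G w V)/2 = ∫ J_G e₀` (`IsV.eq` with `J_G w`); so `a = ∫ J_G e₀ = ∫ J_G e`;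
`b` the same with `z'` (second clause of `PP`);
`c = m_{xyz} m_{x'y'z'} ∫ G(T x T x' s) r'(T y s) ds`; substitute `s = (T y)⁻¹ u`, `G₁ = G ∘ T x ∘ (T y)⁻¹`: the integral is `∫ G₁(T x' u) (1 - w(T x' u) w(T y' u) w(T z' u))/2 du`, and
`m_{x'y'z'}` of it is `(∫ G₁ - ∫ G₁ w V)/2 = ∫ G₁ e₀` (`IsV.eq` with the test function `G₁ w`; `∫ G₁(T x' u) du = ∫ G₁`); `∫ G₁ e₀ = ∫ G(T x v) e₀(T y v) dv` (`u = T y v`), so by `PP`
`c = ∫ J_G e`;  `d` the same with `z` instead of `y` (second clause of `PP`).  Finally `∫ J_G e = ∫ G e` (`IsJ.int` of `G` for the invariant function `e`). -/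
def StGr : Prop := ∀ (X : Type) (_ : MeasurableSpace X) (μ : Measure X) (_ : IsProbabilityMeasure μ)
  (S : Sys μ) (m : (ℕ → ℕ → ℕ → ℝ) → ℝ), TM m → PP S m → ∀ w V : X → ℝ, Measurable w →
  (∀ x, w x = 1 ∨ w x = -1) → IsV S m w V → ∀ e : X → ℝ, IsJ S (fun t => (1 - w t * V t) / 2) e →
  ∀ᵐ t ∂μ, 1 - V t ^ 2 ≤ 8 * e t

/-- **Ez** (EASY-MEDIUM).  `(hJm : SC.StJm) (hJl : SC.StJl)`.  Write `1_n = 1_A (T n t)`, `w = vv A = 1 - 2 · 1_A`.  Let `Inv01 S φ`; `φ(T x t) = φ(t)` almost everywhere and `φ² = φ`.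
FIRST CLAUSE.  `∫ φ e = ∫ φ (1 - w V)/2 = (∫ φ - m ∫ (φ w)(T x) (w(T y) w(T z)))/2` (`IsV.eq` with `G = φ w`) `= m ∫ φ(T x t) (1 - w_x w_y w_z)/2 dt`, and for a triple almost everywhere
`(1 - w_x w_y w_z)/2 = 1_x + 1_y + 1_z - 2 (1_x 1_y + 1_x 1_z + 1_y 1_z)` (`PF`: not all three). `∫ φ 1_x = ∫ φ D`, `∫ φ 1_x 1_y = ∫ (φ 1_A)(T x) (φ 1_A)(T y)`, and by `PP` for `φ 1_A` (with `φ D`)
its `m` is `∫ φ D²`, the same for `x, z`, and for `y, z` it is at least `∫ φ D²`.  So `∫ φ e ≤ ∫ φ (3 D - 6 D²)` for all `φ`.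
SECOND CLAUSE.  `IsV.eq` with `G = φ 1_A`: `∫ φ 1_A V = m ∫ φ(t) 1_x w_y w_z`, and `1_x w_y w_z = 1_x - 2 · 1_x 1_y - 2 · 1_x 1_z` almost everywhere for a triple. So it is `∫ φ D - 2 ∫ φ D² - 2 ∫ φ D²`. -/
def StEz : Prop := ∀ (X : Type) (_ : MeasurableSpace X) (μ : Measure X) (_ : IsProbabilityMeasure μ)
  (S : Sys μ) (m : (ℕ → ℕ → ℕ → ℝ) → ℝ), TM m → PP S m → ∀ A : Set X, MeasurableSet A → PF S A →
  ∀ V e D : X → ℝ, IsV S m (vv A) V → IsJ S (fun t => (1 - vv A t * V t) / 2) e →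
  IsJ S (A.indicator fun _ => (1 : ℝ)) D →
  (∀ᵐ t ∂μ, e t ≤ 3 * D t - 6 * D t ^ 2) ∧
  ∀ φ : X → ℝ, Inv01 S φ →
    ∫ t, φ t * (A.indicator (fun _ => (1 : ℝ)) t * V t) ∂μ = ∫ t, φ t * (D t - 4 * D t ^ 2) ∂μ

/-- **Ex** (MEDIUM).  Exact relations for the sign of `V`.  `(hJe : SC.StJe) (hJm : SC.StJm) (hJl : SC.StJl)`.  Let `R(u) = w(T a u) w(T b u) w(T c u)`, `r = (1 - R)/2`, with `IsJ` function `q`.  Let `s = 1` where `V ≥ 0` and
`s = -1` elsewhere, `N = {t : φ t = 1, s(T a t) s(T b t) s(T c t) = -1}`, `G = 1_N`.  For a triple `x, y, z` let `I = ∫ G(T x t) 1[R(T y t) R(T z t) = -1] dt`, where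
`1[u = -1] = (1 - u)/2` for `u = ±1`.
UPPER BOUND: `I ≤ ∫ G(T x t) (r(T y t) + r(T z t)) dt`, so `m I ≤ 2 ∫ J_G q` (`PP`, two clauses); `J_G ≥ 0` and `J_G = φ J_G` (`φ G = G`), so `∫ J_G q ≤ p0 ∫ J_G = p0 ∫ G`.
LOWER BOUND: `R(T y t) R(T z t) = ∏_{j ∈ {a,b,c}} w(T (j y) t) w(T (j z) t)`, and if the three factors are `s(T j (T x t))` and `T x t ∈ N` the product is `-1`; so on `T x t ∈ N`
`1[R R = -1] ≥ 1 - ∑_j (1 - s(T j T x t) w(T j T y t) w(T j T z t))/2`.  Substitute `t = (T j)⁻¹ u`, `G_j = G ∘ (T j)⁻¹`: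
`m ∫ G(T x t) s(T j T x t) w(T j T y t) w(T j T z t) dt = m ∫ (G_j s)(T x u) w(T y u) w(T z u) du = ∫ G_j s V = ∫ G_j |V| ≥ v0 ∫ G_j = v0 ∫ G` (`IsV.eq`; `G_j` vanishes outside `{φ = 1}` almost everywhere, `φ ∘ T j = φ`).
So `m I ≥ ∫ G - (3/2)(1 - v0) ∫ G`.  Together `(1 - 3 (1 - v0)/2 - 2 p0) ∫ G ≤ 0`, so `μ N = ∫ G = 0`.  For almost every `t` with `φ t = 1` none of `V(T a t), V(T b t), V(T c t)` is `0`
(`φ (T j t) = 1`, `|V| ≥ v0 > 0` almost everywhere on `{φ = 1}`, `T j` preserves `μ`), so the product is positive. -/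
def StEx : Prop := ∀ (X : Type) (_ : MeasurableSpace X) (μ : Measure X) (_ : IsProbabilityMeasure μ)
  (S : Sys μ) (m : (ℕ → ℕ → ℕ → ℝ) → ℝ), TM m → PP S m → ∀ w V : X → ℝ, Measurable w →
  (∀ x, w x = 1 ∨ w x = -1) → IsV S m w V → ∀ φ : X → ℝ, Inv01 S φ → ∀ v0 p0 : ℝ, 0 < v0 →
  (∀ᵐ t ∂μ, φ t = 1 → v0 ≤ |V t|) → ∀ a b c : ℕ, 0 < a → 0 < b → 0 < c → ∀ q : X → ℝ,
  IsJ S (fun t => (1 - w (S.T a t) * w (S.T b t) * w (S.T c t)) / 2) q →
  (∀ᵐ t ∂μ, φ t = 1 → q t ≤ p0) → 2 * p0 + 3 * (1 - v0) / 2 < 1 →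
  ∀ᵐ t ∂μ, φ t = 1 → 0 < V (S.T a t) * V (S.T b t) * V (S.T c t)

/-! ## 3. Sets without triples -/

/-- **Kn** (MEDIUM).  THE KERNEL LEMMA.  `(hJm : SC.StJm) (hJl : SC.StJl)`.  Let `Q t` be the left side of the conclusion; `Q` is an invariant function (`InvF`).  Let `Inv01 S φ`.  Multiply the hypothesis by `φ t ≥ 0` and integrate: for every triple
`∑ ∑ M i j ∫ φ f_i(T x) f_j(T y) + ∑ ∑ M i j ∫ φ f_i(T x) f_j(T z) + ∑ c l ∫ φ h_l(T y) h_l(T z) ≤ 0`, `h_l = ∑ g l i f_i`.  As `φ(T x t) = φ(t) = φ(T y t)` almost everywhere and `φ² = φ`,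
`∫ φ f_i(T x) f_j(T y) = ∫ (φ f_i)(T x) (φ f_j)(T y)`, and by `PP` for `φ f_i`, `φ f_j` (with the functions `φ ν_i`, `φ ν_j`, `StJl`) its `m` is `∫ φ ν_i ν_j`; the same for `x, z`; and
`m ∫ φ h_l(T y) h_l(T z) ≥ ∫ φ (∑ g l i ν_i)²`.  Apply `m`: `∫ φ Q ≤ 0` for all `φ`, so `Q ≤ 0` almost everywhere. -/
def StKn : Prop := ∀ (X : Type) (_ : MeasurableSpace X) (μ : Measure X) (_ : IsProbabilityMeasure μ)
  (S : Sys μ) (m : (ℕ → ℕ → ℕ → ℝ) → ℝ), TM m → PP S m → ∀ (r k : ℕ) (f ν : Fin r → X → ℝ)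
  (M : Fin r → Fin r → ℝ) (g : Fin k → Fin r → ℝ) (c : Fin k → ℝ), (∀ i, BM (f i)) →
  (∀ i, IsJ S (f i) (ν i)) → (∀ l, 0 ≤ c l) →
  (∀ x y z, PT x y z → ∀ᵐ t ∂μ, ∑ i, ∑ j, M i j * (f i (S.T x t) * f j (S.T y t)) +
    ∑ i, ∑ j, M i j * (f i (S.T x t) * f j (S.T z t)) +
    ∑ l, c l * ((∑ i, g l i * f i (S.T y t)) * ∑ i, g l i * f i (S.T z t)) ≤ 0) →
  ∀ᵐ t ∂μ, 2 * ∑ i, ∑ j, M i j * (ν i t * ν j t) + ∑ l, c l * (∑ i, g l i * ν i t) ^ 2 ≤ 0

/-- **T3** (MEDIUM).  EVERY triple is rarely odd.  `(hKn : StKn) (hJe : SC.StJe) (hJm : SC.StJm) (hJl : SC.StJl)`.  Let `1_a = 1_A ∘ T a` etc., `k1, k2, k3` the `IsJ` functions of `1_b 1_c`, `1_a 1_c`, `1_a 1_b` (`StJe`), those of `1_a`, `1_b`, `1_c` are `D`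
(`StJl`).  Seven functions: `f 0 = 1 - 1_a - 1_b - 1_c + 1_b 1_c + 1_a 1_c + 1_a 1_b`, `f 1 = 1_a - 1_a 1_b - 1_a 1_c`, `f 2 = 1_b - 1_a 1_b - 1_b 1_c`, `f 3 = 1_c - 1_a 1_c - 1_b 1_c`, `f 4 = 1_b 1_c`, `f 5 = 1_a 1_c`,
`f 6 = 1_a 1_b`.  By `StJl` their `IsJ` functions are `nu (D t) (k1 t) (k2 t) (k3 t) i`.  At a point which is not in all three of `A_a, A_b, A_c` exactly one `f i` is `1` and the others are `0` (`i` = the type of the point), and `(gZ 1 i : ℝ) = 1_a`, `gZ 2 i = 1_b`,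
`gZ 3 i = 1_c`.  `StKn` with `r = 7`, `k = 10`, `M = MZ`, `g = gZ`, `c = cZ` (casts to `ℝ`).  HYPOTHESIS: for a triple `x, y, z` and almost every `t` each of `T x t, T y t, T z t` has a type `i, j, k` (`PF` for `a x, b x, c x` etc.;
`T a (T x t) = T (a x) t`), and no letter is in all three types (`PF` for `a x, a y, a z` etc.), so the sums collapse to `MZ i j + MZ i k + ∑ cZ l (gZ l j gZ l k) ≤ 0` by `fin_check`.  CONCLUSION with `kern_val`, `K = k1 + k2 + k3`: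
`84 D² - 54 D + 14 K + 30 D K - 28 K² + 6 (..) ≤ 0`.  And `q = 3 D - 2 K` almost everywhere (`(1 - v_a v_b v_c)/2 = 1_a + 1_b + 1_c - 2 (..)` outside the null set where all three are `1`; `StJm` twice), so with `K = (3 D - q)/2` the first five
terms are `33 D (2 D - 1) + (27 D - 7) q - 7 q²`.  SECOND CLAUSE: `(1 - v_a v_b v_c)/2 ≤ 2 - 1_a - 1_b - 1_c` almost everywhere (`StJm`). -/
def StT3 : Prop := ∀ (X : Type) (_ : MeasurableSpace X) (μ : Measure X) (_ : IsProbabilityMeasure μ)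
  (S : Sys μ) (m : (ℕ → ℕ → ℕ → ℝ) → ℝ), TM m → PP S m → ∀ A : Set X, MeasurableSet A → PF S A →
  ∀ D : X → ℝ, IsJ S (A.indicator fun _ => (1 : ℝ)) D → ∀ a b c : ℕ, PT a b c → ∀ q : X → ℝ,
  IsJ S (fun t => (1 - vv A (S.T a t) * vv A (S.T b t) * vv A (S.T c t)) / 2) q →
  ∀ᵐ t ∂μ, 33 * D t * (2 * D t - 1) + (27 * D t - 7) * q t - 7 * q t ^ 2 ≤ 0 ∧
    q t ≤ 2 - 3 * D t

/-- **Ct** (EASY).  The certificate `a, b, c, m` of `Cert K`.  For almost every `t` with `φ t = 1` the products for the `K` triples `a j, b j, c j` are positive.  Let `f n = 1` if `V (T n t) < 0` and `0` otherwise (in `ZMod 2`): a product of three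
real numbers is positive only if an even number of them is negative (and none is zero), so `f (a j) + f (b j) + f (c j) = 0` for all `j` and `f m = 0`, i.e. `V (T m t) ≥ 0`.  `T m` preserves `μ` and `φ ∘ T m = φ` almost everywhere:
`μ {φ = 1, V < 0} = μ {t : φ (T m t) = 1, V (T m t) < 0} = 0`. -/
def StCt : Prop := ∀ K : ℕ, Cert K → ∀ (X : Type) (_ : MeasurableSpace X) (μ : Measure X)
  (_ : IsProbabilityMeasure μ) (S : Sys μ) (V φ : X → ℝ), Measurable V → Inv01 S φ →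
  (∀ a b c : ℕ, PT a b c → ∀ᵐ t ∂μ, φ t = 1 → 0 < V (S.T a t) * V (S.T b t) * V (S.T c t)) →
  ∀ᵐ t ∂μ, φ t = 1 → 0 ≤ V t

/-- **Th** (EASY-MEDIUM).  The theorem for systems.  `(hC : Cert 15) (hMn : StMn) (hVo : StVo) (hGr : StGr) (hEz : StEz) (hEx : StEx) (hT3 : StT3) (hCt : StCt) (hJe : SC.StJe)`.
Suppose that `μ A ≥ 17/36`.  `D` the `IsJ` function of the indicator function, `∫ D = μ A` (`IsJ.int` for `φ = 1`), so `Z = {D ≥ 17/36}` has positive measure (otherwise `D < 17/36` almost everywhere and `∫ D < 17/36`); `φ = 1_Z` satisfies `Inv01`.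
`m` from `StMn`, `w = vv A`, `V` from `StVo`, `e` from `StJe`.  On `Z`: `e ≤ 3 D - 6 D² = 3 D (1 - 2 D) ≤ 17/216` (decreasing for `D ≥ 1/4`), so by `StGr` `V² ≥ 1 - 17/27 = 10/27 ≥ 0.6085²`, `|V| ≥ v0 = 0.6085`.  By `StT3` and `odd_le`: `q ≤ p0 = 1/5`
on `Z` for every triple `a, b, c`, and `2/5 + 3 (1 - 0.6085)/2 = 0.98725 < 1`.  So `StEx` and `StCt`: `V ≥ 0` almost everywhere on `Z`, `∫ φ 1_A V ≥ 0`; but by `StEz` it is `∫ φ (D - 4 D²) < 0` (`D - 4 D² ≤ -1/3` on `Z`). -/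
def StTh : Prop := SVX

/-! ## 4. Means and finite sets -/

/-- **Mm** (EASY).  Copy of `SC/I_Mn.lean` with the constant `17/36`.  `(hSy : SysS) (hUn : StVUn) (hX : SVX)`. -/
def StMm : Prop := SVM

/-- **Cf** (EASY).  Copy of `SC/I_Cf.lean` with the constant `17/36` (`17 * F.card ≤ 36 * A.card` instead of `23 * F.card ≤ 47 * A.card`).  `(hM : SVM)`. -/
def StCf : Prop := SVF

/-- **Rs** (EASY).  `(h : SVF)`.  Images under the coercion `ℕ+ → ℕ` (`Finset.map`, injective; the model is `KT/FinP.lean`). -/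
def StRs : Prop := ResSV

end Pool.Agent.F0f91f8.SV
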